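import Pool.Agent.Q225.EqProt

/-! The block protocol. -/

namespace Q225.EqG

open Finset

variable {V τ κ : Type} [Fintype V] [DecidableEq V] [Fintype τ] [DecidableEq τ] [Fintype κ]
variable {src dst : τ → V}

section Bounds

variable (Sc : Scheme V τ κ src dst)

/-- value of a linear form -/
def Lf (e : τ) (x : κ → ℤ) : ℤ := ∑ j, Sc.lf e j * x j

def C1 : ℕ := ∑ e, ∑ j, (Sc.lf e j).natAbs
def C2 : ℕ := (∑ e, ∑ f, (Sc.A e f).natAbs) * (C1 Sc) ^ 2

/-- local part of the quadratic form -/
def qv (v : V) (x : κ → ℤ) : ℤ :=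
  ∑ e, ∑ f, if Sc.nu e f = v then Sc.A e f * Lf Sc e x * Lf Sc f x else 0

lemma Lf_bound (e : τ) {m : ℕ} (x : κ → ℤ) (hx : ∀ j, |x j| ≤ m) :
    |Lf Sc e x| ≤ C1 Sc * m := by
  unfold Lf
  calc |∑ j, Sc.lf e j * x j| ≤ ∑ j, |Sc.lf e j * x j| := Finset.abs_sum_le_sum_abs _ _
    _ ≤ ∑ j, |Sc.lf e j| * m := by
        apply Finset.sum_le_sum
        intro j _
        rw [abs_mul]
        exact mul_le_mul_of_nonneg_left (hx j) (abs_nonneg _)
    _ = (∑ j, |Sc.lf e j|) * m := by rw [Finset.sum_mul]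
    _ ≤ C1 Sc * m := by
        gcongr
        unfold C1
        push_cast
        exact Finset.single_le_sum (f := fun e => ∑ j, |Sc.lf e j|)
          (fun _ _ => Finset.sum_nonneg fun _ _ => abs_nonneg _) (mem_univ e)

lemma qv_bound (v : V) {m : ℕ} (x : κ → ℤ) (hx : ∀ j, |x j| ≤ m) :
    |qv Sc v x| ≤ C2 Sc * m ^ 2 := by
  unfold qv
  have h1 : ∀ e f, |if Sc.nu e f = v then Sc.A e f * Lf Sc e x * Lf Sc f x else 0| ≤
      |Sc.A e f| * ((C1 Sc * m) * (C1 Sc * m)) := by
    intro e f
    have a := Lf_bound Sc e x hx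
    have b := Lf_bound Sc f x hx
    split_ifs
    · rw [abs_mul, abs_mul, mul_assoc]
      gcongr
    · rw [abs_zero]; positivity
  calc |∑ e, ∑ f, if Sc.nu e f = v then Sc.A e f * Lf Sc e x * Lf Sc f x else 0|
      ≤ ∑ e, |∑ f, if Sc.nu e f = v then Sc.A e f * Lf Sc e x * Lf Sc f x else 0| :=
        Finset.abs_sum_le_sum_abs _ _
    _ ≤ ∑ e, ∑ f, |if Sc.nu e f = v then Sc.A e f * Lf Sc e x * Lf Sc f x else 0| :=
        Finset.sum_le_sum fun e _ => Finset.abs_sum_le_sum_abs _ _
    _ ≤ ∑ e, ∑ f, |Sc.A e f| * ((C1 Sc * m) * (C1 Sc * m)) :=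
        Finset.sum_le_sum fun e _ => Finset.sum_le_sum fun f _ => h1 e f
    _ = C2 Sc * m ^ 2 := by
        simp only [← Finset.sum_mul]
        unfold C2
        push_cast
        ring

end Bounds

variable {G : SimpleGraph V}

theorem block (hG : G.Connected) (hadj : ∀ e, G.Adj (src e) (dst e))
    (Sc : Scheme V τ κ src dst) :
    ∃ K1 K2 C : ℕ, ∀ D m L n : ℕ, 2 * K1 * m + 1 ≤ 2 ^ L →
      2 ^ n * (2 * D * K2 * m ^ 2 + 1) ^ Fintype.card V ≤ m ^ (Fintype.card κ * D) →
      cc G n ≤ Fintype.card τ * D * L + C := by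
  classical
  obtain ⟨C, hC⟩ := exists_protocol (G := G) hG
  refine ⟨C1 Sc, C2 Sc, C, fun D m L n hL hn => ?_⟩
  -- points
  let P := Fin D → κ → Fin m
  let z : (κ → Fin m) → κ → ℤ := fun x j => ((x j : ℕ) : ℤ)
  have hz : ∀ x j, |z x j| ≤ m := by
    intro x j
    simp only [z]
    rw [abs_of_nonneg (by positivity)]
    exact_mod_cast (x j).2.le
  let sv : V → P → ℤ := fun v X => ∑ i, qv Sc v (z (X i))
  have hsv : ∀ v X, |sv v X| ≤ D * C2 Sc * m ^ 2 := by
    intro v X
    calc |sv v X| ≤ ∑ i, |qv Sc v (z (X i))| := Finset.abs_sum_le_sum_abs _ _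
      _ ≤ ∑ i : Fin D, (C2 Sc * m ^ 2 : ℤ) :=
        Finset.sum_le_sum fun i _ => qv_bound Sc v _ (hz _)
      _ = D * C2 Sc * m ^ 2 := by
        rw [Finset.sum_const, card_univ, Fintype.card_fin]; simp [mul_assoc]
  let key : P → (V → Fin (2 * D * C2 Sc * m ^ 2 + 1)) := fun X v =>
    ⟨(sv v X + D * C2 Sc * m ^ 2).toNat, by
      have h1 := abs_le.mp (hsv v X)
      zify
      rw [Int.toNat_of_nonneg (by linarith)]
      linarith⟩
  have hkey : ∀ X Y, key X = key Y → ∀ v, sv v X = sv v Y := by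
    intro X Y h v
    have h1 := congrArg Fin.val (congrFun h v)
    simp only [key] at h1
    have a := abs_le.mp (hsv v X)
    have b := abs_le.mp (hsv v Y)
    zify at h1
    rw [Int.toNat_of_nonneg (by linarith), Int.toNat_of_nonneg (by linarith)] at h1
    linarith
  -- pigeonhole
  have hcard : Fintype.card (V → Fin (2 * D * C2 Sc * m ^ 2 + 1)) * 2 ^ n ≤ Fintype.card P := by
    rw [Fintype.card_fun, Fintype.card_fin, Fintype.card_fun, Fintype.card_fun, Fintype.card_fin,
      Fintype.card_fin, ← pow_mul, mul_comm]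
    exact hn
  obtain ⟨c, hc⟩ := Fintype.exists_le_card_fiber_of_mul_le_card key hcard
  have hemb : Nonempty ((Fin n → Bool) ↪ {X : P // X ∈ (univ.filter fun X : P => key X = c)}) := by
    apply Function.Embedding.nonempty_of_card_le
    rw [Fintype.card_fun, Fintype.card_bool, Fintype.card_fin, Fintype.card_coe]
    exact hc
  obtain ⟨emb⟩ := hemb
  let enc : (Fin n → Bool) → P := fun s => (emb s).1
  have henc : Function.Injective enc := by
    intro a b h
    exact emb.injective (Subtype.ext h)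
  have hkeyc : ∀ s, key (enc s) = c := by
    intro s
    have := (emb s).2
    rw [mem_filter] at this
    exact this.2
  -- comparisons
  let val : τ → Fin D → (Fin n → Bool) → ℕ := fun e i s =>
    (Lf Sc e (z (enc s i)) + C1 Sc * m).toNat
  have hval : ∀ e i s, ((val e i s : ℕ) : ℤ) = Lf Sc e (z (enc s i)) + C1 Sc * m := by
    intro e i s
    have := abs_le.mp (Lf_bound Sc e (z (enc s i)) (hz _))
    exact Int.toNat_of_nonneg (by linarith)
  have hvlt : ∀ e i s, val e i s < 2 ^ L := by
    intro e i s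
    refine lt_of_lt_of_le ?_ hL
    zify
    rw [hval]
    have := abs_le.mp (Lf_bound Sc e (z (enc s i)) (hz _))
    linarith
  let l : List (Comp G n) := ((univ : Finset (τ × Fin D × Fin L)).toList).map fun q =>
    ⟨src q.1, dst q.1, hadj q.1, fun s => (val q.1 q.2.1 s).testBit q.2.2⟩
  have hlen : l.length = Fintype.card τ * D * L := by
    simp only [l, List.length_map, Finset.length_toList, card_univ, Fintype.card_prod,
      Fintype.card_fin, mul_assoc]
  rw [← hlen]
  apply hC n l
  intro x hx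
  -- equality of the values of the linear forms
  have heq : ∀ e i, Lf Sc e (z (enc (x (src e)) i)) = Lf Sc e (z (enc (x (dst e)) i)) := by
    intro e i
    have h1 : val e i (x (src e)) = val e i (x (dst e)) := by
      apply Nat.eq_of_testBit_eq
      intro b
      by_cases hb : b < L
      · have := hx ⟨src e, dst e, hadj e, fun s => (val e i s).testBit b⟩ (by
          simp only [l, List.mem_map]
          exact ⟨(e, i, ⟨b, hb⟩), Finset.mem_toList.mpr (mem_univ _), rfl⟩)
        exact this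
      · push Not at hb
        rw [Nat.testBit_eq_false_of_lt (lt_of_lt_of_le (hvlt _ _ _)
            (Nat.pow_le_pow_right (by norm_num) hb)),
          Nat.testBit_eq_false_of_lt (lt_of_lt_of_le (hvlt _ _ _)
            (Nat.pow_le_pow_right (by norm_num) hb))]
    have h2 := congrArg (fun k : ℕ => (k : ℤ)) h1
    simp only [hval] at h2
    linarith
  -- common values
  let y : Fin D → τ → ℤ := fun i e => Lf Sc e (z (enc (x (src e)) i))
  have hyv : ∀ i e v, (v = src e ∨ v = dst e) → y i e = Lf Sc e (z (enc (x v) i)) := by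
    intro i e v hv
    rcases hv with rfl | rfl
    · rfl
    · exact heq e i
  have hlocal : ∀ i, ∑ e, ∑ f, Sc.A e f * y i e * y i f = ∑ v, qv Sc v (z (enc (x v) i)) := by
    intro i
    unfold qv
    rw [Finset.sum_comm (s := (univ : Finset V)) (t := (univ : Finset τ))]
    refine Finset.sum_congr rfl fun e _ => ?_
    rw [Finset.sum_comm (s := (univ : Finset V)) (t := (univ : Finset τ))]
    refine Finset.sum_congr rfl fun f _ => ?_
    rw [Finset.sum_ite_eq univ (Sc.nu e f), if_pos (mem_univ _)]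
    by_cases hA : Sc.A e f = 0
    · rw [hA]; ring
    · obtain ⟨h1, h2⟩ := Sc.hnu e f hA
      rw [hyv i e _ h1, hyv i f _ h2]
  have hdiag : ∀ w (i : Fin D), ∑ v, qv Sc v (z (enc (x w) i)) = 0 := by
    intro w i
    rw [← Sc.h0 (z (enc (x w) i))]
    unfold qv
    rw [Finset.sum_comm (s := (univ : Finset V)) (t := (univ : Finset τ))]
    refine Finset.sum_congr rfl fun e _ => ?_
    rw [Finset.sum_comm (s := (univ : Finset V)) (t := (univ : Finset τ))]
    refine Finset.sum_congr rfl fun f _ => ?_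
    rw [Finset.sum_ite_eq univ (Sc.nu e f), if_pos (mem_univ _)]
    rfl
  -- the sum over all coordinates vanishes
  have htotal : ∀ w : V, ∑ i, ∑ e, ∑ f, Sc.A e f * y i e * y i f = 0 := by
    intro w
    simp only [hlocal]
    rw [Finset.sum_comm]
    have h1 : ∀ v, ∑ i, qv Sc v (z (enc (x v) i)) = ∑ i, qv Sc v (z (enc (x w) i)) := by
      intro v
      exact hkey (enc (x v)) (enc (x w)) ((hkeyc _).trans (hkeyc _).symm) v
    simp only [h1]
    rw [Finset.sum_comm]
    exact Finset.sum_eq_zero fun i _ => hdiag w i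
  intro u w
  have hzero := (Finset.sum_eq_zero_iff_of_nonneg (fun i _ => Sc.h1 (y i))).mp (htotal u)
  apply henc
  funext i
  have h2 := Sc.h2 (y i) (fun v => z (enc (x v) i)) (hzero i (mem_univ _)) (fun e =>
    ⟨hyv i e _ (Or.inl rfl), hyv i e _ (Or.inr rfl)⟩) u w
  funext j
  have h3 := congrFun h2 j
  simp only [z] at h3
  exact Fin.ext (by exact_mod_cast h3)

end Q225.EqG
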