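import Mathlib

/-!
# Equality testing on graphs: definitions

`V` is the vertex set of a graph `G`; a player sits at each vertex and holds a string of `n` bits.
-/

set_option autoImplicit false

namespace Q225.EqG

variable {V : Type}

/-- One transmitted bit: it is sent from `src` to the neighbour `dst`, and it is a function `msg` of
the input of `src` and of the list of all bits received by `src` so far. -/
structure Step (G : SimpleGraph V) (n : ℕ) where
  src : V
  dst : V
  adj : G.Adj src dst
  msg : (Fin n → Bool) → List Bool → Bool

/-- Lists of bits received by the players after the steps `l` (in this order) on the inputs `x`, if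
the lists before these steps are `r`. -/
def play [DecidableEq V] {G : SimpleGraph V} {n : ℕ} (x : V → Fin n → Bool) :
    List (Step G n) → (V → List Bool) → V → List Bool
  | [], r => r
  | s :: l, r => play x l (Function.update r s.dst (r s.dst ++ [s.msg (x s.src) (r s.src)]))

/-- An agreed deterministic protocol: the list of the transmissions, and for every player an output,
which is a function of the own input and of the received bits. -/
structure Protocol (G : SimpleGraph V) (n : ℕ) where
  steps : List (Step G n)
  out : V → (Fin n → Bool) → List Bool → Bool

/-- The protocol decides whether all inputs are equal: on every input, every player outputs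
the right answer. -/
def Protocol.Correct [DecidableEq V] {G : SimpleGraph V} {n : ℕ} (P : Protocol G n) : Prop :=
  ∀ (x : V → Fin n → Bool) (v : V),
    P.out v (x v) (play x P.steps (fun _ => []) v) = true ↔ ∀ u w, x u = x w

/-- `f(n, G)`: the least number of bits of a correct protocol. -/
noncomputable def cc [DecidableEq V] (G : SimpleGraph V) (n : ℕ) : ℕ :=
  sInf {c | ∃ P : Protocol G n, P.Correct ∧ P.steps.length = c}

/-- The cuts `(S, Sᶜ)`, `∅ ≠ S ≠ V`, listed by the set `S`. -/
def cuts (V : Type) [Fintype V] [DecidableEq V] : Finset (Finset V) :=
  Finset.univ.filter fun S => S.Nonempty ∧ S ≠ Finset.univ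

/-- Fractional packings of cuts: weights in `[0, 1]` such that for every edge `uv` the cuts
containing `uv` (exactly one of `u, v` lies in `S`) have total weight at most one. -/
def IsPacking [Fintype V] [DecidableEq V] (G : SimpleGraph V) (g : Finset V → ℝ) : Prop :=
  (∀ S, 0 ≤ g S ∧ g S ≤ 1) ∧
    ∀ u v, G.Adj u v → ∑ S ∈ (cuts V).filter (fun S => ¬ (u ∈ S ↔ v ∈ S)), g S ≤ 1

/-- `fc(G)`: the maximum total weight of a fractional packing of cuts. -/
noncomputable def fc [Fintype V] [DecidableEq V] (G : SimpleGraph V) : ℝ :=
  sSup {t | ∃ g, IsPacking G g ∧ t = ∑ S ∈ cuts V, g S}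

end Q225.EqG
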