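import Pool.Agent.Q225.EqProt

/-! Existence of correct protocols, subadditivity, cut lower bound. -/

namespace Q225.EqG

open Finset

variable {V : Type} [DecidableEq V] {G : SimpleGraph V} {n : ℕ}

/-- correct protocols exist -/
lemma exists_correct [Fintype V] (hG : G.Connected) (n : ℕ) :
    ∃ P : Protocol G n, P.Correct ∧ P.steps.length = cc G n := by
  classical
  have hne : {c | ∃ P : Protocol G n, P.Correct ∧ P.steps.length = c}.Nonempty := by
    let l : List (Comp G n) :=
      ((univ : Finset ({p : V × V // G.Adj p.1 p.2} × Fin n)).toList).map fun q =>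
        ⟨q.1.1.1, q.1.1.2, q.1.2, fun x => x q.2⟩
    obtain ⟨C, hC⟩ := exists_protocol0 (G := G) hG
    refine ⟨_, hC n l ?_⟩
    intro x hx
    have hadj : ∀ u w, G.Adj u w → x u = x w := by
      intro u w huw
      funext i
      exact hx ⟨u, w, huw, fun x => x i⟩ (by
        simp only [l, List.mem_map]
        exact ⟨(⟨(u, w), huw⟩, i), Finset.mem_toList.mpr (mem_univ _), rfl⟩)
    intro u w
    obtain ⟨p⟩ := hG.preconnected u w
    induction p with
    | nil => rfl
    | cons h _ ih => exact (hadj _ _ h).trans ih
  exact Nat.sInf_mem hne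

/-! ### Subadditivity -/

variable {n₁ n₂ : ℕ}

/-- number of bits received by `v` -/
def cnt (l : List (Step G n)) (v : V) : ℕ := (l.filter fun s => s.dst = v).length

lemma play_length (x : V → Fin n → Bool) (l : List (Step G n)) (r : V → List Bool) (v : V) :
    (play x l r v).length = (r v).length + cnt l v := by
  induction l generalizing r with
  | nil => simp [play, cnt]
  | cons s l ih =>
    change (play x l _ v).length = _
    rw [ih]
    unfold cnt
    by_cases h : s.dst = v
    · subst h
      rw [Function.update_self]
      simp; omega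
    · rw [Function.update_of_ne (Ne.symm h)]
      simp [h]

def lift1 (s : Step G n₁) : Step G (n₁ + n₂) :=
  ⟨s.src, s.dst, s.adj, fun x r => s.msg (fun i => x (Fin.castAdd n₂ i)) r⟩

def lift2 (k : V → ℕ) (s : Step G n₂) : Step G (n₁ + n₂) :=
  ⟨s.src, s.dst, s.adj, fun x r => s.msg (fun i => x (Fin.natAdd n₁ i)) (r.drop (k s.src))⟩

lemma play_lift1 (x : V → Fin (n₁ + n₂) → Bool) (l : List (Step G n₁)) (r : V → List Bool) :
    play x (l.map lift1) r = play (fun v i => x v (Fin.castAdd n₂ i)) l r := by
  induction l generalizing r with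
  | nil => rfl
  | cons s l ih => exact ih _

lemma play_lift2 (x : V → Fin (n₁ + n₂) → Bool) (k : V → ℕ) (a : V → List Bool)
    (ha : ∀ v, (a v).length = k v) (l : List (Step G n₂)) (r : V → List Bool) :
    play x (l.map (lift2 k)) (fun v => a v ++ r v) =
      fun v => a v ++ play (fun v i => x v (Fin.natAdd n₁ i)) l r v := by
  induction l generalizing r with
  | nil => rfl
  | cons s l ih =>
    rw [List.map_cons]
    change play x (l.map (lift2 k)) (Function.update (fun v => a v ++ r v) s.dst
      ((a s.dst ++ r s.dst) ++ [s.msg (fun i => x s.src (Fin.natAdd n₁ i))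
        ((a s.src ++ r s.src).drop (k s.src))])) = _
    have e : (Function.update (fun v => a v ++ r v) s.dst
      ((a s.dst ++ r s.dst) ++ [s.msg (fun i => x s.src (Fin.natAdd n₁ i))
        ((a s.src ++ r s.src).drop (k s.src))])) =
      fun v => a v ++ (Function.update r s.dst (r s.dst ++
        [s.msg (fun i => x s.src (Fin.natAdd n₁ i)) (r s.src)])) v := by
      funext v
      by_cases h : v = s.dst
      · subst h
        rw [Function.update_self, Function.update_self, List.append_assoc]
        congr 3
        rw [← ha, List.drop_left]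
      · rw [Function.update_of_ne h, Function.update_of_ne h]
    rw [e]
    exact ih _

theorem cc_subadd [Fintype V] (hG : G.Connected) (n₁ n₂ : ℕ) :
    cc G (n₁ + n₂) ≤ cc G n₁ + cc G n₂ := by
  obtain ⟨P, hP, hPl⟩ := exists_correct hG n₁
  obtain ⟨Q, hQ, hQl⟩ := exists_correct hG n₂
  rw [← hPl, ← hQl]
  apply Nat.sInf_le
  let k : V → ℕ := cnt P.steps
  refine ⟨⟨P.steps.map lift1 ++ Q.steps.map (lift2 k), fun v x r =>
    P.out v (fun i => x (Fin.castAdd n₂ i)) (r.take (k v)) &&
      Q.out v (fun i => x (Fin.natAdd n₁ i)) (r.drop (k v))⟩, ?_, ?_⟩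
  · intro x v
    set x1 : V → Fin n₁ → Bool := fun v i => x v (Fin.castAdd n₂ i) with hx1
    set x2 : V → Fin n₂ → Bool := fun v i => x v (Fin.natAdd n₁ i) with hx2
    change (P.out v (x1 v) ((play x (P.steps.map lift1 ++ Q.steps.map (lift2 k)) (fun _ => []) v).take
      (k v)) && Q.out v (x2 v) ((play x (P.steps.map lift1 ++ Q.steps.map (lift2 k))
        (fun _ => []) v).drop (k v))) = true ↔ _
    set a := play x1 P.steps (fun _ => []) with ha
    have hak : ∀ v, (a v).length = k v := by
      intro v
      rw [ha, play_length]; simp [k]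
    have e1 : play x (P.steps.map lift1 ++ Q.steps.map (lift2 k)) (fun _ => []) =
        fun v => a v ++ play x2 Q.steps (fun _ => []) v := by
      rw [play_append, play_lift1]
      have := play_lift2 x k a hak Q.steps (fun _ => [])
      rw [← this]
      congr 1
      funext v
      rw [List.append_nil]
    rw [e1]
    simp only
    rw [← hak v, List.take_left, List.drop_left, Bool.and_eq_true]
    have hp := hP x1 v
    have hq := hQ x2 v
    rw [← ha] at hp
    rw [hp, hq]
    constructor
    · rintro ⟨h1, h2⟩ u w
      funext i
      refine Fin.addCases (fun j => ?_) (fun j => ?_) i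
      · exact congrFun (h1 u w) j
      · exact congrFun (h2 u w) j
    · intro h
      exact ⟨fun u w => by simp only [hx1, h u w], fun u w => by simp only [hx2, h u w]⟩
  · simp

/-! ### Cut lower bound -/

/-- does the step cross the cut? -/
def crosses (S : Finset V) (s : Step G n) : Prop := ¬ (s.src ∈ S ↔ s.dst ∈ S)

instance (S : Finset V) (s : Step G n) : Decidable (crosses S s) := by
  unfold crosses; infer_instance

/-- bits sent over the cut -/
def ctr (S : Finset V) (x : V → Fin n → Bool) : List (Step G n) → (V → List Bool) → List Bool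
  | [], _ => []
  | s :: l, r =>
    (if crosses S s then [s.msg (x s.src) (r s.src)] else []) ++
      ctr S x l (Function.update r s.dst (r s.dst ++ [s.msg (x s.src) (r s.src)]))

lemma ctr_length (S : Finset V) (x : V → Fin n → Bool) (l : List (Step G n)) (r : V → List Bool) :
    (ctr S x l r).length = (l.filter fun s => crosses S s).length := by
  induction l generalizing r with
  | nil => rfl
  | cons s l ih =>
    rw [ctr, List.length_append, ih]
    by_cases h : crosses S s
    · simp [h]; omega
    · simp [h]

lemma play_mix (S : Finset V) (x y z : V → Fin n → Bool) (hzx : ∀ v ∈ S, z v = x v)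
    (hzy : ∀ v ∉ S, z v = y v) (l : List (Step G n)) (rx ry rz : V → List Bool)
    (h1 : ∀ v ∈ S, rz v = rx v) (h2 : ∀ v ∉ S, rz v = ry v) (hc : ctr S x l rx = ctr S y l ry) :
    (∀ v ∈ S, play z l rz v = play x l rx v) ∧ (∀ v ∉ S, play z l rz v = play y l ry v) := by
  induction l generalizing rx ry rz with
  | nil => exact ⟨h1, h2⟩
  | cons s l ih =>
    rw [ctr, ctr] at hc
    have hxm : s.src ∈ S → s.msg (z s.src) (rz s.src) = s.msg (x s.src) (rx s.src) := by
      intro h; rw [hzx _ h, h1 _ h]
    have hym : s.src ∉ S → s.msg (z s.src) (rz s.src) = s.msg (y s.src) (ry s.src) := by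
      intro h; rw [hzy _ h, h2 _ h]
    have hstep : (crosses S s → s.msg (x s.src) (rx s.src) = s.msg (y s.src) (ry s.src)) ∧
        ctr S x l (Function.update rx s.dst (rx s.dst ++ [s.msg (x s.src) (rx s.src)])) =
        ctr S y l (Function.update ry s.dst (ry s.dst ++ [s.msg (y s.src) (ry s.src)])) := by
      by_cases h : crosses S s
      · rw [if_pos h, if_pos h] at hc
        simp only [List.cons_append, List.nil_append, List.cons.injEq] at hc
        exact ⟨fun _ => hc.1, hc.2⟩
      · rw [if_neg h, if_neg h] at hc
        exact ⟨fun h' => absurd h' h, hc⟩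
    have hzxm : s.dst ∈ S → s.msg (z s.src) (rz s.src) = s.msg (x s.src) (rx s.src) := by
      intro hd
      by_cases hs : s.src ∈ S
      · exact hxm hs
      · rw [hym hs]
        exact (hstep.1 (fun h => hs (h.2 hd))).symm
    have hzym : s.dst ∉ S → s.msg (z s.src) (rz s.src) = s.msg (y s.src) (ry s.src) := by
      intro hd
      by_cases hs : s.src ∈ S
      · rw [hxm hs]
        exact hstep.1 (fun h => hd (h.1 hs))
      · exact hym hs
    apply ih
    · intro v hv
      by_cases h : v = s.dst
      · subst h
        rw [Function.update_self, Function.update_self, h1 _ hv, hzxm hv]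
      · rw [Function.update_of_ne h, Function.update_of_ne h, h1 _ hv]
    · intro v hv
      by_cases h : v = s.dst
      · subst h
        rw [Function.update_self, Function.update_self, h2 _ hv, hzym hv]
      · rw [Function.update_of_ne h, Function.update_of_ne h, h2 _ hv]
    · exact hstep.2

/-- every cut carries at least `n` bits -/
theorem cut_bound [Fintype V] (P : Protocol G n) (hP : P.Correct) (S : Finset V) (hS : S ∈ cuts V) :
    n ≤ (P.steps.filter fun s => crosses S s).length := by
  classical
  unfold cuts at hS
  rw [mem_filter] at hS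
  obtain ⟨-, ⟨u, hu⟩, hne⟩ := hS
  obtain ⟨w, hw⟩ : ∃ w, w ∉ S := by
    by_contra hc
    push Not at hc
    exact hne (Finset.eq_univ_iff_forall.mpr hc)
  let f : (Fin n → Bool) → (Fin (P.steps.filter fun s => crosses S s).length → Bool) := fun s i =>
    (ctr S (fun _ => s) P.steps (fun _ => []))[(i : ℕ)]'(by
      rw [ctr_length]; exact i.2)
  have hinj : Function.Injective f := by
    intro a b h
    have hctr : ctr S (fun _ => a) P.steps (fun _ => []) = ctr S (fun _ => b) P.steps (fun _ => []) := by
      apply List.ext_getElem
      · rw [ctr_length, ctr_length]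
      · intro i h1 h2
        rw [ctr_length] at h1
        exact congrFun h ⟨i, h1⟩
    let z : V → Fin n → Bool := fun v => if v ∈ S then a else b
    obtain ⟨h1, -⟩ := play_mix S (fun _ => a) (fun _ => b) z (fun v hv => if_pos hv)
      (fun v hv => if_neg hv) P.steps (fun _ => []) (fun _ => []) (fun _ => [])
      (fun _ _ => rfl) (fun _ _ => rfl) hctr
    have h3 := h1 u hu
    have h4 := (hP (fun _ => a) u).2 (fun _ _ => rfl)
    rw [← h3] at h4
    have h5 : z u = a := if_pos hu
    have h6 : P.out u (z u) (play z P.steps (fun _ => []) u) = true := by rw [h5]; exact h4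
    have h7 := (hP z u).1 h6 u w
    rw [h5] at h7
    rw [h7]
    exact if_neg hw
  have hcard := Fintype.card_le_of_injective f hinj
  rw [Fintype.card_fun, Fintype.card_fun, Fintype.card_bool, Fintype.card_fin, Fintype.card_fin] at hcard
  exact (Nat.pow_le_pow_iff_right (by norm_num)).mp hcard

lemma sum_filter_list {α : Type} (l : List α) (p : α → Prop) [DecidablePred p] :
    ((l.filter fun a => p a).length : ℝ) = (l.map fun a => if p a then (1 : ℝ) else 0).sum := by
  induction l with
  | nil => simp
  | cons a l ih =>
    by_cases h : p a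
    · simp [h, ih]; ring
    · simp [h, ih]

/-- **Lower bound.** -/
theorem fc_le [Fintype V] (hG : G.Connected) (n : ℕ) : fc G * n ≤ cc G n := by
  classical
  obtain ⟨P, hP, hl⟩ := exists_correct hG n
  rcases Nat.eq_zero_or_pos n with rfl | hn
  · simp
  have hn' : (0 : ℝ) < n := by exact_mod_cast hn
  rw [← le_div_iff₀ hn']
  unfold fc
  apply csSup_le
  · exact ⟨_, fun _ => 0, ⟨fun _ => ⟨le_rfl, zero_le_one⟩, fun _ _ _ => by simp⟩, rfl⟩
  · rintro _ ⟨g, ⟨hg1, hg2⟩, rfl⟩
    rw [le_div_iff₀ hn', Finset.sum_mul, ← hl]
    calc ∑ S ∈ cuts V, g S * n ≤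
        ∑ S ∈ cuts V, g S * ((P.steps.filter fun s => crosses S s).length : ℝ) := by
          apply Finset.sum_le_sum
          intro S hS
          exact mul_le_mul_of_nonneg_left (by exact_mod_cast cut_bound P hP S hS) (hg1 S).1
      _ = ∑ S ∈ cuts V, (P.steps.map fun s => if crosses S s then g S else 0).sum := by
          refine Finset.sum_congr rfl fun S _ => ?_
          rw [sum_filter_list, ← List.sum_map_mul_left]
          congr 1
          apply List.map_congr_left
          intro s _
          split_ifs
          · rw [mul_one]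
          · rw [mul_zero]
      _ = (P.steps.map fun s => ∑ S ∈ cuts V, if crosses S s then g S else 0).sum := by
          induction P.steps with
          | nil => simp
          | cons a l ih => simp only [List.map_cons, List.sum_cons, Finset.sum_add_distrib, ih]
      _ ≤ (P.steps.map fun _ => (1 : ℝ)).sum := by
          apply List.sum_le_sum
          intro s _
          rw [← Finset.sum_filter]
          exact hg2 s.src s.dst s.adj
      _ = (P.steps.length : ℝ) := by simp

end Q225.EqG
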