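import Pool.Agent.Q225.EqBlock
import Pool.Agent.Q225.EqSub
import Pool.Agent.H575R2.Farkas

/-! `f(G) = fc(G)`. -/

namespace Q225.EqG

open Finset Filter

variable {V : Type} [Fintype V] [DecidableEq V] {G : SimpleGraph V}

/-! ### Duality -/

/-- ordered adjacent pairs -/
abbrev Dir (G : SimpleGraph V) : Type := {p : V × V // G.Adj p.1 p.2}

/-- the pair crosses the cut -/
def dcross (S : Finset V) (p : Dir G) : Prop := ¬ (p.1.1 ∈ S ↔ p.1.2 ∈ S)

open Classical in
/-- dual solution of the packing program -/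
theorem duality (hG : G.Connected) (hE : Nonempty (Dir G)) :
    ∃ w : Dir G → ℝ, (∀ p, 0 ≤ w p) ∧ ∑ p, w p ≤ fc G ∧
      ∀ S ∈ cuts V, 1 ≤ ∑ p ∈ univ.filter (fun p => dcross S p), w p := by
  let κ := Dir G ⊕ Finset V ⊕ Finset V
  let lin : (Finset V → ℝ) → ((Finset V → ℝ) →ₗ[ℝ] ℝ) := fun a => Fintype.linearCombination ℝ a
  have hlin : ∀ a g, lin a g = ∑ S, g S * a S := by
    intro a g
    simp only [lin, Fintype.linearCombination_apply, smul_eq_mul]
  let ℓ : κ → ((Finset V → ℝ) →ₗ[ℝ] ℝ) := fun i => match i with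
    | Sum.inl p => lin (fun S => if S ∈ cuts V ∧ dcross S p then 1 else 0)
    | Sum.inr (Sum.inl T) => lin (fun S => if S = T then -1 else 0)
    | Sum.inr (Sum.inr T) => lin (fun S => if S = T then 1 else 0)
  let b : κ → ℝ := fun i => match i with
    | Sum.inl _ => 1
    | Sum.inr (Sum.inl _) => 0
    | Sum.inr (Sum.inr _) => 1
  let f : (Finset V → ℝ) →ₗ[ℝ] ℝ := lin (fun S => if S ∈ cuts V then 1 else 0)
  have hℓ1 : ∀ p g, ℓ (Sum.inl p) g = ∑ S ∈ (cuts V).filter (fun S => dcross S p), g S := by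
    intro p g
    change lin _ g = _
    rw [hlin, Finset.sum_filter, ← Finset.sum_filter_add_sum_filter_not univ (fun S => S ∈ cuts V)]
    rw [Finset.sum_eq_zero (s := univ.filter fun S => ¬ S ∈ cuts V)]
    · rw [add_zero]
      apply Finset.sum_congr
      · ext S; simp
      · intro S hS
        by_cases h : dcross S p
        · rw [if_pos ⟨hS, h⟩, if_pos h, mul_one]
        · rw [if_neg (fun h' => h h'.2), if_neg h, mul_zero]
    · intro S hS
      rw [if_neg (fun h' => (mem_filter.mp hS).2 h'.1), mul_zero]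
  have hℓ2 : ∀ T g, ℓ (Sum.inr (Sum.inl T)) g = - g T := by
    intro T g
    change lin _ g = _
    rw [hlin, Finset.sum_eq_single T]
    · simp
    · intro S _ hS; rw [if_neg hS, mul_zero]
    · intro h; exact absurd (mem_univ _) h
  have hℓ3 : ∀ T g, ℓ (Sum.inr (Sum.inr T)) g = g T := by
    intro T g
    change lin _ g = _
    rw [hlin, Finset.sum_eq_single T]
    · simp
    · intro S _ hS; rw [if_neg hS, mul_zero]
    · intro h; exact absurd (mem_univ _) h
  have hf : ∀ g, f g = ∑ S ∈ cuts V, g S := by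
    intro g
    change lin _ g = _
    rw [hlin, ← Finset.sum_filter_add_sum_filter_not univ (fun S => S ∈ cuts V)]
    rw [Finset.sum_eq_zero (s := univ.filter fun S => ¬ S ∈ cuts V)]
    · rw [add_zero]
      apply Finset.sum_congr
      · ext S; simp
      · intro S hS
        rw [if_pos hS, mul_one]
    · intro S hS
      rw [if_neg (mem_filter.mp hS).2, mul_zero]
  -- bounded above
  have hbdd : BddAbove {t | ∃ g, IsPacking G g ∧ t = ∑ S ∈ cuts V, g S} := by
    refine ⟨((cuts V).card : ℝ), ?_⟩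
    rintro _ ⟨g, ⟨h1, -⟩, rfl⟩
    calc ∑ S ∈ cuts V, g S ≤ ∑ S ∈ cuts V, (1 : ℝ) := Finset.sum_le_sum fun S _ => (h1 S).2
      _ = _ := by simp
  let e := Fintype.equivFin κ
  obtain ⟨w0, w, hw0, hw, hw2⟩ := H575R2.farkas_affine (Fintype.card κ) (fun i => ℓ (e.symm i))
    (fun i => b (e.symm i)) f (fc G) 0 (by
      intro i
      rw [map_zero]
      cases h : e.symm i with
      | inl p => exact zero_le_one
      | inr q => cases q with
        | inl T => exact le_rfl
        | inr T => exact zero_le_one) (by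
      intro g hg
      rw [hf]
      apply le_csSup hbdd
      refine ⟨g, ⟨?_, ?_⟩, rfl⟩
      · intro S
        have h1 := hg (e (Sum.inr (Sum.inl S)))
        have h2 := hg (e (Sum.inr (Sum.inr S)))
        simp only [Equiv.symm_apply_apply] at h1 h2
        rw [hℓ2] at h1
        rw [hℓ3] at h2
        change _ ≤ (0 : ℝ) at h1
        change _ ≤ (1 : ℝ) at h2
        exact ⟨by linarith, h2⟩
      · intro u v huv
        have h1 := hg (e (Sum.inl ⟨(u, v), huv⟩))
        simp only [Equiv.symm_apply_apply] at h1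
        rw [hℓ1] at h1
        change _ ≤ (1 : ℝ) at h1
        convert h1 using 2
        ext S
        rw [mem_filter, mem_filter]
        exact Iff.rfl)
  let W : κ → ℝ := fun i => w (e i)
  have hW : ∀ i, 0 ≤ W i := fun i => hw _
  have hW2 : ∀ g, fc G - f g = w0 + (∑ p, W (Sum.inl p) * (1 - ℓ (Sum.inl p) g) +
      (∑ T, W (Sum.inr (Sum.inl T)) * (0 - ℓ (Sum.inr (Sum.inl T)) g) +
        ∑ T, W (Sum.inr (Sum.inr T)) * (1 - ℓ (Sum.inr (Sum.inr T)) g))) := by
    intro g
    rw [hw2 g]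
    congr 1
    rw [← Equiv.sum_comp e]
    simp only [Equiv.symm_apply_apply]
    rw [Fintype.sum_sum_type, Fintype.sum_sum_type]
  simp only [hℓ1, hℓ2, hℓ3, hf] at hW2
  -- value at zero
  have h0 := hW2 0
  simp only [Pi.zero_apply, Finset.sum_const_zero, sub_zero, mul_one, neg_zero, mul_zero,
    zero_add] at h0
  -- dual constraints
  have hdual : ∀ S ∈ cuts V, 1 ≤ ∑ p ∈ univ.filter (fun p => dcross S p), W (Sum.inl p) +
      W (Sum.inr (Sum.inr S)) := by
    intro S hS
    have h1 := hW2 (Pi.single S 1)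
    have a1 : ∑ T ∈ cuts V, (Pi.single S 1 : Finset V → ℝ) T = 1 := by
      rw [Finset.sum_eq_single S]
      · exact Pi.single_eq_same _ _
      · intro T _ hT; exact Pi.single_eq_of_ne hT _
      · intro h; exact absurd hS h
    have a2 : ∀ p : Dir G, ∑ T ∈ (cuts V).filter (fun T => dcross T p),
        (Pi.single S 1 : Finset V → ℝ) T = if dcross S p then 1 else 0 := by
      intro p
      by_cases h : dcross S p
      · rw [if_pos h, Finset.sum_eq_single S]
        · exact Pi.single_eq_same _ _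
        · intro T _ hT; exact Pi.single_eq_of_ne hT _
        · intro h'; exact absurd (mem_filter.mpr ⟨hS, h⟩) h'
      · rw [if_neg h]
        apply Finset.sum_eq_zero
        intro T hT
        apply Pi.single_eq_of_ne
        rintro rfl
        exact h (mem_filter.mp hT).2
    have a3 : ∑ T, W (Sum.inr (Sum.inl T)) * (0 - -(Pi.single S 1 : Finset V → ℝ) T) =
        W (Sum.inr (Sum.inl S)) := by
      rw [Finset.sum_eq_single S]
      · rw [Pi.single_eq_same]; ring
      · intro T _ hT; rw [Pi.single_eq_of_ne hT]; ring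
      · intro h'; exact absurd (mem_univ _) h'
    have a4 : ∑ T, W (Sum.inr (Sum.inr T)) * (1 - (Pi.single S 1 : Finset V → ℝ) T) =
        ∑ T, W (Sum.inr (Sum.inr T)) - W (Sum.inr (Sum.inr S)) := by
      rw [eq_sub_iff_add_eq, ← Finset.sum_erase_add univ _ (mem_univ S), Pi.single_eq_same,
        sub_self, mul_zero, add_zero, ← Finset.sum_erase_add univ
          (fun T => W (Sum.inr (Sum.inr T))) (mem_univ S)]
      congr 1
      refine Finset.sum_congr rfl fun T hT => ?_
      rw [Pi.single_eq_of_ne (mem_erase.mp hT).1]; ring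
    have a5 : ∑ p, W (Sum.inl p) * (1 - if dcross S p then (1 : ℝ) else 0) =
        ∑ p, W (Sum.inl p) - ∑ p ∈ univ.filter (fun p => dcross S p), W (Sum.inl p) := by
      rw [Finset.sum_filter, ← Finset.sum_sub_distrib]
      refine Finset.sum_congr rfl fun p _ => ?_
      split_ifs <;> ring
    simp only [a1, a2] at h1
    rw [a3, a4, a5] at h1
    have := hW (Sum.inr (Sum.inl S))
    linarith
  -- a crossing edge for every cut
  have hcr : ∀ S : Finset V, ∃ p : Dir G, S ∈ cuts V → dcross S p := by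
    intro S
    by_cases hS : S ∈ cuts V
    · have hS' := hS
      unfold cuts at hS'
      rw [mem_filter] at hS'
      obtain ⟨-, ⟨u, hu⟩, hne⟩ := hS'
      obtain ⟨x, hx⟩ : ∃ x, x ∉ S := by
        by_contra hc
        push Not at hc
        exact hne (Finset.eq_univ_iff_forall.mpr hc)
      obtain ⟨q⟩ := hG.preconnected u x
      obtain ⟨d, hd, h1, h2⟩ := q.exists_boundary_dart (S : Set V) hu hx
      refine ⟨⟨(d.fst, d.snd), d.adj⟩, fun _ => ?_⟩
      intro h
      exact h2 (h.1 h1)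
    · obtain ⟨p⟩ := hE
      exact ⟨p, fun h => absurd h hS⟩
  choose c hc using hcr
  refine ⟨fun p => W (Sum.inl p) + ∑ S ∈ (cuts V).filter (fun S => c S = p), W (Sum.inr (Sum.inr S)),
    fun p => add_nonneg (hW _) (Finset.sum_nonneg fun _ _ => hW _), ?_, ?_⟩
  · rw [Finset.sum_add_distrib]
    have h1 : ∑ p, ∑ S ∈ (cuts V).filter (fun S => c S = p), W (Sum.inr (Sum.inr S)) =
        ∑ S ∈ cuts V, W (Sum.inr (Sum.inr S)) :=
      Finset.sum_fiberwise_of_maps_to (fun _ _ => mem_univ _) _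
    have h2 : ∑ S ∈ cuts V, W (Sum.inr (Sum.inr S)) ≤ ∑ S, W (Sum.inr (Sum.inr S)) :=
      Finset.sum_le_sum_of_subset_of_nonneg (subset_univ _) fun _ _ _ => hW _
    rw [h1]
    linarith
  · intro S hS
    have h1 := hdual S hS
    have h2 : W (Sum.inr (Sum.inr S)) ≤ ∑ p ∈ univ.filter (fun p => dcross S p),
        ∑ T ∈ (cuts V).filter (fun T => c T = p), W (Sum.inr (Sum.inr T)) := by
      calc W (Sum.inr (Sum.inr S)) ≤
          ∑ T ∈ (cuts V).filter (fun T => c T = c S), W (Sum.inr (Sum.inr T)) :=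
            Finset.single_le_sum (f := fun T => W (Sum.inr (Sum.inr T))) (fun _ _ => hW _)
              (mem_filter.mpr ⟨hS, rfl⟩)
        _ ≤ _ := Finset.single_le_sum
              (f := fun p => ∑ T ∈ (cuts V).filter (fun T => c T = p), W (Sum.inr (Sum.inr T)))
              (fun _ _ => Finset.sum_nonneg fun _ _ => hW _)
              (mem_filter.mpr ⟨mem_univ _, hc S hS⟩)
    rw [Finset.sum_add_distrib]
    linarith

/-! ### Upper bound -/

/-- elementary choice of the parameters -/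
lemma params {N q k C K1 K2 : ℕ} (hq : 0 < q) (f : ℕ → ℕ)
    (hf : ∀ D m L n : ℕ, 2 * K1 * m + 1 ≤ 2 ^ L →
      2 ^ n * (2 * D * K2 * m ^ 2 + 1) ^ k ≤ m ^ (q * D) → f n ≤ N * D * L + C)
    (ε : ℝ) (hε : 0 < ε) : ∃ n : ℕ, 0 < n ∧ (f n : ℝ) / n ≤ (N : ℝ) / q + ε := by
  obtain ⟨c1, hc1⟩ : ∃ c1 : ℕ, 2 * K1 + 1 ≤ 2 ^ c1 := ⟨_, (Nat.lt_two_pow_self).le⟩
  obtain ⟨c2, hc2⟩ : ∃ c2 : ℕ, 2 * K2 + 1 ≤ 2 ^ c2 := ⟨_, (Nat.lt_two_pow_self).le⟩
  have hq' : (0 : ℝ) < q := by exact_mod_cast hq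
  set Θ : ℝ := (N * c1 + C + (N / q + ε) * k * (3 + c2)) / (ε * q) with hΘ
  obtain ⟨a, ha⟩ := exists_nat_ge Θ
  set a' : ℕ := max a ((3 + c2) * k + 1) with ha'
  have ha1 : Θ ≤ a' := ha.trans (by exact_mod_cast le_max_left _ _)
  have ha2 : (3 + c2) * k + 1 ≤ a' := le_max_right _ _
  set D : ℕ := 2 ^ a' with hD
  have haD : a' ≤ D := (Nat.lt_two_pow_self).le
  have hD1 : 1 ≤ D := Nat.one_le_two_pow
  have ha3 : 1 ≤ a' := by omega
  have hk : (3 * a' + c2) * k < a' * q * D := by
    calc (3 * a' + c2) * k ≤ (3 * D + c2 * D) * k := by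
          gcongr
          exact Nat.le_mul_of_pos_right _ hD1
      _ = D * ((3 + c2) * k) := by ring
      _ < D * a' := by
          apply Nat.mul_lt_mul_of_pos_left _ hD1
          omega
      _ ≤ a' * q * D := by
          calc D * a' = a' * 1 * D := by ring
            _ ≤ a' * q * D := by gcongr; omega
  set n : ℕ := a' * q * D - (3 * a' + c2) * k with hn
  have hn0 : 0 < n := by omega
  have hn1 : n + (3 * a' + c2) * k = a' * q * D := by omega
  have hfn := hf D (2 ^ a') (a' + c1) n (by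
    calc 2 * K1 * 2 ^ a' + 1 ≤ (2 * K1 + 1) * 2 ^ a' := by
          have : 1 ≤ 2 ^ a' := Nat.one_le_two_pow
          nlinarith
      _ ≤ 2 ^ c1 * 2 ^ a' := by gcongr
      _ = 2 ^ (a' + c1) := by rw [← pow_add, add_comm]) (by
    have h1 : 2 * D * K2 * (2 ^ a') ^ 2 + 1 ≤ 2 ^ (3 * a' + c2) := by
      calc 2 * D * K2 * (2 ^ a') ^ 2 + 1 ≤ (2 * K2 + 1) * (2 ^ a') ^ 3 := by
            rw [← hD]
            have : 1 ≤ D ^ 3 := Nat.one_le_pow _ _ hD1
            nlinarith
        _ ≤ 2 ^ c2 * (2 ^ a') ^ 3 := by gcongr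
        _ = 2 ^ (3 * a' + c2) := by rw [← pow_mul, ← pow_add]; congr 1; ring
    calc 2 ^ n * (2 * D * K2 * (2 ^ a') ^ 2 + 1) ^ k
        ≤ 2 ^ n * (2 ^ (3 * a' + c2)) ^ k := by gcongr
      _ = 2 ^ (a' * q * D) := by rw [← pow_mul, ← pow_add, hn1]
      _ = (2 ^ a') ^ (q * D) := by rw [← pow_mul]; congr 1; ring)
  refine ⟨n, hn0, ?_⟩
  have hn0' : (0 : ℝ) < n := by exact_mod_cast hn0
  rw [div_le_iff₀ hn0']
  have hfn' : (f n : ℝ) ≤ N * D * (a' + c1) + C := by exact_mod_cast hfn
  have hn1' : (n : ℝ) = a' * q * D - (3 * a' + c2) * k := by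
    have : ((n + (3 * a' + c2) * k : ℕ) : ℝ) = ((a' * q * D : ℕ) : ℝ) := by rw [hn1]
    push_cast at this
    linarith
  rw [hn1']
  have hD1' : (1 : ℝ) ≤ D := by exact_mod_cast hD1
  have haD' : (a' : ℝ) ≤ D := by exact_mod_cast haD
  have hΘ' : N * c1 + C + (N / q + ε) * k * (3 + c2) ≤ ε * q * (a' : ℝ) := by
    rw [hΘ, div_le_iff₀ (by positivity)] at ha1
    linarith
  have hNq : (N : ℝ) / q * (a' * q * D) = N * a' * D := by field_simp
  have hpos : (0 : ℝ) ≤ (N / q + ε) * k := by positivity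
  have h3 : (3 * (a' : ℝ) + c2) ≤ (3 + c2) * D := by
    have : (0 : ℝ) ≤ c2 := Nat.cast_nonneg _
    nlinarith
  have h4 : (N / q + ε) * k * (3 * (a' : ℝ) + c2) ≤ (N / q + ε) * k * ((3 + c2) * D) :=
    mul_le_mul_of_nonneg_left h3 hpos
  have h5 : (C : ℝ) ≤ C * D := by
    have : (0 : ℝ) ≤ C := Nat.cast_nonneg _
    nlinarith
  have h6 : (N * c1 + C + (N / q + ε) * k * (3 + c2)) * (D : ℝ) ≤ ε * q * (a' : ℝ) * D :=
    mul_le_mul_of_nonneg_right hΘ' (by linarith)
  calc (f n : ℝ) ≤ N * D * (a' + c1) + C := hfn'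
    _ ≤ (N : ℝ) / q * (a' * q * D) + ε * (a' * q * D) - (N / q + ε) * k * (3 * (a' : ℝ) + c2) := by
        rw [hNq]
        nlinarith
    _ = (N / q + ε) * (a' * q * D - (3 * a' + c2) * k) := by ring

open Classical in
/-- feasible dual weights bound the cost -/
theorem upper [Nontrivial V] (hG : G.Connected) (w : Dir G → ℝ) (hw : ∀ p, 0 ≤ w p)
    (hcut : ∀ S ∈ cuts V, 1 ≤ ∑ p ∈ univ.filter (fun p => dcross S p), w p) (ε : ℝ) (hε : 0 < ε) :
    ∃ n : ℕ, 0 < n ∧ (cc G n : ℝ) / n ≤ ∑ p, w p + ε := by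
  obtain ⟨q, hq⟩ := exists_nat_gt (Fintype.card (Dir G) / (ε / 2) : ℝ)
  have hq0 : (0 : ℝ) < q := lt_of_le_of_lt (by positivity) hq
  have hq0' : 0 < q := by exact_mod_cast hq0
  let a : Dir G → ℕ := fun p => ⌈q * w p⌉₊
  let τ := Σ p : Dir G, Fin (a p)
  let src : τ → V := fun e => e.1.1.1
  let dst : τ → V := fun e => e.1.1.2
  have hadj : ∀ e : τ, G.Adj (src e) (dst e) := fun e => e.1.2
  have hcutq : ∀ U : Finset V, U.Nonempty → U ≠ univ →
      q ≤ (univ.filter fun e : τ => ¬ (src e ∈ U ↔ dst e ∈ U)).card := by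
    intro U h1 h2
    have hU : U ∈ cuts V := by
      unfold cuts
      rw [mem_filter]
      exact ⟨mem_univ _, h1, h2⟩
    have hcard : (univ.filter fun e : τ => ¬ (src e ∈ U ↔ dst e ∈ U)).card =
        ∑ p ∈ univ.filter (fun p => dcross U p), a p := by
      have : (univ.filter fun e : τ => ¬ (src e ∈ U ↔ dst e ∈ U)) =
          (univ.filter (fun p => dcross U p)).sigma fun p => (univ : Finset (Fin (a p))) := by
        ext ⟨p, i⟩
        rw [mem_filter, mem_sigma, mem_filter]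
        exact ⟨fun h => ⟨⟨mem_univ _, h.2⟩, mem_univ _⟩, fun h => ⟨mem_univ _, h.1.2⟩⟩
      rw [this, card_sigma]
      simp
    rw [hcard]
    have h3 : (q : ℝ) ≤ ((∑ p ∈ univ.filter (fun p => dcross U p), a p : ℕ) : ℝ) := by
      push_cast
      calc (q : ℝ) = q * 1 := by ring
        _ ≤ q * ∑ p ∈ univ.filter (fun p => dcross U p), w p := by
            gcongr
            exact hcut U hU
        _ = ∑ p ∈ univ.filter (fun p => dcross U p), q * w p := by rw [Finset.mul_sum]
        _ ≤ _ := Finset.sum_le_sum fun p _ => Nat.le_ceil _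
    exact_mod_cast h3
  obtain ⟨v0, v1, hv⟩ := exists_pair_ne V
  obtain ⟨κ, iκ, hκ, ⟨Sc⟩⟩ := exists_scheme src dst hcutq v0 v1 hv
  obtain ⟨K1, K2, C, hB⟩ := block hG hadj Sc
  obtain ⟨n, hn, hle⟩ := params (N := Fintype.card τ) (q := q) (k := Fintype.card V) (C := C)
    (K1 := K1) (K2 := K2) hq0' (cc G) (by rw [← hκ]; exact hB) (ε / 2) (by linarith)
  refine ⟨n, hn, hle.trans ?_⟩
  have hN : (Fintype.card τ : ℝ) ≤ q * ∑ p, w p + Fintype.card (Dir G) := by
    have : Fintype.card τ = ∑ p, a p := by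
      simp [τ]
    rw [this]
    push_cast
    calc ∑ p, (a p : ℝ) ≤ ∑ p, (q * w p + 1) := by
          apply Finset.sum_le_sum
          intro p _
          exact (Nat.ceil_lt_add_one (mul_nonneg hq0.le (hw p))).le
      _ = _ := by
          rw [Finset.sum_add_distrib, ← Finset.mul_sum]
          simp
  have h1 : (Fintype.card τ : ℝ) / q ≤ ∑ p, w p + ε / 2 := by
    rw [div_le_iff₀ hq0]
    have h2 : (Fintype.card (Dir G) : ℝ) ≤ ε / 2 * q := by
      rw [div_lt_iff₀ (by linarith)] at hq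
      linarith
    nlinarith
  linarith

/-- **Theorem.** `f(n, G) / n → fc(G)` for every connected graph on at least two vertices. -/
theorem tendsto_fc [Nontrivial V] (hG : G.Connected) :
    Tendsto (fun n : ℕ => (cc G n : ℝ) / n) atTop (nhds (fc G)) := by
  classical
  have hsub : Subadditive fun n : ℕ => (cc G n : ℝ) := by
    intro m n
    have h := cc_subadd hG m n
    change (cc G (m + n) : ℝ) ≤ cc G m + cc G n
    exact_mod_cast h
  have hbdd : BddBelow (Set.range fun n : ℕ => (cc G n : ℝ) / n) :=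
    ⟨0, by rintro _ ⟨n, rfl⟩; positivity⟩
  have hlim := hsub.tendsto_lim hbdd
  have hE : Nonempty (Dir G) := by
    obtain ⟨u, v, huv⟩ := exists_pair_ne V
    obtain ⟨p⟩ := hG.preconnected u v
    cases p with
    | nil => exact absurd rfl huv
    | cons h _ => exact ⟨⟨(_, _), h⟩⟩
  have h1 : fc G ≤ hsub.lim := by
    apply ge_of_tendsto hlim
    filter_upwards [eventually_gt_atTop 0] with n hn
    have hn' : (0 : ℝ) < n := by exact_mod_cast hn
    rw [le_div_iff₀ hn']
    exact fc_le hG n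
  have h2 : hsub.lim ≤ fc G := by
    obtain ⟨w, hw, hws, hwc⟩ := duality hG hE
    apply le_of_forall_pos_le_add
    intro ε hε
    obtain ⟨n, hn, hle⟩ := upper hG w hw hwc ε hε
    calc hsub.lim ≤ (cc G n : ℝ) / n := hsub.lim_le_div hbdd hn.ne'
      _ ≤ _ := hle
      _ ≤ fc G + ε := by linarith
  rwa [le_antisymm h2 h1] at hlim

end Q225.EqG
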