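import Pool.Agent.Q225.EqDynDefs
import Pool.Agent.Q225.EqMain

/-! Adaptive protocols: determinism, lower bound, simulation of fixed schedules. -/

namespace Q225.EqG

open Finset

variable {V : Type} [DecidableEq V] {G : SimpleGraph V} {n : ℕ}

lemma sentTo_append (w : V) (h h' : List (Ev V)) : sentTo w (h ++ h') = sentTo w h ++ sentTo w h' := by
  induction h with
  | nil => rfl
  | cons e h ih =>
    cases e with
    | sent u b =>
      simp only [List.cons_append, sentTo, ih]
      split_ifs <;> rfl
    | got u b => simpa only [List.cons_append, sentTo] using ih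

lemma gotFrom_append (w : V) (h h' : List (Ev V)) :
    gotFrom w (h ++ h') = gotFrom w h ++ gotFrom w h' := by
  induction h with
  | nil => rfl
  | cons e h ih =>
    cases e with
    | got u b =>
      simp only [List.cons_append, gotFrom, ih]
      split_ifs <;> rfl
    | sent u b => simpa only [List.cons_append, gotFrom] using ih

lemma sentTo_prefix (w : V) {h h' : List (Ev V)} (hp : h <+: h') : sentTo w h <+: sentTo w h' := by
  obtain ⟨t, rfl⟩ := hp
  exact ⟨sentTo w t, (sentTo_append w h t).symm⟩

lemma gotFrom_prefix (w : V) {h h' : List (Ev V)} (hp : h <+: h') : gotFrom w h <+: gotFrom w h' := by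
  obtain ⟨t, rfl⟩ := hp
  exact ⟨gotFrom w t, (gotFrom_append w h t).symm⟩

/-- the event is consistent with the action -/
def Cons (a : Act V) (e : Ev V) : Prop :=
  (∃ w b, a = Act.send w b ∧ e = Ev.sent w b) ∨ (∃ w b, a = Act.recv w ∧ e = Ev.got w b)

variable {P : Adaptive G n}

lemma reach_cons {x : V → Fin n → Bool} {H : V → List (Ev V)} (hH : P.Reach x H) :
    ∀ v h e, h ++ [e] <+: H v → Cons (P.act v (x v) h) e := by
  induction hH with
  | refl =>
    intro v h e hp
    have := hp.length_le
    simp at this
  | tail _ step ih =>
    intro v h e hp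
    cases step with
    | send v0 w b ha =>
      by_cases hv : v = v0
      · subst hv
        rw [Function.update_self, List.prefix_concat_iff] at hp
        rcases hp with hp | hp
        · have := List.append_inj' hp rfl
          obtain ⟨rfl, h2⟩ := this
          simp only [List.cons.injEq, and_true] at h2
          exact Or.inl ⟨w, b, ha, h2⟩
        · exact ih v h e hp
      · rw [Function.update_of_ne hv] at hp
        exact ih v h e hp
    | recv v0 w b ha hb =>
      by_cases hv : v = v0
      · subst hv
        rw [Function.update_self, List.prefix_concat_iff] at hp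
        rcases hp with hp | hp
        · have := List.append_inj' hp rfl
          obtain ⟨rfl, h2⟩ := this
          simp only [List.cons.injEq, and_true] at h2
          exact Or.inr ⟨w, b, ha, h2⟩
        · exact ih v h e hp
      · rw [Function.update_of_ne hv] at hp
        exact ih v h e hp

lemma append_one_prefix {α : Type} {l m : List α} (h : l <+: m) {b : α}
    (hb : m[l.length]? = some b) : l ++ [b] <+: m := by
  obtain ⟨t, rfl⟩ := h
  rw [List.getElem?_append_right le_rfl, Nat.sub_self] at hb
  cases t with
  | nil => simp at hb
  | cons c t =>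
    simp only [List.getElem?_cons_zero, Option.some.injEq] at hb
    subst hb
    exact ⟨t, by simp⟩

lemma reach_fifo {x : V → Fin n → Bool} {H : V → List (Ev V)} (hH : P.Reach x H) :
    ∀ v w, gotFrom w (H v) <+: sentTo v (H w) := by
  induction hH with
  | refl => intro v w; exact List.prefix_rfl
  | tail _ step ih =>
    rename_i H1 H2 _
    intro v w
    cases step with
    | send v0 w0 b ha =>
      have h1 : gotFrom w (Function.update H1 v0 (H1 v0 ++ [Ev.sent w0 b]) v) = gotFrom w (H1 v) := by
        by_cases hv : v = v0
        · subst hv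
          rw [Function.update_self, gotFrom_append]
          simp [gotFrom]
        · rw [Function.update_of_ne hv]
      have h2 : sentTo v (H1 w) <+: sentTo v (Function.update H1 v0 (H1 v0 ++ [Ev.sent w0 b]) w) := by
        by_cases hw : w = v0
        · subst hw
          rw [Function.update_self]
          exact sentTo_prefix v ⟨_, rfl⟩
        · rw [Function.update_of_ne hw]
      rw [h1]
      exact (ih v w).trans h2
    | recv v0 w0 b ha hb =>
      have h2 : sentTo v (Function.update H1 v0 (H1 v0 ++ [Ev.got w0 b]) w) = sentTo v (H1 w) := by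
        by_cases hw : w = v0
        · subst hw
          rw [Function.update_self, sentTo_append]
          simp [sentTo]
        · rw [Function.update_of_ne hw]
      rw [h2]
      by_cases hv : v = v0
      · subst hv
        rw [Function.update_self, gotFrom_append]
        by_cases hw : w0 = w
        · subst hw
          simp only [gotFrom, if_true]
          exact append_one_prefix (ih v w0) hb
        · simp only [gotFrom, if_neg hw, List.append_nil]
          exact ih v w
      · rw [Function.update_of_ne hv]
        exact ih v w

/-- reachable histories are prefixes of any consistent complete family of histories -/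
lemma reach_prefix {z : V → Fin n → Bool} {T : V → List (Ev V)}
    (h1 : ∀ v h e, h ++ [e] <+: T v → Cons (P.act v (z v) h) e)
    (h2 : ∀ v w, gotFrom w (T v) <+: sentTo v (T w))
    (h3 : ∀ v, ∃ b, P.act v (z v) (T v) = Act.halt b)
    {H : V → List (Ev V)} (hH : P.Reach z H) : ∀ v, H v <+: T v := by
  induction hH with
  | refl => intro v; exact List.nil_prefix
  | tail _ step ih =>
    rename_i H1 H2 _
    intro v
    -- a non-halting prefix can be extended
    have hext : ∀ v0, (∀ b, P.act v0 (z v0) (H1 v0) ≠ Act.halt b) →
        ∃ e, H1 v0 ++ [e] <+: T v0 := by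
      intro v0 hv0
      obtain ⟨t, ht⟩ := ih v0
      cases t with
      | nil =>
        rw [List.append_nil] at ht
        obtain ⟨b, hb⟩ := h3 v0
        rw [← ht] at hb
        exact absurd hb (hv0 b)
      | cons e t => exact ⟨e, t, by rw [← ht]; simp⟩
    cases step with
    | send v0 w b ha =>
      by_cases hv : v = v0
      · subst hv
        rw [Function.update_self]
        obtain ⟨e, he⟩ := hext v (fun b' hb' => by rw [ha] at hb'; cases hb')
        rcases h1 v _ e he with ⟨w', b', h4, h5⟩ | ⟨w', b', h4, h5⟩
        · rw [ha] at h4
          simp only [Act.send.injEq] at h4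
          rw [h4.1, h4.2, ← h5]
          exact he
        · rw [ha] at h4; cases h4
      · rw [Function.update_of_ne hv]; exact ih v
    | recv v0 w b ha hb =>
      by_cases hv : v = v0
      · subst hv
        rw [Function.update_self]
        obtain ⟨e, he⟩ := hext v (fun b' hb' => by rw [ha] at hb'; cases hb')
        rcases h1 v _ e he with ⟨w', b', h4, h5⟩ | ⟨w', b', h4, h5⟩
        · rw [ha] at h4; cases h4
        · rw [ha] at h4
          simp only [Act.recv.injEq] at h4
          subst h4; subst h5
          -- the received bit agrees
          have a1 : gotFrom w (H1 v) ++ [b'] <+: sentTo v (T w) := by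
            have := gotFrom_prefix w he
            rw [gotFrom_append] at this
            simp only [gotFrom, if_true] at this
            exact this.trans (h2 v w)
          have a2 : (sentTo v (T w))[(gotFrom w (H1 v)).length]? = some b' := by
            obtain ⟨t, ht⟩ := a1
            rw [← ht]
            simp
          have a3 : (sentTo v (T w))[(gotFrom w (H1 v)).length]? = some b := by
            obtain ⟨t, ht⟩ := sentTo_prefix v (ih w)
            rw [← ht]
            have hlt : (gotFrom w (H1 v)).length < (sentTo v (H1 w)).length := by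
              by_contra hc
              rw [List.getElem?_eq_none (by omega)] at hb
              cases hb
            rw [List.getElem?_append_left hlt]
            exact hb
          rw [a2] at a3
          simp only [Option.some.injEq] at a3
          rw [← a3]
          exact he
      · rw [Function.update_of_ne hv]; exact ih v

/-- reachable complete histories coincide with any consistent complete family -/
lemma reach_eq {z : V → Fin n → Bool} {T : V → List (Ev V)}
    (h1 : ∀ v h e, h ++ [e] <+: T v → Cons (P.act v (z v) h) e)
    (h2 : ∀ v w, gotFrom w (T v) <+: sentTo v (T w))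
    (h3 : ∀ v, ∃ b, P.act v (z v) (T v) = Act.halt b)
    {H : V → List (Ev V)} (hH : P.Reach z H) (hc : ∀ v, ∃ b, P.act v (z v) (H v) = Act.halt b) :
    H = T := by
  funext v
  obtain ⟨t, ht⟩ := reach_prefix h1 h2 h3 hH v
  cases t with
  | nil => rw [← ht, List.append_nil]
  | cons e t =>
    exfalso
    have he : H v ++ [e] <+: T v := ⟨t, by rw [← ht]; simp⟩
    obtain ⟨b, hb⟩ := hc v
    rcases h1 v _ e he with ⟨w', b', h4, -⟩ | ⟨w', b', h4, -⟩
    · rw [hb] at h4; cases h4
    · rw [hb] at h4; cases h4

/-- **Determinism.** The final histories do not depend on the execution. -/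
theorem Adaptive.unique (P : Adaptive G n) (x : V → Fin n → Bool) {H H' : V → List (Ev V)}
    (hH : P.Reach x H) (hH' : P.Reach x H') (hc : ∀ v, ∃ b, P.act v (x v) (H v) = Act.halt b)
    (hc' : ∀ v, ∃ b, P.act v (x v) (H' v) = Act.halt b) : H = H' :=
  reach_eq (reach_cons hH') (reach_fifo hH') hc' hH hc

/-! ### Lower bound -/

/-- number of bits over the cut -/
def cutBits [Fintype V] (S : Finset V) (H : V → List (Ev V)) : ℕ :=
  ∑ p ∈ (univ : Finset (V × V)).filter (fun p => ¬ (p.1 ∈ S ↔ p.2 ∈ S)), (sentTo p.2 (H p.1)).length

lemma mix_eq [Fintype V] {c : ℕ} (hP : P.Solves c) (S : Finset V) (hS : S ∈ cuts V)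
    (a b : Fin n → Bool) (Ha Hb : V → List (Ev V))
    (hRa : P.Reach (fun _ => a) Ha) (hRb : P.Reach (fun _ => b) Hb)
    (hca : ∀ v, P.act v a (Ha v) = Act.halt true) (hcb : ∀ v, P.act v b (Hb v) = Act.halt true)
    (hprof : ∀ u w, ¬ (u ∈ S ↔ w ∈ S) → sentTo w (Ha u) = sentTo w (Hb u)) : a = b := by
  unfold cuts at hS
  rw [mem_filter] at hS
  obtain ⟨-, ⟨u, hu⟩, hne⟩ := hS
  obtain ⟨w, hw⟩ : ∃ w, w ∉ S := by
    by_contra hc
    push Not at hc
    exact hne (Finset.eq_univ_iff_forall.mpr hc)
  let z : V → Fin n → Bool := fun v => if v ∈ S then a else b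
  let T : V → List (Ev V) := fun v => if v ∈ S then Ha v else Hb v
  obtain ⟨H, hR, hH, -⟩ := hP z
  have h1 : ∀ v h e, h ++ [e] <+: T v → Cons (P.act v (z v) h) e := by
    intro v h e hp
    by_cases hv : v ∈ S
    · simp only [T, z, if_pos hv] at hp ⊢
      exact reach_cons hRa v h e hp
    · simp only [T, z, if_neg hv] at hp ⊢
      exact reach_cons hRb v h e hp
  have h2 : ∀ v w, gotFrom w (T v) <+: sentTo v (T w) := by
    intro v w
    by_cases hv : v ∈ S <;> by_cases hw : w ∈ S
    · simp only [T, if_pos hv, if_pos hw]; exact reach_fifo hRa v w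
    · simp only [T, if_pos hv, if_neg hw]
      rw [← hprof w v (fun h => hw (h.2 hv))]
      exact reach_fifo hRa v w
    · simp only [T, if_neg hv, if_pos hw]
      rw [hprof w v (fun h => hv (h.1 hw))]
      exact reach_fifo hRb v w
    · simp only [T, if_neg hv, if_neg hw]; exact reach_fifo hRb v w
  have h3 : ∀ v, ∃ b, P.act v (z v) (T v) = Act.halt b := by
    intro v
    by_cases hv : v ∈ S
    · simp only [T, z, if_pos hv]; exact ⟨true, hca v⟩
    · simp only [T, z, if_neg hv]; exact ⟨true, hcb v⟩
  have hHT : H = T := reach_eq h1 h2 h3 hR (fun v => by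
    obtain ⟨b, hb, -⟩ := hH v
    exact ⟨b, hb⟩)
  obtain ⟨b', hb', hb2⟩ := hH u
  rw [hHT] at hb'
  simp only [T, z, if_pos hu] at hb'
  rw [hca u] at hb'
  simp only [Act.halt.injEq] at hb'
  have h5 := hb2.1 hb'.symm u w
  simp only [z, if_pos hu, if_neg hw] at h5
  exact h5

lemma card_small [Fintype V] {c : ℕ} (hP : P.Solves c) (S : Finset V) (hS : S ∈ cuts V)
    (H : (Fin n → Bool) → V → List (Ev V))
    (hR : ∀ a, P.Reach (fun _ => a) (H a)) (hc : ∀ a v, P.act v a (H a v) = Act.halt true)
    (s : ℕ) : (univ.filter fun a : Fin n → Bool => cutBits S (H a) ≤ s).card ≤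
      2 ^ s * (s + 1) ^ (Fintype.card V * Fintype.card V) := by
  classical
  let len : (Fin n → Bool) → V × V → ℕ := fun a p =>
    if ¬ (p.1 ∈ S ↔ p.2 ∈ S) then (sentTo p.2 (H a p.1)).length else 0
  have hlen : ∀ a, ∑ p, len a p = cutBits S (H a) := by
    intro a
    unfold cutBits
    rw [Finset.sum_filter]
  let f : (Fin n → Bool) → (V × V → Fin (s + 1)) := fun a p => Fin.ofNat (s + 1) (len a p)
  have hf : ∀ a, cutBits S (H a) ≤ s → ∀ p, ((f a p : Fin (s + 1)) : ℕ) = len a p := by
    intro a ha p
    simp only [f, Fin.ofNat]
    apply Nat.mod_eq_of_lt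
    have : len a p ≤ ∑ p, len a p := Finset.single_le_sum (f := len a) (fun _ _ => Nat.zero_le _)
      (mem_univ p)
    rw [hlen] at this
    omega
  have key := Finset.card_le_mul_card_image_of_maps_to
    (s := univ.filter fun a : Fin n → Bool => cutBits S (H a) ≤ s)
    (t := (univ : Finset (V × V → Fin (s + 1)))) (f := f) (fun _ _ => mem_univ _) (2 ^ s) (by
      intro ℓ _
      set A := (univ.filter fun a : Fin n → Bool => cutBits S (H a) ≤ s).filter fun a => f a = ℓ
      rcases A.eq_empty_or_nonempty with hA | ⟨a0, ha0⟩
      · rw [hA]; simp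
      · have hA' : ∀ a ∈ A, cutBits S (H a) ≤ s ∧ ∀ p, len a p = ℓ p := by
          intro a ha
          simp only [A, mem_filter, mem_univ, true_and] at ha
          refine ⟨ha.1, fun p => ?_⟩
          rw [← hf a ha.1 p, ha.2]
        have hsum : ∑ p, (ℓ p : ℕ) ≤ s := by
          obtain ⟨h1, h2⟩ := hA' a0 ha0
          rw [← hlen] at h1
          calc ∑ p, (ℓ p : ℕ) = ∑ p, len a0 p := Finset.sum_congr rfl fun p _ => (h2 p).symm
            _ ≤ s := h1
        have hinj : A.card ≤ Fintype.card ((p : V × V) → Fin (ℓ p) → Bool) := by
          rw [← Fintype.card_coe]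
          apply Fintype.card_le_of_injective
            (fun (a : {a // a ∈ A}) (p : V × V) (i : Fin (ℓ p)) =>
              (sentTo p.2 (H a.1 p.1)).getD i false)
          intro a b hab
          apply Subtype.ext
          apply mix_eq hP S hS a.1 b.1 (H a.1) (H b.1) (hR _) (hR _) (hc _) (hc _)
          intro u w huw
          have la := (hA' a.1 a.2).2 (u, w)
          have lb := (hA' b.1 b.2).2 (u, w)
          simp only [len, if_pos huw] at la lb
          apply List.ext_getElem
          · rw [la, lb]
          · intro i h1 h2
            have h3 := congrFun (congrFun hab (u, w)) ⟨i, by rw [← la]; exact h1⟩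
            simp only at h3
            rw [List.getD_eq_getElem _ _ h1, List.getD_eq_getElem _ _ h2] at h3
            exact h3
        refine hinj.trans ?_
        rw [Fintype.card_pi]
        simp only [Fintype.card_fun, Fintype.card_bool, Fintype.card_fin]
        rw [Finset.prod_pow_eq_pow_sum]
        exact Nat.pow_le_pow_right (by norm_num) hsum)
  refine key.trans ?_
  rw [card_univ, Fintype.card_fun, Fintype.card_fin, Fintype.card_prod]

lemma sentTo_count [Fintype V] (h : List (Ev V)) :
    ∑ w, (sentTo w h).length =
      (h.filter fun e => match e with | Ev.sent _ _ => true | Ev.got _ _ => false).length := by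
  induction h with
  | nil => simp [sentTo]
  | cons e h ih =>
    cases e with
    | got u b =>
      simp only [sentTo]
      rw [ih]; simp
    | sent u b =>
      have : ∀ w, (sentTo w (Ev.sent u b :: h)).length =
          (if u = w then 1 else 0) + (sentTo w h).length := by
        intro w
        simp only [sentTo]
        split_ifs
        · simp; omega
        · simp
      simp only [this]
      rw [Finset.sum_add_distrib, ih, Finset.sum_ite_eq]
      simp; omega

lemma sentTo_adj {x : V → Fin n → Bool} {H : V → List (Ev V)} (hH : P.Reach x H) (u w : V)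
    (h : ¬ G.Adj u w) : sentTo w (H u) = [] := by
  have key : ∀ k : List (Ev V), k <+: H u → sentTo w k = [] := by
    intro k
    induction k using List.reverseRecOn with
    | nil => intro _; rfl
    | append_singleton k e ih =>
      intro hp
      rw [sentTo_append, ih ((List.prefix_append k [e]).trans hp)]
      rcases reach_cons hH u k e hp with ⟨w', b, h1, rfl⟩ | ⟨w', b, h1, rfl⟩
      · have := P.adj _ _ _ _ _ h1
        have hne : w' ≠ w := by rintro rfl; exact h this
        simp [sentTo, hne]
      · simp [sentTo]
  exact key _ List.prefix_rfl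

/-- lower bound for adaptive protocols -/
theorem adaptive_lower [Fintype V] {c s : ℕ} (hP : P.Solves c)
    (hs : 2 ^ Fintype.card V * (2 ^ s * (s + 1) ^ (Fintype.card V * Fintype.card V)) < 2 ^ n) :
    fc G * (s + 1) ≤ c := by
  classical
  have h0 : ∀ a : Fin n → Bool, ∃ H, P.Reach (fun _ => a) H ∧
      (∀ v, P.act v a (H v) = Act.halt true) ∧ bitsSent H ≤ c := by
    intro a
    obtain ⟨H, hR, hH, hb⟩ := hP (fun _ => a)
    refine ⟨H, hR, fun v => ?_, hb⟩
    obtain ⟨b, h1, h2⟩ := hH v
    rw [h1, h2.2 (fun _ _ => rfl)]
  choose H hR hc hb using h0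
  obtain ⟨a, ha⟩ : ∃ a : Fin n → Bool, ∀ S ∈ cuts V, s + 1 ≤ cutBits S (H a) := by
    by_contra hcon
    push Not at hcon
    have hcov : (univ : Finset (Fin n → Bool)) ⊆
        (cuts V).biUnion fun S => univ.filter fun a => cutBits S (H a) ≤ s := by
      intro a _
      obtain ⟨S, hS, hlt⟩ := hcon a
      rw [mem_biUnion]
      exact ⟨S, hS, by rw [mem_filter]; exact ⟨mem_univ _, by omega⟩⟩
    have h1 := card_le_card hcov
    have h2 : ((cuts V).biUnion fun S => univ.filter fun a => cutBits S (H a) ≤ s).card ≤
        2 ^ Fintype.card V * (2 ^ s * (s + 1) ^ (Fintype.card V * Fintype.card V)) := by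
      calc _ ≤ ∑ S ∈ cuts V, (univ.filter fun a => cutBits S (H a) ≤ s).card := card_biUnion_le
        _ ≤ ∑ S ∈ cuts V, 2 ^ s * (s + 1) ^ (Fintype.card V * Fintype.card V) :=
          Finset.sum_le_sum fun S hS => card_small hP S hS H hR hc s
        _ = (cuts V).card * (2 ^ s * (s + 1) ^ (Fintype.card V * Fintype.card V)) := by
          rw [Finset.sum_const, smul_eq_mul]
        _ ≤ _ := by
          gcongr
          calc (cuts V).card ≤ (univ : Finset (Finset V)).card := card_filter_le _ _
            _ = _ := by rw [card_univ, Fintype.card_finset]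
    rw [card_univ, Fintype.card_fun, Fintype.card_bool, Fintype.card_fin] at h1
    omega
  have hs' : (0 : ℝ) < (s : ℝ) + 1 := by positivity
  rw [← le_div_iff₀ hs']
  unfold fc
  apply csSup_le
  · exact ⟨_, fun _ => 0, ⟨fun _ => ⟨le_rfl, zero_le_one⟩, fun _ _ _ => by simp⟩, rfl⟩
  · rintro _ ⟨g, ⟨hg1, hg2⟩, rfl⟩
    rw [le_div_iff₀ hs', Finset.sum_mul]
    have hbits : ((∑ p : V × V, (sentTo p.2 (H a p.1)).length : ℕ) : ℝ) ≤ c := by
      have : ∑ p : V × V, (sentTo p.2 (H a p.1)).length = bitsSent (H a) := by
        rw [Fintype.sum_prod_type]
        unfold bitsSent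
        exact Finset.sum_congr rfl fun v _ => sentTo_count (H a v)
      rw [this]
      exact_mod_cast hb a
    calc ∑ S ∈ cuts V, g S * ((s : ℝ) + 1) ≤ ∑ S ∈ cuts V, g S * (cutBits S (H a) : ℝ) := by
          apply Finset.sum_le_sum
          intro S hS
          apply mul_le_mul_of_nonneg_left _ (hg1 S).1
          exact_mod_cast ha S hS
      _ = ∑ S ∈ cuts V, ∑ p : V × V,
          if ¬ (p.1 ∈ S ↔ p.2 ∈ S) then g S * ((sentTo p.2 (H a p.1)).length : ℝ) else 0 := by
          refine Finset.sum_congr rfl fun S _ => ?_
          unfold cutBits
          push_cast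
          rw [Finset.mul_sum, Finset.sum_filter]
      _ = ∑ p : V × V, ∑ S ∈ cuts V,
          if ¬ (p.1 ∈ S ↔ p.2 ∈ S) then g S * ((sentTo p.2 (H a p.1)).length : ℝ) else 0 :=
          Finset.sum_comm
      _ ≤ ∑ p : V × V, ((sentTo p.2 (H a p.1)).length : ℝ) := by
          apply Finset.sum_le_sum
          intro p _
          by_cases hadj : G.Adj p.1 p.2
          · have := hg2 p.1 p.2 hadj
            rw [← Finset.sum_filter, ← Finset.sum_mul]
            have h0 : (0 : ℝ) ≤ ((sentTo p.2 (H a p.1)).length : ℝ) := Nat.cast_nonneg _
            nlinarith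
          · rw [sentTo_adj (hR a) _ _ hadj]
            simp
      _ ≤ c := by
          push_cast at hbits
          exact hbits

/-! ### Simulation of fixed schedules -/

/-- all received bits in order -/
def gots : List (Ev V) → List Bool
  | [] => []
  | Ev.sent _ _ :: h => gots h
  | Ev.got _ b :: h => b :: gots h

lemma gots_append (h h' : List (Ev V)) : gots (h ++ h') = gots h ++ gots h' := by
  induction h with
  | nil => rfl
  | cons e h ih => cases e <;> simp [gots, ih]

/-- steps in which `v` takes part -/
def rel (v : V) (l : List (Step G n)) : List (Step G n) := l.filter fun s => s.src = v ∨ s.dst = v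

def simAct (P : Protocol G n) (v : V) (x : Fin n → Bool) (h : List (Ev V)) : Act V :=
  match (rel v P.steps)[h.length]? with
  | some s => if s.src = v then Act.send s.dst (s.msg x (gots h)) else Act.recv s.src
  | none => Act.halt (P.out v x (gots h))

def sim (P : Protocol G n) : Adaptive G n where
  act := simAct P
  adj := by
    intro v x h w b hact
    unfold simAct at hact
    split at hact
    · rename_i s hs
      split_ifs at hact with h1
      · simp only [Act.send.injEq] at hact
        rw [← hact.1, ← h1]
        exact s.adj
    · cases hact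

lemma sim_state [Fintype V] (P : Protocol G n) (x : V → Fin n → Bool) :
    ∀ k ≤ P.steps.length, ∃ H, (sim P).Reach x H ∧
      (∀ v, (H v).length = (rel v (P.steps.take k)).length) ∧
      (∀ v, gots (H v) = play x (P.steps.take k) (fun _ => []) v) ∧
      (∀ v w, sentTo v (H w) = gotFrom w (H v)) ∧ bitsSent H = k := by
  intro k
  induction k with
  | zero =>
    intro _
    refine ⟨fun _ => [], Relation.ReflTransGen.refl, ?_, ?_, ?_, ?_⟩
    · intro v; simp [rel]
    · intro v; simp [play, gots]
    · intro v w; rfl
    · simp [bitsSent]
  | succ k ih =>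
    intro hk
    obtain ⟨H, hR, h1, h2, h3, h4⟩ := ih (by omega)
    have hklt : k < P.steps.length := by omega
    set s := P.steps[k] with hs
    have htake : P.steps.take (k + 1) = P.steps.take k ++ [s] := List.take_succ_eq_append_getElem hklt
    have hsplit : P.steps = P.steps.take k ++ s :: P.steps.drop (k + 1) := by
      rw [hs, List.getElem_cons_drop, List.take_append_drop]
    have hne : s.src ≠ s.dst := s.adj.ne
    have hidx : ∀ v, (s.src = v ∨ s.dst = v) → (rel v P.steps)[(H v).length]? = some s := by
      intro v hv
      have : rel v P.steps = rel v (P.steps.take k) ++ s :: rel v (P.steps.drop (k + 1)) := by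
        conv_lhs => rw [hsplit]
        unfold rel
        rw [List.filter_append, List.filter_cons_of_pos (by simpa using hv)]
      rw [this, h1 v, List.getElem?_append_right le_rfl, Nat.sub_self]
      rfl
    set b := s.msg (x s.src) (gots (H s.src)) with hb
    have hact1 : (sim P).act s.src (x s.src) (H s.src) = Act.send s.dst b := by
      change simAct P s.src (x s.src) (H s.src) = _
      unfold simAct
      rw [hidx s.src (Or.inl rfl)]
      simp only [if_true]
      rfl
    let H1 : V → List (Ev V) := Function.update H s.src (H s.src ++ [Ev.sent s.dst b])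
    have hR1 : (sim P).Reach x H1 := hR.tail (Adaptive.Step.send H _ _ _ hact1)
    have hH1d : H1 s.dst = H s.dst := Function.update_of_ne (Ne.symm hne) _ _
    have hH1s : H1 s.src = H s.src ++ [Ev.sent s.dst b] := Function.update_self _ _ _
    have hact2 : (sim P).act s.dst (x s.dst) (H1 s.dst) = Act.recv s.src := by
      change simAct P s.dst (x s.dst) (H1 s.dst) = _
      unfold simAct
      rw [hH1d, hidx s.dst (Or.inr rfl)]
      simp only [if_neg hne]
    have hbit : (sentTo s.dst (H1 s.src))[(gotFrom s.src (H1 s.dst)).length]? = some b := by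
      rw [hH1d, hH1s, sentTo_append, ← h3, List.getElem?_append_right le_rfl, Nat.sub_self]
      simp [sentTo]
    let H2 : V → List (Ev V) := Function.update H1 s.dst (H1 s.dst ++ [Ev.got s.src b])
    have hR2 : (sim P).Reach x H2 := hR1.tail (Adaptive.Step.recv H1 _ _ _ hact2 hbit)
    have hH2d : H2 s.dst = H s.dst ++ [Ev.got s.src b] := by
      change Function.update H1 s.dst (H1 s.dst ++ [Ev.got s.src b]) s.dst = _
      rw [Function.update_self, hH1d]
    have hH2s : H2 s.src = H s.src ++ [Ev.sent s.dst b] := by
      change Function.update H1 s.dst _ s.src = _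
      rw [Function.update_of_ne hne, hH1s]
    have hH2o : ∀ v, v ≠ s.src → v ≠ s.dst → H2 v = H v := by
      intro v hv1 hv2
      change Function.update H1 s.dst _ v = _
      rw [Function.update_of_ne hv2]
      exact Function.update_of_ne hv1 _ _
    refine ⟨H2, hR2, ?_, ?_, ?_, ?_⟩
    · intro v
      rw [htake]
      have hrel : rel v (P.steps.take k ++ [s]) = rel v (P.steps.take k) ++ rel v [s] :=
        List.filter_append _ _
      rw [hrel, List.length_append, ← h1 v]
      by_cases hv1 : v = s.src
      · subst hv1
        rw [hH2s, List.length_append]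
        simp [rel]
      · by_cases hv2 : v = s.dst
        · subst hv2
          rw [hH2d, List.length_append]
          simp [rel]
        · rw [hH2o v hv1 hv2]
          have : rel v [s] = [] := by
            unfold rel
            rw [List.filter_cons_of_neg (by simp [Ne.symm hv1, Ne.symm hv2])]
            rfl
          rw [this]; rfl
    · intro v
      rw [htake, play_append]
      have hp : play x (P.steps.take k) (fun _ => []) = fun v => gots (H v) := by
        funext v; exact (h2 v).symm
      rw [hp]
      change gots (H2 v) = Function.update (fun v => gots (H v)) s.dst (gots (H s.dst) ++ [b]) v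
      by_cases hv2 : v = s.dst
      · subst hv2
        rw [hH2d, gots_append, Function.update_self]
        rfl
      · rw [Function.update_of_ne hv2]
        by_cases hv1 : v = s.src
        · subst hv1
          rw [hH2s, gots_append]
          simp [gots]
        · rw [hH2o v hv1 hv2]
    · -- everything sent has been delivered
      have hS : ∀ v w, sentTo v (H2 w) = sentTo v (H w) ++
          (if w = s.src ∧ v = s.dst then [b] else []) := by
        intro v w
        by_cases hw1 : w = s.src
        · subst hw1
          rw [hH2s, sentTo_append]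
          by_cases hv : v = s.dst
          · subst hv; simp [sentTo]
          · simp [sentTo, hv, Ne.symm hv]
        · by_cases hw2 : w = s.dst
          · subst hw2
            rw [hH2d, sentTo_append]
            simp [sentTo, hw1]
          · rw [hH2o w hw1 hw2]
            simp [hw1]
      have hGt : ∀ v w, gotFrom w (H2 v) = gotFrom w (H v) ++
          (if w = s.src ∧ v = s.dst then [b] else []) := by
        intro v w
        by_cases hv2 : v = s.dst
        · subst hv2
          rw [hH2d, gotFrom_append]
          by_cases hw : w = s.src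
          · subst hw; simp [gotFrom]
          · simp [gotFrom, hw, Ne.symm hw]
        · by_cases hv1 : v = s.src
          · subst hv1
            rw [hH2s, gotFrom_append]
            simp [gotFrom, hv2]
          · rw [hH2o v hv1 hv2]
            simp [hv2]
      intro v w
      rw [hS, hGt, h3]
    · -- number of bits
      rw [← h4]
      have hB : ∀ K : V → List (Ev V), bitsSent K = ∑ w, ∑ v, (sentTo v (K w)).length := by
        intro K
        unfold bitsSent
        exact Finset.sum_congr rfl fun v _ => (sentTo_count (K v)).symm
      have hS : ∀ v w, (sentTo v (H2 w)).length = (sentTo v (H w)).length +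
          (if w = s.src then (if v = s.dst then 1 else 0) else 0) := by
        intro v w
        by_cases hw1 : w = s.src
        · subst hw1
          rw [hH2s, sentTo_append]
          by_cases hv : v = s.dst
          · subst hv; simp [sentTo]
          · simp [sentTo, hv, Ne.symm hv]
        · by_cases hw2 : w = s.dst
          · subst hw2
            rw [hH2d, sentTo_append]
            simp [sentTo, hw1]
          · rw [hH2o w hw1 hw2]
            simp [hw1]
      rw [hB, hB]
      simp only [hS, Finset.sum_add_distrib]
      congr 1
      rw [Finset.sum_eq_single s.src]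
      · simp
      · intro w _ hw
        simp [hw]
      · intro h; exact absurd (mem_univ _) h

/-- fixed schedules are adaptive protocols -/
theorem acc_le_cc [Fintype V] (hG : G.Connected) (n : ℕ) : acc G n ≤ cc G n := by
  obtain ⟨P, hP, hl⟩ := exists_correct hG n
  rw [← hl]
  apply Nat.sInf_le
  refine ⟨sim P, fun x => ?_⟩
  obtain ⟨H, hR, h1, h2, h3, h4⟩ := sim_state P x P.steps.length le_rfl
  refine ⟨H, hR, fun v => ⟨P.out v (x v) (gots (H v)), ?_, ?_⟩, h4.le⟩
  · change simAct P v (x v) (H v) = _
    unfold simAct
    rw [h1 v, List.take_length, List.getElem?_eq_none le_rfl]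
  · rw [h2 v, List.take_length]
    exact hP x v

end Q225.EqG
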