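import Pool.Agent.Q225.EqDefs

/-!
# Equality testing on graphs: adaptive protocols

Every player runs a sequential program: depending on the own input and on the own past (bits sent
and bits received), the next action of a player is to send a bit to a neighbour, to wait for the
next bit from a given neighbour, or to stop with an output.  The number of transmitted bits may
depend on the inputs, and nothing can be learned from timing.
-/

set_option autoImplicit false

namespace Q225.EqG

variable {V : Type}

/-- actions of a player -/
inductive Act (V : Type) where
  | send (w : V) (b : Bool)
  | recv (w : V)
  | halt (b : Bool)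

/-- events in the history of a player: `sent w b`: the bit `b` was sent to `w`;
`got w b`: the bit `b` was received from `w` -/
inductive Ev (V : Type) where
  | sent (w : V) (b : Bool)
  | got (w : V) (b : Bool)

/-- An adaptive protocol: the next action of every player, as a function of the own input and
the own history; players send bits to neighbours only. -/
structure Adaptive (G : SimpleGraph V) (n : ℕ) where
  act : V → (Fin n → Bool) → List (Ev V) → Act V
  adj : ∀ v x h w b, act v x h = Act.send w b → G.Adj v w

/-- bits sent to `w` according to a history -/
def sentTo [DecidableEq V] (w : V) : List (Ev V) → List Bool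
  | [] => []
  | Ev.sent u b :: h => if u = w then b :: sentTo w h else sentTo w h
  | Ev.got _ _ :: h => sentTo w h

/-- bits received from `w` according to a history -/
def gotFrom [DecidableEq V] (w : V) : List (Ev V) → List Bool
  | [] => []
  | Ev.sent _ _ :: h => gotFrom w h
  | Ev.got u b :: h => if u = w then b :: gotFrom w h else gotFrom w h

/-- One step of an execution on the inputs `x`; `H v` is the history of `v`.  The bits sent from
`w` to `v` are delivered in the order of sending. -/
inductive Adaptive.Step [DecidableEq V] {G : SimpleGraph V} {n : ℕ} (P : Adaptive G n)
    (x : V → Fin n → Bool) : (V → List (Ev V)) → (V → List (Ev V)) → Prop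
  | send (H : V → List (Ev V)) (v w : V) (b : Bool) (h : P.act v (x v) (H v) = Act.send w b) :
      Adaptive.Step P x H (Function.update H v (H v ++ [Ev.sent w b]))
  | recv (H : V → List (Ev V)) (v w : V) (b : Bool) (h : P.act v (x v) (H v) = Act.recv w)
      (hb : (sentTo v (H w))[(gotFrom w (H v)).length]? = some b) :
      Adaptive.Step P x H (Function.update H v (H v ++ [Ev.got w b]))

/-- The histories `H` are reached by an execution on the inputs `x`. -/
def Adaptive.Reach [DecidableEq V] {G : SimpleGraph V} {n : ℕ} (P : Adaptive G n)
    (x : V → Fin n → Bool) (H : V → List (Ev V)) : Prop :=
  Relation.ReflTransGen (P.Step x) (fun _ => []) H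

/-- total number of transmitted bits -/
def bitsSent [Fintype V] (H : V → List (Ev V)) : ℕ :=
  ∑ v, ((H v).filter fun e => match e with | Ev.sent _ _ => true | Ev.got _ _ => false).length

/-- The adaptive protocol `P` decides whether all inputs are equal with at most `c` bits: on all
inputs, an execution reaches histories where all players have stopped with the right output, and
at most `c` bits have been transmitted.  (The histories where all players have stopped do not
depend on the order of the steps, see `Adaptive.unique`.) -/
def Adaptive.Solves [Fintype V] [DecidableEq V] {G : SimpleGraph V} {n : ℕ} (P : Adaptive G n)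
    (c : ℕ) : Prop :=
  ∀ x : V → Fin n → Bool, ∃ H, P.Reach x H ∧
    (∀ v, ∃ b, P.act v (x v) (H v) = Act.halt b ∧ (b = true ↔ ∀ u w, x u = x w)) ∧
    bitsSent H ≤ c

/-- `f(n, G)` for adaptive protocols: the least worst-case number of bits. -/
noncomputable def acc [Fintype V] [DecidableEq V] (G : SimpleGraph V) (n : ℕ) : ℕ :=
  sInf {c | ∃ P : Adaptive G n, P.Solves c}

end Q225.EqG
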