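import Pool.Agent.Q225.EqDyn

/-! `f(G) = fc(G)` for fixed schedules and for adaptive protocols. -/

namespace Q225.EqG

open Finset Filter

variable {V : Type} [Fintype V] [DecidableEq V] {G : SimpleGraph V}

lemma fc_nonneg (G : SimpleGraph V) : 0 ≤ fc G := by
  unfold fc
  apply Real.sSup_nonneg
  rintro _ ⟨g, ⟨hg, -⟩, rfl⟩
  exact Finset.sum_nonneg fun S _ => (hg S).1

lemma acc_lower (hG : G.Connected) (n : ℕ) :
    fc G * ((n : ℝ) - (Fintype.card V + Fintype.card V * Fintype.card V * (Nat.log 2 n + 1) + 1)) ≤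
      acc G n := by
  set k := Fintype.card V with hk
  set t := k + k * k * (Nat.log 2 n + 1) + 1 with ht
  have hne : {c | ∃ P : Adaptive G n, P.Solves c}.Nonempty := by
    obtain ⟨P, hP, hl⟩ := exists_correct hG n
    refine ⟨P.steps.length, sim P, fun x => ?_⟩
    obtain ⟨H, hR, h1, h2, h3, h4⟩ := sim_state P x P.steps.length le_rfl
    refine ⟨H, hR, fun v => ⟨P.out v (x v) (gots (H v)), ?_, ?_⟩, h4.le⟩
    · change simAct P v (x v) (H v) = _
      unfold simAct
      rw [h1 v, List.take_length, List.getElem?_eq_none le_rfl]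
    · rw [h2 v, List.take_length]
      exact hP x v
  obtain ⟨P, hP⟩ := Nat.sInf_mem hne
  have hP' : P.Solves (acc G n) := hP
  have htc : (t : ℝ) = k + k * k * (Nat.log 2 n + 1) + 1 := by rw [ht]; push_cast; ring
  by_cases hnt : n ≤ t
  · have h1 : (n : ℝ) - (k + k * k * (Nat.log 2 n + 1) + 1) ≤ 0 := by
      rw [← htc]
      have : (n : ℝ) ≤ t := by exact_mod_cast hnt
      linarith
    calc _ ≤ 0 := mul_nonpos_of_nonneg_of_nonpos (fc_nonneg G) h1
      _ ≤ _ := Nat.cast_nonneg _
  · push Not at hnt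
    obtain ⟨s, hs⟩ : ∃ s, n = t + 1 + s := ⟨n - t - 1, by omega⟩
    have hlog : n < 2 ^ (Nat.log 2 n + 1) := Nat.lt_pow_succ_log_self (by norm_num) n
    have := adaptive_lower (s := s) hP' (by
      calc 2 ^ k * (2 ^ s * (s + 1) ^ (k * k))
          ≤ 2 ^ k * (2 ^ s * (2 ^ (Nat.log 2 n + 1)) ^ (k * k)) := by
            gcongr
            omega
        _ = 2 ^ (k + k * k * (Nat.log 2 n + 1) + s) := by
            rw [← pow_mul, ← pow_add, ← pow_add]
            congr 1
            ring
        _ < 2 ^ n := by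
            apply Nat.pow_lt_pow_right (by norm_num)
            omega)
    have e : (n : ℝ) - (k + k * k * (Nat.log 2 n + 1) + 1) = s + 1 := by
      rw [← htc, hs]; push_cast; ring
    rw [e]
    exact this

lemma log_div_tendsto : Tendsto (fun n : ℕ => (Nat.log 2 n : ℝ) / n) atTop (nhds 0) := by
  have h1 : Tendsto (fun n : ℕ => Real.log n / n) atTop (nhds 0) :=
    (Real.isLittleO_log_id_atTop.tendsto_div_nhds_zero).comp tendsto_natCast_atTop_atTop
  have h2 : Tendsto (fun n : ℕ => (Real.log 2)⁻¹ * (Real.log n / n)) atTop (nhds 0) := by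
    simpa using h1.const_mul (Real.log 2)⁻¹
  refine squeeze_zero' (Eventually.of_forall fun n => by positivity) ?_ h2
  filter_upwards [eventually_gt_atTop 0] with n hn
  have hn' : (0 : ℝ) < n := by exact_mod_cast hn
  have hl2 : 0 < Real.log 2 := Real.log_pos (by norm_num)
  have h3 : (Nat.log 2 n : ℝ) * Real.log 2 ≤ Real.log n := by
    have h4 : (2 : ℝ) ^ Nat.log 2 n ≤ n := by exact_mod_cast Nat.pow_log_le_self 2 hn.ne'
    have := Real.log_le_log (by positivity) h4
    rwa [Real.log_pow] at this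
  calc (Nat.log 2 n : ℝ) / n ≤ (Real.log n / Real.log 2) / n := by
        gcongr
        rw [le_div_iff₀ hl2]
        exact h3
    _ = _ := by field_simp

theorem tendsto_acc [Nontrivial V] (hG : G.Connected) :
    Tendsto (fun n : ℕ => (acc G n : ℝ) / n) atTop (nhds (fc G)) := by
  set k : ℝ := (Fintype.card V : ℝ) with hk
  have hlow : Tendsto (fun n : ℕ => fc G * (1 - ((k + k * k + 1) * (1 / (n : ℝ)) +
      k * k * ((Nat.log 2 n : ℝ) / n)))) atTop (nhds (fc G)) := by
    have h1 : Tendsto (fun n : ℕ => (k + k * k + 1) * (1 / (n : ℝ))) atTop (nhds 0) := by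
      simpa using (tendsto_one_div_atTop_nhds_zero_nat (𝕜 := ℝ)).const_mul (k + k * k + 1)
    have h2 : Tendsto (fun n : ℕ => k * k * ((Nat.log 2 n : ℝ) / n)) atTop (nhds 0) := by
      simpa using log_div_tendsto.const_mul (k * k)
    have h3 := ((h1.add h2).const_sub 1).const_mul (fc G)
    simpa using h3
  refine tendsto_of_tendsto_of_tendsto_of_le_of_le' hlow (tendsto_fc hG) ?_ ?_
  · filter_upwards [eventually_gt_atTop 0] with n hn
    have hn' : (0 : ℝ) < n := by exact_mod_cast hn
    rw [le_div_iff₀ hn']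
    have h := acc_lower hG n
    calc fc G * (1 - ((k + k * k + 1) * (1 / (n : ℝ)) + k * k * ((Nat.log 2 n : ℝ) / n))) * n
        = fc G * ((n : ℝ) - (k + k * k * (Nat.log 2 n + 1) + 1)) := by field_simp; ring
      _ ≤ _ := h
  · filter_upwards [eventually_gt_atTop 0] with n hn
    have hn' : (0 : ℝ) < n := by exact_mod_cast hn
    have : (acc G n : ℝ) ≤ cc G n := by exact_mod_cast acc_le_cc hG n
    gcongr

end Q225.EqG
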