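import Mathlib

/-! Generic symmetric matrices with prescribed support: a counting argument modulo a prime. -/

namespace Q225.EqG

open Finset

variable {τ : Type} [Fintype τ] [DecidableEq τ]

section Count

variable (p : ℕ) [Fact p.Prime] (nb : τ → τ → Prop) [DecidableRel nb]

/-- the symmetric matrix with entries `m` supported on `nb` -/
def mat (m : Sym2 τ → ZMod p) (t e : τ) : ZMod p := if nb t e then m s(t, e) else 0

/-- rows meeting the support of `y` -/
def rows (S : Finset τ) (y : τ → ZMod p) : Finset τ :=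
  univ.filter fun t => t ∉ S ∧ ∃ e, y e ≠ 0 ∧ nb t e

/-- the linear map `m ↦ (∑ e, M_{t e} y_e)_t` -/
def Phi (R : Finset τ) (y : τ → ZMod p) : (Sym2 τ → ZMod p) →ₗ[ZMod p] (R → ZMod p) where
  toFun m t := ∑ e, mat p nb m t.1 e * y e
  map_add' m m' := by
    funext t
    simp only [Pi.add_apply, ← Finset.sum_add_distrib]
    refine Finset.sum_congr rfl fun e _ => ?_
    simp only [mat, Pi.add_apply]
    split_ifs
    · ring
    · ring
  map_smul' c m := by
    funext t
    simp only [Pi.smul_apply, smul_eq_mul, RingHom.id_apply, Finset.mul_sum]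
    refine Finset.sum_congr rfl fun e _ => ?_
    simp only [mat, Pi.smul_apply, smul_eq_mul]
    split_ifs
    · ring
    · ring

lemma Phi_surj (hrefl : ∀ t, nb t t) (S : Finset τ) (y : τ → ZMod p) :
    Function.Surjective (Phi p nb (rows p nb S y) y) := by
  rw [← LinearMap.range_eq_top, ← top_le_iff, ← (Pi.basisFun (ZMod p) (rows p nb S y)).span_eq,
    Submodule.span_le]
  rintro _ ⟨⟨t, ht⟩, rfl⟩
  rw [Pi.basisFun_apply]
  -- choice of the partner
  obtain ⟨e, hy, hnb, hcase⟩ : ∃ e, y e ≠ 0 ∧ nb t e ∧ (e = t ∨ y t = 0) := by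
    by_cases h : y t = 0
    · have := ht
      unfold rows at this
      rw [mem_filter] at this
      obtain ⟨e, he, hn⟩ := this.2.2
      exact ⟨e, he, hn, Or.inr h⟩
    · exact ⟨t, h, hrefl t, Or.inl rfl⟩
  refine ⟨Pi.single s(t, e) (y e)⁻¹, ?_⟩
  funext t'
  obtain ⟨t', ht'⟩ := t'
  change ∑ e', mat p nb (Pi.single s(t, e) (y e)⁻¹) t' e' * y e' = _
  by_cases htt : t' = t
  · subst htt
    rw [Pi.single_eq_same, Finset.sum_eq_single e]
    · rw [mat, if_pos hnb, Pi.single_eq_same, inv_mul_cancel₀ hy]
    · intro e' _ he'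
      unfold mat
      split_ifs
      · rw [Pi.single_eq_of_ne, zero_mul]
        intro h
        rw [Sym2.eq_iff] at h
        rcases h with ⟨-, h⟩ | ⟨h1, h2⟩
        · exact he' h
        · exact he' (h2.trans h1)
      · rw [zero_mul]
    · intro h; exact absurd (mem_univ _) h
  · rw [Pi.single_eq_of_ne (by simpa using htt)]
    apply Finset.sum_eq_zero
    intro e' _
    unfold mat
    split_ifs
    · by_cases h : s(t', e') = s(t, e)
      · rw [Sym2.eq_iff] at h
        rcases h with ⟨h, -⟩ | ⟨h1, h2⟩
        · exact absurd h htt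
        · rcases hcase with h3 | h3
          · exact absurd (h1.trans h3) htt
          · rw [h2, h3, mul_zero]
      · rw [Pi.single_eq_of_ne h, zero_mul]
    · rw [zero_mul]

open Classical in
lemma card_ker_le (hrefl : ∀ t, nb t t) (S : Finset τ) (y : τ → ZMod p) {k : ℕ}
    (hk : k ≤ (rows p nb S y).card) :
    (univ.filter fun m : Sym2 τ → ZMod p => ∀ t ∉ S, ∑ e, mat p nb m t e * y e = 0).card * p ^ k ≤
      p ^ Fintype.card (Sym2 τ) := by
  set Φ := Phi p nb (rows p nb S y) y with hΦ
  have h1 : (univ.filter fun m : Sym2 τ → ZMod p =>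
      ∀ t ∉ S, ∑ e, mat p nb m t e * y e = 0).card ≤ Nat.card (LinearMap.ker Φ) := by
    rw [← Fintype.card_coe, ← Nat.card_eq_fintype_card]
    apply Nat.card_le_card_of_injective
      (fun m => (⟨m.1, by
        have hm := m.2
        rw [mem_filter] at hm
        rw [LinearMap.mem_ker]
        funext t
        exact hm.2 t.1 (by
          have := t.2
          unfold rows at this
          rw [mem_filter] at this
          exact this.2.1)⟩ : LinearMap.ker Φ))
    intro a b h
    apply Subtype.ext
    have h' := congrArg (fun z : LinearMap.ker Φ => z.1) h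
    exact h'
  have hsurj := Phi_surj p nb hrefl S y
  have e1 := LinearMap.finrank_range_add_finrank_ker Φ
  have e2 : Module.finrank (ZMod p) (LinearMap.range Φ) = (rows p nb S y).card := by
    rw [LinearMap.range_eq_top.mpr hsurj, finrank_top, Module.finrank_pi, Fintype.card_coe]
  rw [e2, Module.finrank_pi] at e1
  have e3 : Nat.card (LinearMap.ker Φ) = p ^ Module.finrank (ZMod p) (LinearMap.ker Φ) := by
    rw [Module.natCard_eq_pow_finrank (K := ZMod p), Nat.card_zmod]
  calc _ ≤ Nat.card (LinearMap.ker Φ) * p ^ k := Nat.mul_le_mul_right _ h1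
    _ ≤ Nat.card (LinearMap.ker Φ) * p ^ (rows p nb S y).card := by
        apply Nat.mul_le_mul_left
        exact Nat.pow_le_pow_right (Fact.out : p.Prime).pos hk
    _ = _ := by rw [e3, ← pow_add, ← e1, add_comm]

open Classical in
/-- number of normalised vectors with given support -/
lemma card_norm_le (C : Finset τ) (e0 : τ) (h0 : e0 ∈ C) :
    (univ.filter fun y : τ → ZMod p => (∀ e, y e ≠ 0 ↔ e ∈ C) ∧ y e0 = 1).card * p ≤
      p ^ C.card := by
  have h1 : (univ.filter fun y : τ → ZMod p => (∀ e, y e ≠ 0 ↔ e ∈ C) ∧ y e0 = 1).card ≤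
      Fintype.card ({e // e ∈ C.erase e0} → ZMod p) := by
    rw [← Fintype.card_coe]
    apply Fintype.card_le_of_injective
      (fun y => fun e : {e // e ∈ C.erase e0} => y.1 e.1)
    intro a b h
    apply Subtype.ext
    have ha := (mem_filter.mp a.2).2
    have hb := (mem_filter.mp b.2).2
    funext e
    by_cases he : e ∈ C
    · by_cases he0 : e = e0
      · rw [he0, ha.2, hb.2]
      · exact congrFun h ⟨e, mem_erase.mpr ⟨he0, he⟩⟩
    · have h1 : a.1 e = 0 := by
        by_contra hc; exact he ((ha.1 e).1 hc)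
      have h2 : b.1 e = 0 := by
        by_contra hc; exact he ((hb.1 e).1 hc)
      rw [h1, h2]
  rw [Fintype.card_fun, ZMod.card, Fintype.card_coe, card_erase_of_mem h0] at h1
  calc _ ≤ p ^ (C.card - 1) * p := Nat.mul_le_mul_right _ h1
    _ = p ^ C.card := by
      rw [← pow_succ, Nat.sub_add_cancel (card_pos.mpr ⟨e0, h0⟩)]

/-- existence modulo `p` -/
theorem exists_mod (hrefl : ∀ t, nb t t) (S : Finset τ) {V : Type} (X : V → Finset τ)
    (hall : ∀ v, ∀ C : Finset τ, Disjoint C (X v) →
      C.card ≤ (univ.filter fun t => t ∉ S ∧ ∃ e ∈ C, nb t e).card)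
    (hp : Fintype.card τ * 2 ^ Fintype.card τ < p) :
    ∃ m : Sym2 τ → ZMod p, ∀ v, ∀ y : τ → ZMod p, (∀ e ∈ X v, y e = 0) →
      (∀ t ∉ S, ∑ e, mat p nb m t e * y e = 0) → y = 0 := by
  classical
  by_contra hcon
  push Not at hcon
  -- every `m` is bad
  let K : (τ → ZMod p) → Finset (Sym2 τ → ZMod p) := fun y =>
    univ.filter fun m => ∀ t ∉ S, ∑ e, mat p nb m t e * y e = 0
  let Y : τ → Finset τ → Finset (τ → ZMod p) := fun e0 C =>
    univ.filter fun y => ((∀ e, y e ≠ 0 ↔ e ∈ C) ∧ y e0 = 1)
  let good : Finset (Finset τ) := univ.filter fun C => ∃ v, Disjoint C (X v)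
  let idx : Finset (τ × Finset τ) := (univ ×ˢ good).filter fun q => q.1 ∈ q.2
  have hcover : (univ : Finset (Sym2 τ → ZMod p)) ⊆
      idx.biUnion fun q => (Y q.1 q.2).biUnion K := by
    intro m _
    obtain ⟨v, y, hyX, hyS, hy0⟩ := hcon m
    obtain ⟨e0, he0⟩ : ∃ e, y e ≠ 0 := by
      by_contra hc
      push Not at hc
      exact hy0 (funext hc)
    let y' : τ → ZMod p := fun e => (y e0)⁻¹ * y e
    have hy' : ∀ e, y' e ≠ 0 ↔ y e ≠ 0 := by
      intro e
      simp only [y', ne_eq, mul_eq_zero, inv_eq_zero, not_or]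
      exact ⟨fun h => h.2, fun h => ⟨he0, h⟩⟩
    rw [mem_biUnion]
    refine ⟨(e0, univ.filter fun e => y e ≠ 0), ?_, ?_⟩
    · simp only [idx, good, mem_filter, mem_product, mem_univ, true_and]
      refine ⟨⟨v, ?_⟩, he0⟩
      rw [Finset.disjoint_left]
      intro e he hX
      exact (mem_filter.mp he).2 (hyX e hX)
    · rw [mem_biUnion]
      refine ⟨y', ?_, ?_⟩
      · simp only [Y, mem_filter, mem_univ, true_and]
        exact ⟨hy', inv_mul_cancel₀ he0⟩
      · simp only [K, mem_filter, mem_univ, true_and]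
        intro t ht
        have : ∑ e, mat p nb m t e * y' e = (y e0)⁻¹ * ∑ e, mat p nb m t e * y e := by
          rw [Finset.mul_sum]
          refine Finset.sum_congr rfl fun e _ => ?_
          simp only [y']; ring
        rw [this, hyS t ht, mul_zero]
  -- each index contributes at most `p^{#-1}`
  have hcontr : ∀ q ∈ idx, ((Y q.1 q.2).biUnion K).card * p ≤ p ^ Fintype.card (Sym2 τ) := by
    rintro ⟨e0, C⟩ hq
    simp only [idx, good, mem_filter, mem_product, mem_univ, true_and] at hq
    obtain ⟨⟨v, hv⟩, he0⟩ := hq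
    have hKy : ∀ y ∈ Y e0 C, (K y).card * p ^ C.card ≤ p ^ Fintype.card (Sym2 τ) := by
      intro y hy
      simp only [Y, mem_filter, mem_univ, true_and] at hy
      apply card_ker_le p nb hrefl S y
      refine (hall v C hv).trans (card_le_card ?_)
      intro t ht
      rw [mem_filter] at ht
      unfold rows
      rw [mem_filter]
      obtain ⟨-, ht1, e, he, hn⟩ := ht
      exact ⟨mem_univ _, ht1, e, (hy.1 e).2 he, hn⟩
    have hY := card_norm_le p C e0 he0
    have hpos : 0 < p ^ C.card := pow_pos (Fact.out : p.Prime).pos _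
    apply Nat.le_of_mul_le_mul_right _ hpos
    calc ((Y e0 C).biUnion K).card * p * p ^ C.card
        ≤ (∑ y ∈ Y e0 C, (K y).card) * p * p ^ C.card := by
          gcongr
          exact card_biUnion_le
      _ = (∑ y ∈ Y e0 C, (K y).card) * p ^ C.card * p := by ring
      _ = (∑ y ∈ Y e0 C, (K y).card * p ^ C.card) * p := by
          rw [Finset.sum_mul]
      _ ≤ (∑ y ∈ Y e0 C, p ^ Fintype.card (Sym2 τ)) * p := by
          gcongr with y hy
          exact hKy y hy
      _ = ((Y e0 C).card * p) * p ^ Fintype.card (Sym2 τ) := by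
          rw [Finset.sum_const, smul_eq_mul]; ring
      _ ≤ p ^ C.card * p ^ Fintype.card (Sym2 τ) := by
          gcongr
      _ = _ := by ring
  have hidx : idx.card ≤ Fintype.card τ * 2 ^ Fintype.card τ := by
    calc idx.card ≤ (univ ×ˢ good).card := card_filter_le _ _
      _ = Fintype.card τ * good.card := by rw [card_product, card_univ]
      _ ≤ Fintype.card τ * 2 ^ Fintype.card τ := by
        gcongr
        calc good.card ≤ (univ : Finset (Finset τ)).card := card_filter_le _ _
          _ = _ := by rw [card_univ, Fintype.card_finset]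
  have htot : p ^ Fintype.card (Sym2 τ) * p ≤
      (Fintype.card τ * 2 ^ Fintype.card τ) * p ^ Fintype.card (Sym2 τ) := by
    calc p ^ Fintype.card (Sym2 τ) * p = (univ : Finset (Sym2 τ → ZMod p)).card * p := by
          rw [card_univ, Fintype.card_fun, ZMod.card]
      _ ≤ (idx.biUnion fun q => (Y q.1 q.2).biUnion K).card * p := by
          gcongr
      _ ≤ (∑ q ∈ idx, ((Y q.1 q.2).biUnion K).card) * p := by
          gcongr
          exact card_biUnion_le
      _ = ∑ q ∈ idx, ((Y q.1 q.2).biUnion K).card * p := by rw [Finset.sum_mul]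
      _ ≤ ∑ q ∈ idx, p ^ Fintype.card (Sym2 τ) := Finset.sum_le_sum hcontr
      _ = idx.card * p ^ Fintype.card (Sym2 τ) := by rw [Finset.sum_const, smul_eq_mul]
      _ ≤ _ := by gcongr
  have hpos : 0 < p ^ Fintype.card (Sym2 τ) := pow_pos (Fact.out : p.Prime).pos _
  have : p ≤ Fintype.card τ * 2 ^ Fintype.card τ := by
    apply Nat.le_of_mul_le_mul_left _ hpos
    calc _ ≤ _ := htot
      _ = _ := by ring
  omega

end Count

/-- **Existence over `ℤ`.** -/
theorem exists_int (nb : τ → τ → Prop) [DecidableRel nb] (hrefl : ∀ t, nb t t)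
    (hsymm : ∀ t e, nb t e → nb e t) (S : Finset τ) {V : Type} (X : V → Finset τ)
    (hall : ∀ v, ∀ C : Finset τ, Disjoint C (X v) →
      C.card ≤ (univ.filter fun t => t ∉ S ∧ ∃ e ∈ C, nb t e).card) :
    ∃ M : τ → τ → ℤ, (∀ t e, M t e = M e t) ∧ (∀ t e, M t e ≠ 0 → nb t e) ∧
      (∀ t, 1 + ∑ e ∈ univ.erase t, |M t e| ≤ M t t) ∧
      ∀ v, ∀ y : τ → ℤ, (∀ e ∈ X v, y e = 0) → (∀ t ∉ S, ∑ e, M t e * y e = 0) → y = 0 := by
  classical
  obtain ⟨p, hpn, hp⟩ := Nat.exists_infinite_primes (Fintype.card τ * 2 ^ Fintype.card τ + 1)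
  haveI : Fact p.Prime := ⟨hp⟩
  obtain ⟨m, hm⟩ := exists_mod p nb hrefl S X hall (by omega)
  -- off-diagonal lift
  let L : τ → τ → ℤ := fun t e => ((mat p nb m t e).val : ℤ)
  have hL : ∀ t e, ((L t e : ℤ) : ZMod p) = mat p nb m t e := by
    intro t e
    simp only [L, Int.cast_natCast, ZMod.natCast_zmod_val]
  have hLs : ∀ t e, L t e = L e t := by
    intro t e
    simp only [L, mat]
    rw [Sym2.eq_swap]
    by_cases h : nb t e
    · rw [if_pos h, if_pos (hsymm _ _ h)]
    · rw [if_neg h, if_neg (fun h' => h (hsymm _ _ h'))]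
  have hL0 : ∀ t e, 0 ≤ L t e := fun t e => by simp only [L]; positivity
  let B : τ → ℤ := fun t => 1 + ∑ e ∈ univ.erase t, |L t e|
  have hB : ∀ t, 0 ≤ B t := fun t => by simp only [B]; positivity
  let M : τ → τ → ℤ := fun t e => if t = e then L t t + p * B t else L t e
  have hMne : ∀ t e, t ≠ e → M t e = L t e := fun t e h => by simp only [M, if_neg h]
  have hMeq : ∀ t, M t t = L t t + p * B t := fun t => by simp only [M, if_true]
  have hMp : ∀ t e, ((M t e : ℤ) : ZMod p) = mat p nb m t e := by
    intro t e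
    by_cases h : t = e
    · subst h
      rw [hMeq]; push_cast
      rw [hL]; simp
    · rw [hMne t e h, hL]
  refine ⟨M, ?_, ?_, ?_, ?_⟩
  · intro t e
    by_cases h : t = e
    · subst h; rfl
    · rw [hMne t e h, hMne e t (Ne.symm h), hLs]
  · intro t e h
    by_cases hte : t = e
    · subst hte; exact hrefl t
    · rw [hMne t e hte] at h
      by_contra hc
      apply h
      simp only [L, mat, if_neg hc, ZMod.val_zero, Nat.cast_zero]
  · intro t
    rw [hMeq]
    have e1 : ∑ e ∈ univ.erase t, |M t e| = ∑ e ∈ univ.erase t, |L t e| := by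
      refine Finset.sum_congr rfl fun e he => ?_
      rw [hMne t e (Ne.symm (mem_erase.mp he).1)]
    rw [e1]
    have hp1 : (1 : ℤ) ≤ p := by exact_mod_cast hp.one_lt.le
    have := hL0 t t
    have hb := hB t
    calc 1 + ∑ e ∈ univ.erase t, |L t e| = B t := rfl
      _ ≤ p * B t := by nlinarith
      _ ≤ L t t + p * B t := by linarith
  · intro v
    -- descent
    have key : ∀ N : ℕ, ∀ y : τ → ℤ, (∑ e, (y e).natAbs) ≤ N → (∀ e ∈ X v, y e = 0) →
        (∀ t ∉ S, ∑ e, M t e * y e = 0) → y = 0 := by
      intro N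
      induction N with
      | zero =>
        intro y hN _ _
        funext e
        have h1 : (y e).natAbs ≤ ∑ e, (y e).natAbs :=
          Finset.single_le_sum (f := fun e => (y e).natAbs) (fun _ _ => Nat.zero_le _) (mem_univ e)
        have : (y e).natAbs = 0 := by omega
        exact Int.natAbs_eq_zero.mp this
      | succ N ih =>
        intro y hN hX hS
        have hmod := hm v (fun e => ((y e : ℤ) : ZMod p)) (fun e he => by rw [hX e he]; simp) (by
          intro t ht
          have := congrArg (fun z : ℤ => (z : ZMod p)) (hS t ht)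
          simp only [Int.cast_sum, Int.cast_mul, Int.cast_zero] at this
          rw [← this]
          refine Finset.sum_congr rfl fun e _ => ?_
          rw [hMp])
        have hdiv : ∀ e, (p : ℤ) ∣ y e := by
          intro e
          rw [← ZMod.intCast_zmod_eq_zero_iff_dvd]
          exact congrFun hmod e
        choose z hz using hdiv
        have hp0 : (p : ℤ) ≠ 0 := by exact_mod_cast hp.ne_zero
        by_cases hy : y = 0
        · exact hy
        have hlt : ∑ e, (z e).natAbs < ∑ e, (y e).natAbs := by
          obtain ⟨e0, he0⟩ : ∃ e, y e ≠ 0 := by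
            by_contra hc
            push Not at hc
            exact hy (funext hc)
          have hnat : ∀ e, (y e).natAbs = p * (z e).natAbs := by
            intro e; rw [hz e, Int.natAbs_mul, Int.natAbs_natCast]
          apply Finset.sum_lt_sum
          · intro e _
            rw [hnat]
            exact Nat.le_mul_of_pos_left _ hp.pos
          · refine ⟨e0, mem_univ _, ?_⟩
            rw [hnat]
            have : (z e0).natAbs ≠ 0 := by
              intro hc
              rw [Int.natAbs_eq_zero] at hc
              rw [hz e0, hc, mul_zero] at he0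
              exact he0 rfl
            have h2 := hp.two_le
            nlinarith [Nat.pos_of_ne_zero this]
        have hz0 := ih z (by omega) (fun e he => by
          have := hX e he
          rw [hz e] at this
          exact (mul_eq_zero.mp this).resolve_left hp0) (fun t ht => by
          have := hS t ht
          have e1 : ∑ e, M t e * y e = p * ∑ e, M t e * z e := by
            rw [Finset.mul_sum]
            refine Finset.sum_congr rfl fun e _ => ?_
            rw [hz e]; ring
          rw [e1] at this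
          exact (mul_eq_zero.mp this).resolve_left hp0)
        funext e
        rw [hz e, hz0]; simp
    intro y hX hS
    exact key _ y le_rfl hX hS

end Q225.EqG
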