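import Pool.Agent.Q225.EqFinal

/-! The Petersen graph. -/

namespace Q225.EqG

open Finset Filter

/-- The edges of the Petersen graph on `{0,…,9}`: a 5-cycle, five spokes and a pentagram. -/
def E15 : List (Fin 10 × Fin 10) :=
  [(0, 1), (1, 2), (2, 3), (3, 4), (0, 4), (0, 5), (1, 6), (2, 7), (3, 8), (4, 9), (5, 7), (7, 9),
    (6, 9), (6, 8), (5, 8)]

/-- The Petersen graph. -/
def petersen : SimpleGraph (Fin 10) where
  Adj a b := (a, b) ∈ E15 ∨ (b, a) ∈ E15
  symm := ⟨fun _ _ h => h.symm⟩
  loopless := ⟨by decide⟩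

instance : DecidableRel petersen.Adj := fun a b =>
  inferInstanceAs (Decidable ((a, b) ∈ E15 ∨ (b, a) ∈ E15))

section C2

variable {V : Type} [Fintype V] [DecidableEq V]

/-- the edge `e` has one endpoint in `S` and one outside -/
def CrossE (S : Finset V) (e : Sym2 V) : Prop := ∃ u v, e = s(u, v) ∧ u ∈ S ∧ v ∉ S

open Classical in
/-- `c₂(G)`: the minimum number of edges, counted with multiplicity `m e ≤ 2`, of a spanning
submultigraph in which every cut has at least two edges (that is, 2-edge-connected). -/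
noncomputable def c2 (G : SimpleGraph V) : ℕ :=
  sInf {N | ∃ m : Sym2 V → ℕ, (∀ e, m e ≤ 2) ∧ (∀ e, e ∉ G.edgeSet → m e = 0) ∧
    (∀ S ∈ cuts V, 2 ≤ ∑ e ∈ univ.filter (fun e => CrossE S e), m e) ∧ ∑ e, m e = N}

end C2

/-! ### Finite checks -/

def allB (f : Bool → Bool) : Bool := f true && f false

lemma allB_iff (f : Bool → Bool) : allB f = true ↔ ∀ b, f b = true := by
  unfold allB
  rw [Bool.and_eq_true]
  constructor
  · rintro ⟨h1, h2⟩ b; cases b
    · exact h2
    · exact h1
  · intro h; exact ⟨h _, h _⟩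

def two (a b c : Bool) : Bool := (a && b && !c) || (a && !b && c) || (!a && b && c)

def imp (a b : Bool) : Bool := !a || b

lemma imp_mp {a b : Bool} (h : imp a b = true) (ha : a = true) : b = true := by
  unfold imp at h
  rw [ha] at h
  simpa using h

lemma ham0 : (allB fun e0 => allB fun e4 => allB fun e5 => imp (two e0 e4 e5) <|
    allB fun e1 => allB fun e6 => imp (two e0 e1 e6) <|
    allB fun e2 => allB fun e7 => imp (two e1 e2 e7) <|
    allB fun e3 => allB fun e8 => imp (two e2 e3 e8) <|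
    allB fun e9 => imp (two e3 e4 e9) <|
    allB fun e10 => allB fun e14 => imp (two e5 e10 e14) <|
    allB fun e11 => imp (two e7 e10 e11) <|
    allB fun e12 => allB fun e13 => imp (two e6 e12 e13) <|
    imp (two e8 e13 e14) <| imp (two e9 e11 e12) <|
    (!e0 && !e3 && !e14 && !e7 && !e12) || (!e4 && !e6 && !e2 && !e14 && !e11) ||
    (!e5 && !e1 && !e3 && !e13 && !e11) || (!e0 && !e2 && !e9 && !e10 && !e13) ||
    (!e4 && !e1 && !e10 && !e12 && !e8) || (!e5 && !e6 && !e7 && !e8 && !e9)) = true := by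
  decide

lemma ham1 (e0 e1 e2 e3 e4 e5 e6 e7 e8 e9 e10 e11 e12 e13 e14 : Bool)
    (h0 : two e0 e4 e5 = true) (h1 : two e0 e1 e6 = true) (h2 : two e1 e2 e7 = true)
    (h3 : two e2 e3 e8 = true) (h4 : two e3 e4 e9 = true) (h5 : two e5 e10 e14 = true)
    (h7 : two e7 e10 e11 = true) (h6 : two e6 e12 e13 = true) (h8 : two e8 e13 e14 = true)
    (h9 : two e9 e11 e12 = true) :
    (!e0 && !e3 && !e14 && !e7 && !e12) = true ∨ (!e4 && !e6 && !e2 && !e14 && !e11) = true ∨
    (!e5 && !e1 && !e3 && !e13 && !e11) = true ∨ (!e0 && !e2 && !e9 && !e10 && !e13) = true ∨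
    (!e4 && !e1 && !e10 && !e12 && !e8) = true ∨ (!e5 && !e6 && !e7 && !e8 && !e9) = true := by
  have H := ham0
  rw [allB_iff] at H; replace H := H e0
  rw [allB_iff] at H; replace H := H e4
  rw [allB_iff] at H; replace H := H e5
  replace H := imp_mp H h0
  rw [allB_iff] at H; replace H := H e1
  rw [allB_iff] at H; replace H := H e6
  replace H := imp_mp H h1
  rw [allB_iff] at H; replace H := H e2
  rw [allB_iff] at H; replace H := H e7
  replace H := imp_mp H h2
  rw [allB_iff] at H; replace H := H e3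
  rw [allB_iff] at H; replace H := H e8
  replace H := imp_mp H h3
  rw [allB_iff] at H; replace H := H e9
  replace H := imp_mp H h4
  rw [allB_iff] at H; replace H := H e10
  rw [allB_iff] at H; replace H := H e14
  replace H := imp_mp H h5
  rw [allB_iff] at H; replace H := H e11
  replace H := imp_mp H h7
  rw [allB_iff] at H; replace H := H e12
  rw [allB_iff] at H; replace H := H e13
  replace H := imp_mp H h6
  replace H := imp_mp H h8
  replace H := imp_mp H h9
  simp only [Bool.or_eq_true] at H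
  tauto

set_option maxRecDepth 100000 in
lemma cut3 : ∀ b0 b1 b2 b3 b4 b5 b6 b7 b8 b9 : Bool,
    ((b0 && b1 && b2 && b3 && b4 && b5 && b6 && b7 && b8 && b9) = false) →
    ((b0 || b1 || b2 || b3 || b4 || b5 || b6 || b7 || b8 || b9) = true) →
    3 ≤ (b0 ^^ b1).toNat + (b1 ^^ b2).toNat + (b2 ^^ b3).toNat + (b3 ^^ b4).toNat +
      (b0 ^^ b4).toNat + (b0 ^^ b5).toNat + (b1 ^^ b6).toNat + (b2 ^^ b7).toNat +
      (b3 ^^ b8).toNat + (b4 ^^ b9).toNat + (b5 ^^ b7).toNat + (b7 ^^ b9).toNat +
      (b6 ^^ b9).toNat + (b6 ^^ b8).toNat + (b5 ^^ b8).toNat := by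
  decide

set_option maxRecDepth 100000 in
lemma cut2 : ∀ b0 b1 b2 b3 b4 b5 b6 b7 b8 b9 : Bool,
    ((b0 && b1 && b2 && b3 && b4 && b5 && b6 && b7 && b8 && b9) = false) →
    ((b0 || b1 || b2 || b3 || b4 || b5 || b6 || b7 || b8 || b9) = true) →
    2 ≤ (b0 ^^ b1).toNat + (b1 ^^ b2).toNat + (b2 ^^ b3).toNat + (b3 ^^ b4).toNat +
      (b0 ^^ b5).toNat + (b1 ^^ b6).toNat +
      (b3 ^^ b8).toNat + (b4 ^^ b9).toNat + (b5 ^^ b7).toNat + (b7 ^^ b9).toNat +
      (b6 ^^ b8).toNat := by
  decide

/-- indicator of `i ∈ S` -/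
def bS (S : Finset (Fin 10)) (i : Fin 10) : Bool := decide (i ∈ S)

lemma bS_and {S : Finset (Fin 10)} (hS : S ∈ cuts (Fin 10)) :
    (bS S 0 && bS S 1 && bS S 2 && bS S 3 && bS S 4 && bS S 5 && bS S 6 && bS S 7 && bS S 8 &&
      bS S 9) = false := by
  unfold cuts at hS
  rw [mem_filter] at hS
  by_contra hc
  rw [Bool.not_eq_false] at hc
  simp only [Bool.and_eq_true, bS, decide_eq_true_eq] at hc
  apply hS.2.2
  rw [Finset.eq_univ_iff_forall]
  intro i
  fin_cases i <;> simp_all

lemma bS_or {S : Finset (Fin 10)} (hS : S ∈ cuts (Fin 10)) :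
    (bS S 0 || bS S 1 || bS S 2 || bS S 3 || bS S 4 || bS S 5 || bS S 6 || bS S 7 || bS S 8 ||
      bS S 9) = true := by
  unfold cuts at hS
  rw [mem_filter] at hS
  obtain ⟨i, hi⟩ := hS.2.1
  simp only [Bool.or_eq_true, bS, decide_eq_true_eq]
  fin_cases i <;> simp_all

/-- number of crossing edges of the Petersen graph -/
def crossNum (S : Finset (Fin 10)) : ℕ := (E15.map fun p => (bS S p.1 ^^ bS S p.2).toNat).sum

lemma crossNum_ge {S : Finset (Fin 10)} (hS : S ∈ cuts (Fin 10)) : 3 ≤ crossNum S := by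
  have h := cut3 _ _ _ _ _ _ _ _ _ _ (bS_and hS) (bS_or hS)
  unfold crossNum E15
  simp only [List.map_cons, List.map_nil, List.sum_cons, List.sum_nil]
  omega

/-! ### `fc = 5` -/

lemma petersen_fc_le : fc petersen ≤ 5 := by
  unfold fc
  apply csSup_le
  · exact ⟨_, fun _ => 0, ⟨fun _ => ⟨le_rfl, zero_le_one⟩, fun _ _ _ => by simp⟩, rfl⟩
  · rintro _ ⟨g, ⟨hg1, hg2⟩, rfl⟩
    have h1 : ∀ l : List (Fin 10 × Fin 10), (∀ p ∈ l, petersen.Adj p.1 p.2) →
        ∑ S ∈ cuts (Fin 10), g S * ((l.map fun p => (bS S p.1 ^^ bS S p.2).toNat).sum : ℕ) ≤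
          (l.length : ℝ) := by
      intro l
      induction l with
      | nil => intro _; simp
      | cons p l ih =>
        intro hl
        have h2 := ih (fun q hq => hl q (List.mem_cons_of_mem _ hq))
        have h3 := hg2 p.1 p.2 (hl p List.mem_cons_self)
        rw [Finset.sum_filter] at h3
        have h4 : ∀ S, g S * (((p :: l).map fun p => (bS S p.1 ^^ bS S p.2).toNat).sum : ℕ) =
            (if ¬ (p.1 ∈ S ↔ p.2 ∈ S) then g S else 0) +
              g S * ((l.map fun p => (bS S p.1 ^^ bS S p.2).toNat).sum : ℕ) := by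
          intro S
          rw [List.map_cons, List.sum_cons]
          push_cast
          rw [mul_add]
          congr 1
          by_cases ha : p.1 ∈ S <;> by_cases hb : p.2 ∈ S <;> simp [bS, ha, hb]
        simp only [h4]
        rw [Finset.sum_add_distrib, List.length_cons, Nat.cast_add, Nat.cast_one]
        linarith
    have h2 := h1 E15 (fun p hp => Or.inl hp)
    have h3 : ∑ S ∈ cuts (Fin 10), g S * 3 ≤ ∑ S ∈ cuts (Fin 10), g S * (crossNum S : ℝ) := by
      apply Finset.sum_le_sum
      intro S hS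
      apply mul_le_mul_of_nonneg_left _ (hg1 S).1
      exact_mod_cast crossNum_ge hS
    have h4 : ∑ S ∈ cuts (Fin 10), g S * (crossNum S : ℝ) ≤ 15 := by
      have : ((E15.length : ℕ) : ℝ) = 15 := by norm_num [E15]
      rw [← this]
      exact h2
    rw [← Finset.sum_mul] at h3
    linarith

lemma le_petersen_fc : 5 ≤ fc petersen := by
  unfold fc
  apply le_csSup
  · refine ⟨((cuts (Fin 10)).card : ℝ), ?_⟩
    rintro _ ⟨g, ⟨h1, -⟩, rfl⟩
    calc ∑ S ∈ cuts (Fin 10), g S ≤ ∑ S ∈ cuts (Fin 10), (1 : ℝ) :=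
          Finset.sum_le_sum fun S _ => (h1 S).2
      _ = _ := by simp
  · -- weight `1/2` on the single vertex cuts
    let T : Finset (Finset (Fin 10)) := univ.image fun v => {v}
    have hT : T ⊆ cuts (Fin 10) := by
      intro S hS
      simp only [T, mem_image, mem_univ, true_and] at hS
      obtain ⟨v, rfl⟩ := hS
      unfold cuts
      rw [mem_filter]
      refine ⟨mem_univ _, ⟨v, mem_singleton_self v⟩, ?_⟩
      intro h
      have := congrArg Finset.card h
      simp at this
    refine ⟨fun S => if S ∈ T then 1 / 2 else 0, ⟨fun S => ?_, fun u v huv => ?_⟩, ?_⟩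
    · dsimp only
      split_ifs
      · constructor <;> norm_num
      · constructor <;> norm_num
    · rw [← Finset.sum_filter]
      have hsub : ((cuts (Fin 10)).filter (fun S => ¬ (u ∈ S ↔ v ∈ S))).filter (fun S => S ∈ T) ⊆
          {{u}, {v}} := by
        intro S hS
        rw [mem_filter, mem_filter] at hS
        obtain ⟨⟨-, h1⟩, h2⟩ := hS
        simp only [T, mem_image, mem_univ, true_and] at h2
        obtain ⟨w, rfl⟩ := h2
        rw [mem_insert, mem_singleton]
        simp only [mem_singleton] at h1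
        by_cases hu : u = w
        · left; rw [hu]
        · right
          by_cases hv : v = w
          · rw [hv]
          · exact absurd ⟨fun h => absurd h hu, fun h => absurd h hv⟩ h1
      have hcard := card_le_card hsub
      have h2 : ({{u}, {v}} : Finset (Finset (Fin 10))).card ≤ 2 := Finset.card_le_two
      rw [Finset.sum_const, nsmul_eq_mul]
      have : ((((cuts (Fin 10)).filter (fun S => ¬ (u ∈ S ↔ v ∈ S))).filter
        (fun S => S ∈ T)).card : ℝ) ≤ 2 := by exact_mod_cast hcard.trans h2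
      linarith
    · rw [← Finset.sum_filter]
      have : (cuts (Fin 10)).filter (fun S => S ∈ T) = T := by
        ext S
        rw [mem_filter]
        exact ⟨fun h => h.2, fun h => ⟨hT h, h⟩⟩
      rw [this, Finset.sum_const, nsmul_eq_mul]
      have hc : T.card = 10 := by
        simp only [T]
        rw [Finset.card_image_of_injective _ Finset.singleton_injective]
        simp
      rw [hc]; norm_num

lemma petersen_fc : fc petersen = 5 := le_antisymm petersen_fc_le le_petersen_fc

lemma petersen_connected : petersen.Connected := by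
  have h0 : ∀ v : Fin 10, petersen.Reachable 0 v := by
    have s : ∀ {u v}, petersen.Adj u v → petersen.Reachable 0 u → petersen.Reachable 0 v :=
      fun h h' => h'.trans h.reachable
    have r0 : petersen.Reachable 0 0 := SimpleGraph.Reachable.refl _
    have r1 : petersen.Reachable 0 1 := s (u := 0) (by decide) r0
    have r2 : petersen.Reachable 0 2 := s (u := 1) (by decide) r1
    have r3 : petersen.Reachable 0 3 := s (u := 2) (by decide) r2
    have r4 : petersen.Reachable 0 4 := s (u := 3) (by decide) r3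
    have r5 : petersen.Reachable 0 5 := s (u := 0) (by decide) r0
    have r6 : petersen.Reachable 0 6 := s (u := 1) (by decide) r1
    have r7 : petersen.Reachable 0 7 := s (u := 2) (by decide) r2
    have r8 : petersen.Reachable 0 8 := s (u := 3) (by decide) r3
    have r9 : petersen.Reachable 0 9 := s (u := 4) (by decide) r4
    intro v
    fin_cases v <;> assumption
  have : Nonempty (Fin 10) := ⟨0⟩
  exact ⟨fun u v => (h0 u).symm.trans (h0 v)⟩

/-! ### The Petersen graph is not Hamiltonian -/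

lemma two_of_card (h : Fin 10 → Bool) (a b c : Fin 10) (hab : a ≠ b) (hac : a ≠ c) (hbc : b ≠ c)
    (hz : ∀ w, w ≠ a → w ≠ b → w ≠ c → h w = false)
    (hc : (univ.filter fun w => h w = true).card = 2) : two (h a) (h b) (h c) = true := by
  have e : (univ.filter fun w => h w = true) = ({a, b, c} : Finset (Fin 10)).filter fun w => h w = true := by
    ext w
    simp only [mem_filter, mem_univ, true_and, mem_insert, mem_singleton]
    constructor
    · intro hw
      refine ⟨?_, hw⟩
      by_contra hcon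
      push Not at hcon
      rw [hz w hcon.1 hcon.2.1 hcon.2.2] at hw
      cases hw
    · exact fun hw => hw.2
  rw [e] at hc
  cases ha : h a <;> cases hb : h b <;> cases hcc : h c <;>
    simp [Finset.filter_insert, Finset.filter_singleton, ha, hb, hcc, hab, hac, hbc] at hc <;> rfl

/-- The six candidate sides. -/
def S6 : List (Finset (Fin 10)) :=
  [{0, 4, 5, 7, 9}, {0, 1, 2, 5, 7}, {0, 1, 4, 6, 9}, {0, 3, 4, 5, 8}, {0, 1, 5, 6, 8},
    {0, 1, 2, 3, 4}]

set_option maxRecDepth 100000 in
lemma S6_cuts : ∀ S ∈ S6, S.Nonempty ∧ S ≠ univ := by decide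

/-- A 2-regular spanning subgraph of the Petersen graph misses a cut. -/
lemma no_two_factor (h : Fin 10 → Fin 10 → Bool) (hs : ∀ a b, h a b = h b a)
    (hadj : ∀ a b, h a b = true → petersen.Adj a b)
    (hd : ∀ v, (univ.filter fun w => h v w = true).card = 2) :
    ∃ S ∈ S6, ∀ a ∈ S, ∀ b ∉ S, h a b = false := by
  have hz : ∀ v w, ¬ petersen.Adj v w → h v w = false := by
    intro v w hvw
    cases hh : h v w
    · rfl
    · exact absurd (hadj v w hh) hvw
  have t : ∀ v a b c, a ≠ b → a ≠ c → b ≠ c → (∀ w, w ≠ a → w ≠ b → w ≠ c → ¬ petersen.Adj v w) →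
      two (h v a) (h v b) (h v c) = true := fun v a b c h1 h2 h3 h4 =>
    two_of_card (h v) a b c h1 h2 h3 (fun w w1 w2 w3 => hz v w (h4 w w1 w2 w3)) (hd v)
  have t0 := t 0 1 4 5 (by decide) (by decide) (by decide) (by decide)
  have t1 := t 1 0 2 6 (by decide) (by decide) (by decide) (by decide)
  have t2 := t 2 1 3 7 (by decide) (by decide) (by decide) (by decide)
  have t3 := t 3 2 4 8 (by decide) (by decide) (by decide) (by decide)
  have t4 := t 4 3 0 9 (by decide) (by decide) (by decide) (by decide)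
  have t5 := t 5 0 7 8 (by decide) (by decide) (by decide) (by decide)
  have t6 := t 6 1 9 8 (by decide) (by decide) (by decide) (by decide)
  have t7 := t 7 2 5 9 (by decide) (by decide) (by decide) (by decide)
  have t8 := t 8 3 6 5 (by decide) (by decide) (by decide) (by decide)
  have t9 := t 9 4 7 6 (by decide) (by decide) (by decide) (by decide)
  rw [hs 1 0] at t1
  rw [hs 2 1] at t2
  rw [hs 3 2] at t3
  rw [hs 4 3, hs 4 0] at t4
  rw [hs 5 0] at t5
  rw [hs 6 1] at t6
  rw [hs 7 2, hs 7 5] at t7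
  rw [hs 8 3, hs 8 6, hs 8 5] at t8
  rw [hs 9 4, hs 9 7, hs 9 6] at t9
  have key := ham1 (h 0 1) (h 1 2) (h 2 3) (h 3 4) (h 0 4) (h 0 5) (h 1 6) (h 2 7) (h 3 8) (h 4 9)
    (h 5 7) (h 7 9) (h 6 9) (h 6 8) (h 5 8) t0 t1 t2 t3 t4 t5 t7 t6 t8 t9
  -- from the missing edges to the missing cut
  have fin : ∀ (S : Finset (Fin 10)) (l : List (Fin 10 × Fin 10)), S ∈ S6 →
      (∀ a ∈ S, ∀ b ∉ S, petersen.Adj a b → (a, b) ∈ l ∨ (b, a) ∈ l) →
      (∀ p ∈ l, h p.1 p.2 = false) → ∃ S ∈ S6, ∀ a ∈ S, ∀ b ∉ S, h a b = false := by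
    intro S l hS hl hf
    refine ⟨S, hS, fun a ha b hb => ?_⟩
    by_cases hab : petersen.Adj a b
    · rcases hl a ha b hb hab with h1 | h1
      · exact hf _ h1
      · rw [hs]; exact hf _ h1
    · exact hz a b hab
  simp only [Bool.and_eq_true, Bool.not_eq_true'] at key
  rcases key with k | k | k | k | k | k
  · exact fin {0, 4, 5, 7, 9} [(0, 1), (3, 4), (5, 8), (2, 7), (6, 9)] (by decide) (by decide)
      (by simp [k])
  · exact fin {0, 1, 2, 5, 7} [(0, 4), (1, 6), (2, 3), (5, 8), (7, 9)] (by decide) (by decide)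
      (by simp [k])
  · exact fin {0, 1, 4, 6, 9} [(0, 5), (1, 2), (3, 4), (6, 8), (7, 9)] (by decide) (by decide)
      (by simp [k])
  · exact fin {0, 3, 4, 5, 8} [(0, 1), (2, 3), (4, 9), (5, 7), (6, 8)] (by decide) (by decide)
      (by simp [k])
  · exact fin {0, 1, 5, 6, 8} [(0, 4), (1, 2), (5, 7), (6, 9), (3, 8)] (by decide) (by decide)
      (by simp [k])
  · exact fin {0, 1, 2, 3, 4} [(0, 5), (1, 6), (2, 7), (3, 8), (4, 9)] (by decide) (by decide)
      (by simp [k])

theorem petersen_not_hamiltonian : ¬ petersen.IsHamiltonian := by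
  classical
  intro hH
  obtain ⟨a, p, hp⟩ := hH (by simp)
  let h : Fin 10 → Fin 10 → Bool := fun u v => decide (p.toSubgraph.Adj u v)
  have hs : ∀ u v, h u v = h v u := by
    intro u v
    simp only [h, SimpleGraph.Subgraph.adj_comm]
  have hadj : ∀ u v, h u v = true → petersen.Adj u v := by
    intro u v huv
    exact (of_decide_eq_true huv).adj_sub
  have hd : ∀ v, (univ.filter fun w => h v w = true).card = 2 := by
    intro v
    have h1 := hp.isCycle.ncard_neighborSet_toSubgraph_eq_two (hp.mem_support v)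
    rw [← Set.ncard_coe_finset, ← h1]
    congr 1
    ext w
    simp [h]
  obtain ⟨S, hS, hf⟩ := no_two_factor h hs hadj hd
  obtain ⟨⟨u, hu⟩, hne⟩ := S6_cuts S hS
  obtain ⟨w, hw⟩ : ∃ w, w ∉ S := by
    by_contra hc
    push Not at hc
    exact hne (Finset.eq_univ_iff_forall.mpr hc)
  -- the cycle crosses the cut
  have hcross : ∃ d ∈ p.darts, (d.fst ∈ S ∧ d.snd ∉ S) ∨ (d.fst ∉ S ∧ d.snd ∈ S) := by
    by_cases ha : a ∈ S
    · obtain ⟨d, hd1, h1, h2⟩ := (p.takeUntil w (hp.mem_support w)).exists_boundary_dart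
        (S : Set (Fin 10)) ha hw
      exact ⟨d, SimpleGraph.Walk.darts_takeUntil_subset_darts _ _ hd1, Or.inl ⟨h1, h2⟩⟩
    · obtain ⟨d, hd1, h1, h2⟩ := (p.takeUntil u (hp.mem_support u)).exists_boundary_dart
        ((S : Set (Fin 10))ᶜ) ha (by simpa using hu)
      exact ⟨d, SimpleGraph.Walk.darts_takeUntil_subset_darts _ _ hd1, Or.inr ⟨h1, by simpa using h2⟩⟩
  obtain ⟨d, hd1, hd2⟩ := hcross
  have hadj' : p.toSubgraph.Adj d.fst d.snd := by
    rw [← SimpleGraph.Subgraph.mem_edgeSet, SimpleGraph.Walk.mem_edges_toSubgraph]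
    exact List.mem_map_of_mem (f := SimpleGraph.Dart.edge) hd1
  rcases hd2 with ⟨h1, h2⟩ | ⟨h1, h2⟩
  · have := hf _ h1 _ h2
    simp only [h, decide_eq_false_iff_not] at this
    exact this hadj'
  · have := hf _ h2 _ h1
    simp only [h, decide_eq_false_iff_not] at this
    exact this hadj'.symm

end Q225.EqG
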