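import Pool.Agent.Q225.EqPetersen

/-! `c₂` of the Petersen graph. -/

namespace Q225.EqG

open Finset Filter

/-! ### `c₂ = 11` -/

lemma crossE_iff (S : Finset (Fin 10)) (a b : Fin 10) : CrossE S s(a, b) ↔ ¬ (a ∈ S ↔ b ∈ S) := by
  constructor
  · rintro ⟨u, v, h, hu, hv⟩
    rw [Sym2.eq_iff] at h
    rcases h with ⟨rfl, rfl⟩ | ⟨rfl, rfl⟩
    · exact fun h => hv (h.1 hu)
    · exact fun h => hv (h.2 hu)
  · intro h
    by_cases ha : a ∈ S
    · exact ⟨a, b, rfl, ha, fun hb => h ⟨fun _ => hb, fun _ => ha⟩⟩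
    · refine ⟨b, a, Sym2.eq_swap, ?_, ha⟩
      by_contra hb
      exact h ⟨fun h' => absurd h' ha, fun h' => absurd h' hb⟩

set_option maxRecDepth 100000 in
lemma E15_nodup : (E15.map fun p => s(p.1, p.2)).Nodup := by decide

lemma sum_edges (m : Sym2 (Fin 10) → ℕ) (hm : ∀ e, e ∉ petersen.edgeSet → m e = 0) :
    ∑ e, m e = (E15.map fun p => m s(p.1, p.2)).sum := by
  classical
  have h1 : (E15.map fun p => m s(p.1, p.2)).sum =
      ∑ e ∈ (E15.map fun p => s(p.1, p.2)).toFinset, m e := by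
    rw [List.sum_toFinset _ E15_nodup, List.map_map]
    rfl
  rw [h1]
  symm
  apply Finset.sum_subset (subset_univ _)
  intro e _ he
  apply hm
  intro hc
  apply he
  rw [List.mem_toFinset, List.mem_map]
  induction e using Sym2.ind with
  | _ a b =>
    rcases hc with h | h
    · exact ⟨(a, b), h, rfl⟩
    · exact ⟨(b, a), h, Sym2.eq_swap⟩

/-- cut sums -/
def csum (m : Sym2 (Fin 10) → ℕ) (S : Finset (Fin 10)) : ℕ :=
  (E15.map fun p => if (p.1 ∈ S ↔ p.2 ∈ S) then 0 else m s(p.1, p.2)).sum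

open Classical in
lemma cut_sum (m : Sym2 (Fin 10) → ℕ) (hm : ∀ e, e ∉ petersen.edgeSet → m e = 0)
    (S : Finset (Fin 10)) : ∑ e ∈ univ.filter (fun e => CrossE S e), m e = csum m S := by
  rw [Finset.sum_filter]
  rw [sum_edges (fun e => if CrossE S e then m e else 0) (fun e he => by
    simp only [hm e he, ite_self])]
  unfold csum
  congr 1
  apply List.map_congr_left
  intro p _
  by_cases h : (p.1 ∈ S ↔ p.2 ∈ S)
  · rw [if_neg (fun hc => (crossE_iff S _ _).1 hc h), if_pos h]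
  · rw [if_pos ((crossE_iff S _ _).2 h), if_neg h]

lemma two_of_sum (x y z : ℕ) (hx : x ≤ 1) (hy : y ≤ 1) (hz : z ≤ 1) (h : x + y + z = 2) :
    two (decide (x = 1)) (decide (y = 1)) (decide (z = 1)) = true := by
  interval_cases x <;> interval_cases y <;> interval_cases z <;> first | rfl | omega

lemma nonempty_proper (S : Finset (Fin 10)) (h1 : S.Nonempty) (h2 : S.card < 10) :
    S ∈ cuts (Fin 10) := by
  unfold cuts
  rw [mem_filter]
  refine ⟨mem_univ _, h1, ?_⟩
  rintro rfl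
  simp at h2

/-- the arithmetic behind `c₂ ≥ 11` -/
lemma arith (x0 x1 x2 x3 x4 x5 x6 x7 x8 x9 x10 x11 x12 x13 x14 : ℕ)
    (hcon : x0 + x1 + x2 + x3 + x4 + x5 + x6 + x7 + x8 + x9 + x10 + x11 + x12 + x13 + x14 ≤ 10)
    (v0 : 2 ≤ x0 + x4 + x5)
    (v1 : 2 ≤ x0 + x1 + x6)
    (v2 : 2 ≤ x1 + x2 + x7)
    (v3 : 2 ≤ x2 + x3 + x8)
    (v4 : 2 ≤ x3 + x4 + x9)
    (v5 : 2 ≤ x5 + x10 + x14)
    (v6 : 2 ≤ x6 + x12 + x13)
    (v7 : 2 ≤ x7 + x10 + x11)
    (v8 : 2 ≤ x8 + x13 + x14)
    (v9 : 2 ≤ x9 + x11 + x12)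
    (p0 : 2 ≤ x1 + x4 + x5 + x6)
    (p1 : 2 ≤ x0 + x2 + x6 + x7)
    (p2 : 2 ≤ x1 + x3 + x7 + x8)
    (p3 : 2 ≤ x2 + x4 + x8 + x9)
    (p4 : 2 ≤ x0 + x3 + x5 + x9)
    (p5 : 2 ≤ x0 + x4 + x10 + x14)
    (p6 : 2 ≤ x0 + x1 + x12 + x13)
    (p7 : 2 ≤ x1 + x2 + x10 + x11)
    (p8 : 2 ≤ x2 + x3 + x13 + x14)
    (p9 : 2 ≤ x3 + x4 + x11 + x12)
    (p10 : 2 ≤ x5 + x7 + x11 + x14)
    (p11 : 2 ≤ x7 + x9 + x10 + x12)
    (p12 : 2 ≤ x6 + x9 + x11 + x13)
    (p13 : 2 ≤ x6 + x8 + x12 + x14)
    (p14 : 2 ≤ x5 + x8 + x10 + x13)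
    (c0 : 2 ≤ x0 + x3 + x7 + x12 + x14)
    (c1 : 2 ≤ x2 + x4 + x6 + x11 + x14)
    (c2 : 2 ≤ x1 + x3 + x5 + x11 + x13)
    (c3 : 2 ≤ x0 + x2 + x9 + x10 + x13)
    (c4 : 2 ≤ x1 + x4 + x8 + x10 + x12)
    (c5 : 2 ≤ x5 + x6 + x7 + x8 + x9)
    : False := by
  have d0 : x0 + x4 + x5 = 2 := le_antisymm
    (by linarith only [hcon, v0, v1, v2, v3, v4, v5, v6, v7, v8, v9]) v0
  have d1 : x0 + x1 + x6 = 2 := le_antisymm
    (by linarith only [hcon, v0, v1, v2, v3, v4, v5, v6, v7, v8, v9]) v1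
  have d2 : x1 + x2 + x7 = 2 := le_antisymm
    (by linarith only [hcon, v0, v1, v2, v3, v4, v5, v6, v7, v8, v9]) v2
  have d3 : x2 + x3 + x8 = 2 := le_antisymm
    (by linarith only [hcon, v0, v1, v2, v3, v4, v5, v6, v7, v8, v9]) v3
  have d4 : x3 + x4 + x9 = 2 := le_antisymm
    (by linarith only [hcon, v0, v1, v2, v3, v4, v5, v6, v7, v8, v9]) v4
  have d5 : x5 + x10 + x14 = 2 := le_antisymm
    (by linarith only [hcon, v0, v1, v2, v3, v4, v5, v6, v7, v8, v9]) v5
  have d6 : x6 + x12 + x13 = 2 := le_antisymm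
    (by linarith only [hcon, v0, v1, v2, v3, v4, v5, v6, v7, v8, v9]) v6
  have d7 : x7 + x10 + x11 = 2 := le_antisymm
    (by linarith only [hcon, v0, v1, v2, v3, v4, v5, v6, v7, v8, v9]) v7
  have d8 : x8 + x13 + x14 = 2 := le_antisymm
    (by linarith only [hcon, v0, v1, v2, v3, v4, v5, v6, v7, v8, v9]) v8
  have d9 : x9 + x11 + x12 = 2 := le_antisymm
    (by linarith only [hcon, v0, v1, v2, v3, v4, v5, v6, v7, v8, v9]) v9
  clear hcon v0 v1 v2 v3 v4 v5 v6 v7 v8 v9
  have u0 : x0 ≤ 1 := by linarith only [p0, d0, d1]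
  have u1 : x1 ≤ 1 := by linarith only [p1, d1, d2]
  have u2 : x2 ≤ 1 := by linarith only [p2, d2, d3]
  have u3 : x3 ≤ 1 := by linarith only [p3, d3, d4]
  have u4 : x4 ≤ 1 := by linarith only [p4, d0, d4]
  have u5 : x5 ≤ 1 := by linarith only [p5, d0, d5]
  have u6 : x6 ≤ 1 := by linarith only [p6, d1, d6]
  have u7 : x7 ≤ 1 := by linarith only [p7, d2, d7]
  have u8 : x8 ≤ 1 := by linarith only [p8, d3, d8]
  have u9 : x9 ≤ 1 := by linarith only [p9, d4, d9]
  have u10 : x10 ≤ 1 := by linarith only [p10, d5, d7]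
  have u11 : x11 ≤ 1 := by linarith only [p11, d7, d9]
  have u12 : x12 ≤ 1 := by linarith only [p12, d6, d9]
  have u13 : x13 ≤ 1 := by linarith only [p13, d6, d8]
  have u14 : x14 ≤ 1 := by linarith only [p14, d5, d8]
  clear p0 p1 p2 p3 p4 p5 p6 p7 p8 p9 p10 p11 p12 p13 p14
  have H := ham1 (decide (x0 = 1)) (decide (x1 = 1)) (decide (x2 = 1)) (decide (x3 = 1))
    (decide (x4 = 1)) (decide (x5 = 1)) (decide (x6 = 1)) (decide (x7 = 1)) (decide (x8 = 1))
    (decide (x9 = 1)) (decide (x10 = 1)) (decide (x11 = 1)) (decide (x12 = 1)) (decide (x13 = 1))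
    (decide (x14 = 1))
    (two_of_sum _ _ _ u0 u4 u5 d0) (two_of_sum _ _ _ u0 u1 u6 d1)
    (two_of_sum _ _ _ u1 u2 u7 d2) (two_of_sum _ _ _ u2 u3 u8 d3)
    (two_of_sum _ _ _ u3 u4 u9 d4) (two_of_sum _ _ _ u5 u10 u14 d5)
    (two_of_sum _ _ _ u7 u10 u11 d7) (two_of_sum _ _ _ u6 u12 u13 d6)
    (two_of_sum _ _ _ u8 u13 u14 d8) (two_of_sum _ _ _ u9 u11 u12 d9)
  have z : ∀ x : ℕ, x ≤ 1 → ¬ x = 1 → x = 0 := fun x h h' => by omega
  simp only [Bool.and_eq_true, Bool.not_eq_true', decide_eq_false_iff_not] at H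
  rcases H with H | H | H | H | H | H
  · obtain ⟨⟨⟨⟨h1, h2⟩, h3⟩, h4⟩, h5⟩ := H
    have z0 := z _ u0 h1
    have z1 := z _ u3 h2
    have z2 := z _ u14 h3
    have z3 := z _ u7 h4
    have z4 := z _ u12 h5
    linarith only [c0, z0, z1, z2, z3, z4]
  · obtain ⟨⟨⟨⟨h1, h2⟩, h3⟩, h4⟩, h5⟩ := H
    have z0 := z _ u4 h1
    have z1 := z _ u6 h2
    have z2 := z _ u2 h3
    have z3 := z _ u14 h4
    have z4 := z _ u11 h5
    linarith only [c1, z0, z1, z2, z3, z4]
  · obtain ⟨⟨⟨⟨h1, h2⟩, h3⟩, h4⟩, h5⟩ := H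
    have z0 := z _ u5 h1
    have z1 := z _ u1 h2
    have z2 := z _ u3 h3
    have z3 := z _ u13 h4
    have z4 := z _ u11 h5
    linarith only [c2, z0, z1, z2, z3, z4]
  · obtain ⟨⟨⟨⟨h1, h2⟩, h3⟩, h4⟩, h5⟩ := H
    have z0 := z _ u0 h1
    have z1 := z _ u2 h2
    have z2 := z _ u9 h3
    have z3 := z _ u10 h4
    have z4 := z _ u13 h5
    linarith only [c3, z0, z1, z2, z3, z4]
  · obtain ⟨⟨⟨⟨h1, h2⟩, h3⟩, h4⟩, h5⟩ := H
    have z0 := z _ u4 h1
    have z1 := z _ u1 h2
    have z2 := z _ u10 h3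
    have z3 := z _ u12 h4
    have z4 := z _ u8 h5
    linarith only [c4, z0, z1, z2, z3, z4]
  · obtain ⟨⟨⟨⟨h1, h2⟩, h3⟩, h4⟩, h5⟩ := H
    have z0 := z _ u5 h1
    have z1 := z _ u6 h2
    have z2 := z _ u7 h3
    have z3 := z _ u8 h4
    have z4 := z _ u9 h5
    linarith only [c5, z0, z1, z2, z3, z4]

lemma csum_eq (m : Sym2 (Fin 10) → ℕ) (S : Finset (Fin 10)) (l : List (Fin 10 × Fin 10))
    (h : E15.filter (fun p => ¬ (p.1 ∈ S ↔ p.2 ∈ S)) = l) :
    csum m S = (l.map fun p => m s(p.1, p.2)).sum := by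
  rw [← h]
  unfold csum
  induction E15 with
  | nil => rfl
  | cons p t ih =>
    rw [List.map_cons, List.sum_cons, ih]
    by_cases hp : (p.1 ∈ S ↔ p.2 ∈ S)
    · rw [if_pos hp, List.filter_cons_of_neg (by simpa using hp), zero_add]
    · rw [if_neg hp, List.filter_cons_of_pos (by simpa using hp), List.map_cons, List.sum_cons]

lemma cut_ineq (m : Sym2 (Fin 10) → ℕ) (hc : ∀ S ∈ cuts (Fin 10), 2 ≤ csum m S)
    (S : Finset (Fin 10)) (l : List (Fin 10 × Fin 10))
    (h : E15.filter (fun p => ¬ (p.1 ∈ S ↔ p.2 ∈ S)) = l) (h1 : S.Nonempty) (h2 : S.card < 10) :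
    2 ≤ (l.map fun p => m s(p.1, p.2)).sum := by
  rw [← csum_eq m S l h]
  exact hc S (nonempty_proper S h1 h2)

set_option maxRecDepth 100000 in
lemma c2_lower (m : Sym2 (Fin 10) → ℕ)
    (hc : ∀ S ∈ cuts (Fin 10), 2 ≤ csum m S) :
    11 ≤ (E15.map fun p => m s(p.1, p.2)).sum := by
  by_contra hcon
  push Not at hcon
  have hcon' : (E15.map fun p => m s(p.1, p.2)).sum ≤ 10 := by omega
  clear hcon
  simp only [E15, List.map_cons, List.map_nil, List.sum_cons, List.sum_nil] at hcon'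
  have key := cut_ineq m hc
  have v0 := key {0} [(0, 1), (0, 4), (0, 5)] (by decide) (by decide) (by decide)
  have v1 := key {1} [(0, 1), (1, 2), (1, 6)] (by decide) (by decide) (by decide)
  have v2 := key {2} [(1, 2), (2, 3), (2, 7)] (by decide) (by decide) (by decide)
  have v3 := key {3} [(2, 3), (3, 4), (3, 8)] (by decide) (by decide) (by decide)
  have v4 := key {4} [(3, 4), (0, 4), (4, 9)] (by decide) (by decide) (by decide)
  have v5 := key {5} [(0, 5), (5, 7), (5, 8)] (by decide) (by decide) (by decide)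
  have v6 := key {6} [(1, 6), (6, 9), (6, 8)] (by decide) (by decide) (by decide)
  have v7 := key {7} [(2, 7), (5, 7), (7, 9)] (by decide) (by decide) (by decide)
  have v8 := key {8} [(3, 8), (6, 8), (5, 8)] (by decide) (by decide) (by decide)
  have v9 := key {9} [(4, 9), (7, 9), (6, 9)] (by decide) (by decide) (by decide)
  have p0 := key {0, 1} [(1, 2), (0, 4), (0, 5), (1, 6)] (by decide) (by decide) (by decide)
  have p1 := key {1, 2} [(0, 1), (2, 3), (1, 6), (2, 7)] (by decide) (by decide) (by decide)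
  have p2 := key {2, 3} [(1, 2), (3, 4), (2, 7), (3, 8)] (by decide) (by decide) (by decide)
  have p3 := key {3, 4} [(2, 3), (0, 4), (3, 8), (4, 9)] (by decide) (by decide) (by decide)
  have p4 := key {0, 4} [(0, 1), (3, 4), (0, 5), (4, 9)] (by decide) (by decide) (by decide)
  have p5 := key {0, 5} [(0, 1), (0, 4), (5, 7), (5, 8)] (by decide) (by decide) (by decide)
  have p6 := key {1, 6} [(0, 1), (1, 2), (6, 9), (6, 8)] (by decide) (by decide) (by decide)
  have p7 := key {2, 7} [(1, 2), (2, 3), (5, 7), (7, 9)] (by decide) (by decide) (by decide)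
  have p8 := key {3, 8} [(2, 3), (3, 4), (6, 8), (5, 8)] (by decide) (by decide) (by decide)
  have p9 := key {4, 9} [(3, 4), (0, 4), (7, 9), (6, 9)] (by decide) (by decide) (by decide)
  have p10 := key {5, 7} [(0, 5), (2, 7), (7, 9), (5, 8)] (by decide) (by decide) (by decide)
  have p11 := key {7, 9} [(2, 7), (4, 9), (5, 7), (6, 9)] (by decide) (by decide) (by decide)
  have p12 := key {6, 9} [(1, 6), (4, 9), (7, 9), (6, 8)] (by decide) (by decide) (by decide)
  have p13 := key {6, 8} [(1, 6), (3, 8), (6, 9), (5, 8)] (by decide) (by decide) (by decide)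
  have p14 := key {5, 8} [(0, 5), (3, 8), (5, 7), (6, 8)] (by decide) (by decide) (by decide)
  have c0 := key {0, 4, 5, 7, 9} [(0, 1), (3, 4), (2, 7), (6, 9), (5, 8)] (by decide) (by decide) (by decide)
  have c1 := key {0, 1, 2, 5, 7} [(2, 3), (0, 4), (1, 6), (7, 9), (5, 8)] (by decide) (by decide) (by decide)
  have c2 := key {0, 1, 4, 6, 9} [(1, 2), (3, 4), (0, 5), (7, 9), (6, 8)] (by decide) (by decide) (by decide)
  have c3 := key {0, 3, 4, 5, 8} [(0, 1), (2, 3), (4, 9), (5, 7), (6, 8)] (by decide) (by decide) (by decide)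
  have c4 := key {0, 1, 5, 6, 8} [(1, 2), (0, 4), (3, 8), (5, 7), (6, 9)] (by decide) (by decide) (by decide)
  have c5 := key {0, 1, 2, 3, 4} [(0, 5), (1, 6), (2, 7), (3, 8), (4, 9)] (by decide) (by decide) (by decide)
  clear key
  simp only [List.map_cons, List.map_nil, List.sum_cons, List.sum_nil, add_zero] at v0
  simp only [List.map_cons, List.map_nil, List.sum_cons, List.sum_nil, add_zero] at v1
  simp only [List.map_cons, List.map_nil, List.sum_cons, List.sum_nil, add_zero] at v2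
  simp only [List.map_cons, List.map_nil, List.sum_cons, List.sum_nil, add_zero] at v3
  simp only [List.map_cons, List.map_nil, List.sum_cons, List.sum_nil, add_zero] at v4
  simp only [List.map_cons, List.map_nil, List.sum_cons, List.sum_nil, add_zero] at v5
  simp only [List.map_cons, List.map_nil, List.sum_cons, List.sum_nil, add_zero] at v6
  simp only [List.map_cons, List.map_nil, List.sum_cons, List.sum_nil, add_zero] at v7
  simp only [List.map_cons, List.map_nil, List.sum_cons, List.sum_nil, add_zero] at v8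
  simp only [List.map_cons, List.map_nil, List.sum_cons, List.sum_nil, add_zero] at v9
  simp only [List.map_cons, List.map_nil, List.sum_cons, List.sum_nil, add_zero] at p0
  simp only [List.map_cons, List.map_nil, List.sum_cons, List.sum_nil, add_zero] at p1
  simp only [List.map_cons, List.map_nil, List.sum_cons, List.sum_nil, add_zero] at p2
  simp only [List.map_cons, List.map_nil, List.sum_cons, List.sum_nil, add_zero] at p3
  simp only [List.map_cons, List.map_nil, List.sum_cons, List.sum_nil, add_zero] at p4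
  simp only [List.map_cons, List.map_nil, List.sum_cons, List.sum_nil, add_zero] at p5
  simp only [List.map_cons, List.map_nil, List.sum_cons, List.sum_nil, add_zero] at p6
  simp only [List.map_cons, List.map_nil, List.sum_cons, List.sum_nil, add_zero] at p7
  simp only [List.map_cons, List.map_nil, List.sum_cons, List.sum_nil, add_zero] at p8
  simp only [List.map_cons, List.map_nil, List.sum_cons, List.sum_nil, add_zero] at p9
  simp only [List.map_cons, List.map_nil, List.sum_cons, List.sum_nil, add_zero] at p10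
  simp only [List.map_cons, List.map_nil, List.sum_cons, List.sum_nil, add_zero] at p11
  simp only [List.map_cons, List.map_nil, List.sum_cons, List.sum_nil, add_zero] at p12
  simp only [List.map_cons, List.map_nil, List.sum_cons, List.sum_nil, add_zero] at p13
  simp only [List.map_cons, List.map_nil, List.sum_cons, List.sum_nil, add_zero] at p14
  simp only [List.map_cons, List.map_nil, List.sum_cons, List.sum_nil, add_zero] at c0
  simp only [List.map_cons, List.map_nil, List.sum_cons, List.sum_nil, add_zero] at c1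
  simp only [List.map_cons, List.map_nil, List.sum_cons, List.sum_nil, add_zero] at c2
  simp only [List.map_cons, List.map_nil, List.sum_cons, List.sum_nil, add_zero] at c3
  simp only [List.map_cons, List.map_nil, List.sum_cons, List.sum_nil, add_zero] at c4
  simp only [List.map_cons, List.map_nil, List.sum_cons, List.sum_nil, add_zero] at c5
  generalize m s(0, 1) = x0 at *
  generalize m s(1, 2) = x1 at *
  generalize m s(2, 3) = x2 at *
  generalize m s(3, 4) = x3 at *
  generalize m s(0, 4) = x4 at *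
  generalize m s(0, 5) = x5 at *
  generalize m s(1, 6) = x6 at *
  generalize m s(2, 7) = x7 at *
  generalize m s(3, 8) = x8 at *
  generalize m s(4, 9) = x9 at *
  generalize m s(5, 7) = x10 at *
  generalize m s(7, 9) = x11 at *
  generalize m s(6, 9) = x12 at *
  generalize m s(6, 8) = x13 at *
  generalize m s(5, 8) = x14 at *
  exact arith x0 x1 x2 x3 x4 x5 x6 x7 x8 x9 x10 x11 x12 x13 x14 (by linarith only [hcon'])
    (by linarith only [v0])
    (by linarith only [v1])
    (by linarith only [v2])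
    (by linarith only [v3])
    (by linarith only [v4])
    (by linarith only [v5])
    (by linarith only [v6])
    (by linarith only [v7])
    (by linarith only [v8])
    (by linarith only [v9])
    (by linarith only [p0])
    (by linarith only [p1])
    (by linarith only [p2])
    (by linarith only [p3])
    (by linarith only [p4])
    (by linarith only [p5])
    (by linarith only [p6])
    (by linarith only [p7])
    (by linarith only [p8])
    (by linarith only [p9])
    (by linarith only [p10])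
    (by linarith only [p11])
    (by linarith only [p12])
    (by linarith only [p13])
    (by linarith only [p14])
    (by linarith only [c0])
    (by linarith only [c1])
    (by linarith only [c2])
    (by linarith only [c3])
    (by linarith only [c4])
    (by linarith only [c5])

/-- an eleven-edge 2-edge-connected spanning subgraph -/
def m11 (e : Sym2 (Fin 10)) : ℕ :=
  if e ∈ petersen.edgeSet ∧ e ≠ s(0, 4) ∧ e ≠ s(2, 7) ∧ e ≠ s(6, 9) ∧ e ≠ s(5, 8) then 1 else 0

lemma m11_val (a b : Fin 10) : m11 s(a, b) = if (petersen.Adj a b ∧ s(a, b) ≠ s(0, 4) ∧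
      s(a, b) ≠ s(2, 7) ∧ s(a, b) ≠ s(6, 9) ∧ s(a, b) ≠ s(5, 8)) then 1 else 0 := rfl

lemma m11_le (e : Sym2 (Fin 10)) : m11 e ≤ 2 := by
  unfold m11
  split_ifs <;> decide

lemma m11_off (e : Sym2 (Fin 10)) (he : e ∉ petersen.edgeSet) : m11 e = 0 := by
  unfold m11
  rw [if_neg (fun h => he h.1)]

open Classical in
lemma m11_cut (S : Finset (Fin 10)) (hS : S ∈ cuts (Fin 10)) :
    2 ≤ ∑ e ∈ univ.filter (fun e => CrossE S e), m11 e := by
  rw [cut_sum m11 m11_off]
  have h := cut2 _ _ _ _ _ _ _ _ _ _ (bS_and hS) (bS_or hS)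
  have hb : ∀ a b : Fin 10, (bS S a ^^ bS S b).toNat = if (a ∈ S ↔ b ∈ S) then 0 else 1 := by
    intro a b
    by_cases ha : a ∈ S <;> by_cases hb : b ∈ S <;> simp [bS, ha, hb]
  simp only [hb] at h
  unfold csum E15
  simp only [List.map_cons, List.map_nil, List.sum_cons, List.sum_nil]
  have k01 : m11 s(0, 1) = 1 := by rw [m11_val, if_pos]; decide
  have k12 : m11 s(1, 2) = 1 := by rw [m11_val, if_pos]; decide
  have k23 : m11 s(2, 3) = 1 := by rw [m11_val, if_pos]; decide
  have k34 : m11 s(3, 4) = 1 := by rw [m11_val, if_pos]; decide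
  have k05 : m11 s(0, 5) = 1 := by rw [m11_val, if_pos]; decide
  have k16 : m11 s(1, 6) = 1 := by rw [m11_val, if_pos]; decide
  have k38 : m11 s(3, 8) = 1 := by rw [m11_val, if_pos]; decide
  have k49 : m11 s(4, 9) = 1 := by rw [m11_val, if_pos]; decide
  have k57 : m11 s(5, 7) = 1 := by rw [m11_val, if_pos]; decide
  have k79 : m11 s(7, 9) = 1 := by rw [m11_val, if_pos]; decide
  have k68 : m11 s(6, 8) = 1 := by rw [m11_val, if_pos]; decide
  rw [k01, k12, k23, k34, k05, k16, k38, k49, k57, k79, k68]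
  refine h.trans ?_
  have h1 : ∀ (p : Prop) [Decidable p] (x : ℕ), 0 ≤ if p then 0 else x := fun _ _ _ => Nat.zero_le _
  linarith [h1 (0 ∈ S ↔ 4 ∈ S) (m11 s(0, 4)), h1 (2 ∈ S ↔ 7 ∈ S) (m11 s(2, 7)),
    h1 (6 ∈ S ↔ 9 ∈ S) (m11 s(6, 9)), h1 (5 ∈ S ↔ 8 ∈ S) (m11 s(5, 8))]

set_option maxRecDepth 100000 in
lemma m11_sum : ∑ e, m11 e = 11 := by
  rw [sum_edges m11 m11_off]
  have : (E15.map fun p => m11 s(p.1, p.2)) = [1, 1, 1, 1, 0, 1, 1, 0, 1, 1, 1, 1, 0, 1, 0] := by
    unfold E15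
    simp only [List.map_cons, List.map_nil, m11_val]
    decide
  rw [this]
  rfl

theorem petersen_c2 : c2 petersen = 11 := by
  classical
  apply le_antisymm
  · apply Nat.sInf_le
    exact ⟨m11, m11_le, m11_off, m11_cut, m11_sum⟩
  · apply le_csInf
    · exact ⟨_, m11, m11_le, m11_off, m11_cut, rfl⟩
    · rintro N ⟨m, hm1, hm2, hm3, rfl⟩
      rw [sum_edges m hm2]
      apply c2_lower m
      intro S hS
      rw [← cut_sum m hm2]
      exact hm3 S hS

end Q225.EqG
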