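import Pool.Agent.Q225.EqGen

/-! From a multigraph with all cuts of size at least `q` to a scheme. -/

namespace Q225.EqG

open Finset Matrix

/-- Linear forms on `ℤ^κ` attached to the edges and a quadratic form on `ℤ^τ` split over vertices. -/
structure Scheme (V τ κ : Type) [Fintype τ] [Fintype κ] (src dst : τ → V) where
  lf : τ → κ → ℤ
  A : τ → τ → ℤ
  nu : τ → τ → V
  hnu : ∀ e f, A e f ≠ 0 → (nu e f = src e ∨ nu e f = dst e) ∧ (nu e f = src f ∨ nu e f = dst f)
  h0 : ∀ x : κ → ℤ, ∑ e, ∑ f, A e f * (∑ j, lf e j * x j) * (∑ j, lf f j * x j) = 0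
  h1 : ∀ y : τ → ℤ, 0 ≤ ∑ e, ∑ f, A e f * y e * y f
  h2 : ∀ (y : τ → ℤ) (x : V → κ → ℤ), ∑ e, ∑ f, A e f * y e * y f = 0 →
    (∀ e, y e = ∑ j, lf e j * x (src e) j ∧ y e = ∑ j, lf e j * x (dst e) j) → ∀ u v, x u = x v

variable {V τ : Type} [Fintype τ] [DecidableEq τ]

/-- diagonal dominance gives positivity -/
lemma dd_pos {T : Type} [Fintype T] [DecidableEq T] (M : T → T → ℤ) (hs : ∀ t e, M t e = M e t)
    (hd : ∀ t, 1 + ∑ e ∈ univ.erase t, |M t e| ≤ M t t) (z : T → ℤ) :
    ∑ t, z t ^ 2 ≤ ∑ t, ∑ e, z t * M t e * z e := by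
  have h1 : ∀ t, ∑ e, z t * M t e * z e =
      M t t * z t ^ 2 + ∑ e ∈ univ.erase t, z t * M t e * z e := by
    intro t
    rw [← Finset.add_sum_erase _ _ (mem_univ t)]
    ring
  have h2 : ∀ t, ∀ e ∈ univ.erase t, -(|M t e| * (z t ^ 2 + z e ^ 2)) ≤ 2 * (z t * M t e * z e) := by
    intro t e _
    have a := neg_abs_le (M t e)
    have b := le_abs_self (M t e)
    rcases abs_cases (M t e) with ⟨h, h'⟩ | ⟨h, h'⟩
    · rw [h]; nlinarith [sq_nonneg (z t + z e)]
    · rw [h]; nlinarith [sq_nonneg (z t - z e)]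
  have h3 : ∑ t, ∑ e ∈ univ.erase t, |M t e| * z e ^ 2 =
      ∑ t, ∑ e ∈ univ.erase t, |M t e| * z t ^ 2 := by
    have e1 : ∀ t, ∑ e ∈ univ.erase t, |M t e| * z e ^ 2 =
        ∑ e, if e = t then 0 else |M t e| * z e ^ 2 := by
      intro t
      rw [← Finset.sum_erase univ (a := t) (by simp)]
      refine Finset.sum_congr rfl fun e he => ?_
      rw [if_neg (mem_erase.mp he).1]
    have e2 : ∀ t, ∑ e ∈ univ.erase t, |M t e| * z t ^ 2 =
        ∑ e, if e = t then 0 else |M t e| * z t ^ 2 := by
      intro t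
      rw [← Finset.sum_erase univ (a := t) (by simp)]
      refine Finset.sum_congr rfl fun e he => ?_
      rw [if_neg (mem_erase.mp he).1]
    simp only [e1, e2]
    rw [Finset.sum_comm]
    refine Finset.sum_congr rfl fun t _ => Finset.sum_congr rfl fun e _ => ?_
    by_cases h : t = e
    · rw [if_pos h, if_pos h.symm]
    · rw [if_neg h, if_neg (Ne.symm h), hs e t]
  have h4 : -(∑ t, ∑ e ∈ univ.erase t, |M t e| * z t ^ 2) ≤
      ∑ t, ∑ e ∈ univ.erase t, z t * M t e * z e := by
    have e3 : ∑ t, ∑ e ∈ univ.erase t, -(|M t e| * (z t ^ 2 + z e ^ 2)) ≤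
        ∑ t, ∑ e ∈ univ.erase t, 2 * (z t * M t e * z e) :=
      Finset.sum_le_sum fun t _ => Finset.sum_le_sum fun e he => h2 t e he
    simp only [Finset.sum_neg_distrib, mul_add, Finset.sum_add_distrib, ← Finset.mul_sum] at e3
    simp only [Finset.mul_sum] at e3
    rw [h3] at e3
    simp only [← Finset.mul_sum] at e3 ⊢
    linarith
  calc ∑ t, z t ^ 2 ≤ ∑ t, (M t t * z t ^ 2 - ∑ e ∈ univ.erase t, |M t e| * z t ^ 2) := by
        apply Finset.sum_le_sum
        intro t _
        rw [← Finset.sum_mul]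
        have := hd t
        nlinarith [sq_nonneg (z t)]
    _ = ∑ t, M t t * z t ^ 2 - ∑ t, ∑ e ∈ univ.erase t, |M t e| * z t ^ 2 := by
        rw [Finset.sum_sub_distrib]
    _ ≤ ∑ t, M t t * z t ^ 2 + ∑ t, ∑ e ∈ univ.erase t, z t * M t e * z e := by linarith
    _ = _ := by rw [← Finset.sum_add_distrib]; exact Finset.sum_congr rfl fun t _ => (h1 t).symm

/-- sharing an endpoint -/
def nbr [DecidableEq V] (src dst : τ → V) (t e : τ) : Prop :=
  (src t = src e ∨ src t = dst e) ∨ (dst t = src e ∨ dst t = dst e)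

instance [DecidableEq V] (src dst : τ → V) : DecidableRel (nbr src dst) := fun t e => by
  unfold nbr; infer_instance

/-- edges at a vertex -/
def star [DecidableEq V] (src dst : τ → V) (v : V) : Finset τ :=
  univ.filter fun e => src e = v ∨ dst e = v

variable [Fintype V] [DecidableEq V]

lemma hall_cond (src dst : τ → V) {q : ℕ}
    (hcut : ∀ U : Finset V, U.Nonempty → U ≠ univ →
      q ≤ (univ.filter fun e => ¬ (src e ∈ U ↔ dst e ∈ U)).card)
    (v0 : V) (S : Finset τ) (hS : S ⊆ star src dst v0) (hSq : S.card = q) (v : V)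
    (C : Finset τ) (hC : Disjoint C (star src dst v)) :
    C.card ≤ (univ.filter fun t => t ∉ S ∧ ∃ e ∈ C, nbr src dst t e).card := by
  classical
  set N : Finset τ := univ.filter fun t => ∃ e ∈ C, nbr src dst t e with hN
  have hCN : C ⊆ N := by
    intro e he
    rw [hN, mem_filter]
    exact ⟨mem_univ _, e, he, Or.inl (Or.inl rfl)⟩
  have hT : (univ.filter fun t => t ∉ S ∧ ∃ e ∈ C, nbr src dst t e) = N \ S := by
    ext t
    simp only [hN, mem_filter, mem_univ, true_and, mem_sdiff]
    tauto
  rw [hT]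
  by_cases hd : Disjoint C S
  · apply card_le_card
    intro e he
    rw [mem_sdiff]
    exact ⟨hCN he, Finset.disjoint_left.mp hd he⟩
  · rw [Finset.not_disjoint_iff] at hd
    obtain ⟨s, hsC, hsS⟩ := hd
    let U : Finset V := univ.filter fun u => ∃ e ∈ C, src e = u ∨ dst e = u
    have hU1 : U.Nonempty := ⟨v0, by
      simp only [U, mem_filter, mem_univ, true_and]
      have := hS hsS
      unfold star at this
      rw [mem_filter] at this
      exact ⟨s, hsC, this.2⟩⟩
    have hU2 : U ≠ univ := by
      intro h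
      have hv : v ∈ U := by rw [h]; exact mem_univ _
      simp only [U, mem_filter, mem_univ, true_and] at hv
      obtain ⟨e, he, hev⟩ := hv
      apply Finset.disjoint_left.mp hC he
      unfold star
      rw [mem_filter]
      exact ⟨mem_univ _, hev⟩
    have h1 := hcut U hU1 hU2
    have h2 : (univ.filter fun e => ¬ (src e ∈ U ↔ dst e ∈ U)) ⊆ N \ C := by
      intro e he
      rw [mem_filter] at he
      have heC : e ∉ C := by
        intro h
        apply he.2
        have a1 : src e ∈ U := by
          simp only [U, mem_filter, mem_univ, true_and]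
          exact ⟨e, h, Or.inl rfl⟩
        have a2 : dst e ∈ U := by
          simp only [U, mem_filter, mem_univ, true_and]
          exact ⟨e, h, Or.inr rfl⟩
        exact ⟨fun _ => a2, fun _ => a1⟩
      rw [mem_sdiff]
      refine ⟨?_, heC⟩
      rw [hN, mem_filter]
      refine ⟨mem_univ _, ?_⟩
      by_cases hs : src e ∈ U
      · simp only [U, mem_filter, mem_univ, true_and] at hs
        obtain ⟨c, hc, h⟩ := hs
        refine ⟨c, hc, Or.inl ?_⟩
        rcases h with h | h
        · exact Or.inl h.symm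
        · exact Or.inr h.symm
      · have hd : dst e ∈ U := by
          by_contra hd
          exact he.2 ⟨fun h => absurd h hs, fun h => absurd h hd⟩
        simp only [U, mem_filter, mem_univ, true_and] at hd
        obtain ⟨c, hc, h⟩ := hd
        refine ⟨c, hc, Or.inr ?_⟩
        rcases h with h | h
        · exact Or.inl h.symm
        · exact Or.inr h.symm
    have h3 := card_le_card h2
    have h4 : (N \ C).card = N.card - C.card := card_sdiff_of_subset hCN
    have h5 := Finset.le_card_sdiff S N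
    have h6 := card_le_card hCN
    omega

lemma sum_split (S : Finset τ) (g : τ → ℤ) :
    ∑ e, g e = ∑ s : {e // e ∈ S}, g s + ∑ t : {e // e ∉ S}, g t := by
  rw [← Finset.sum_add_sum_compl S g, Finset.sum_coe_sort S g]
  congr 1
  exact Finset.sum_subtype Sᶜ (fun x => Finset.mem_compl) g

theorem exists_scheme (src dst : τ → V) {q : ℕ}
    (hcut : ∀ U : Finset V, U.Nonempty → U ≠ univ →
      q ≤ (univ.filter fun e => ¬ (src e ∈ U ↔ dst e ∈ U)).card)
    (v0 v1 : V) (hv : v0 ≠ v1) :
    ∃ (κ : Type) (_ : Fintype κ), Fintype.card κ = q ∧ Nonempty (Scheme V τ κ src dst) := by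
  classical
  -- choice of `S`
  have hdeg : q ≤ (star src dst v0).card := by
    refine (hcut {v0} ⟨v0, mem_singleton_self _⟩ ?_).trans (card_le_card ?_)
    · intro h
      have : v1 ∈ ({v0} : Finset V) := by rw [h]; exact mem_univ _
      exact hv (mem_singleton.mp this).symm
    · intro e he
      rw [mem_filter] at he
      unfold star
      rw [mem_filter]
      refine ⟨mem_univ _, ?_⟩
      by_contra hc
      push Not at hc
      apply he.2
      rw [mem_singleton, mem_singleton]
      exact ⟨fun h => absurd h hc.1, fun h => absurd h hc.2⟩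
  obtain ⟨S, hS, hSq⟩ := Finset.exists_subset_card_eq hdeg
  obtain ⟨M, hMs, hMn, hMd, hMr⟩ := exists_int (nbr src dst) (fun t => Or.inl (Or.inl rfl))
    (fun t e h => by
      unfold nbr at *
      rcases h with (h | h) | (h | h)
      · exact Or.inl (Or.inl h.symm)
      · exact Or.inr (Or.inl h.symm)
      · exact Or.inl (Or.inr h.symm)
      · exact Or.inr (Or.inr h.symm)) S (star src dst)
    (fun v C hC => hall_cond src dst hcut v0 S hS hSq v C hC)
  let T := {e // e ∉ S}
  let K := {e // e ∈ S}
  let MT : Matrix T T ℤ := Matrix.of fun t t' => M t t'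
  let B : Matrix T K ℤ := Matrix.of fun t s => M t s
  let d : ℤ := MT.det
  let J : Matrix T K ℤ := MT.adjugate * B
  have hMTJ : MT * J = d • B := by
    change MT * (MT.adjugate * B) = _
    rw [← Matrix.mul_assoc, Matrix.mul_adjugate, Matrix.smul_mul, Matrix.one_mul]
  -- positivity of `MT`
  have hddT : ∀ t : T, 1 + ∑ e ∈ univ.erase t, |MT t e| ≤ MT t t := by
    intro t
    refine le_trans ?_ (hMd t.1)
    gcongr
    have : ∑ e ∈ univ.erase t, |MT t e| =
        ∑ e ∈ (univ.erase t).image Subtype.val, |M t.1 e| := by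
      rw [Finset.sum_image]
      · rfl
      · intro a _ b _ h; exact Subtype.ext h
    rw [this]
    apply Finset.sum_le_sum_of_subset_of_nonneg
    · intro e he
      rw [mem_image] at he
      obtain ⟨e', he', rfl⟩ := he
      rw [mem_erase] at he' ⊢
      exact ⟨fun h => he'.1 (Subtype.ext h), mem_univ _⟩
    · intro _ _ _; exact abs_nonneg _
  have hpos : ∀ z : T → ℤ, ∑ t, z t ^ 2 ≤ ∑ t, ∑ e, z t * MT t e * z e :=
    fun z => dd_pos (fun t e => MT t e) (fun t e => hMs _ _) hddT z
  have hd0 : d ≠ 0 := by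
    intro h
    obtain ⟨z, hz0, hz⟩ := Matrix.exists_mulVec_eq_zero_iff.mpr h
    have h1 := hpos z
    have h2 : ∑ t, ∑ e, z t * MT t e * z e = 0 := by
      apply Finset.sum_eq_zero
      intro t _
      have := congrFun hz t
      rw [Matrix.mulVec, dotProduct] at this
      calc ∑ e, z t * MT t e * z e = z t * ∑ e, MT t e * z e := by
            rw [Finset.mul_sum]; exact Finset.sum_congr rfl fun e _ => by ring
        _ = 0 := by rw [this]; simp
    rw [h2] at h1
    apply hz0
    funext t
    have h3 := Finset.single_le_sum (f := fun t => z t ^ 2) (fun _ _ => sq_nonneg _) (mem_univ t)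
    have h4 : z t ^ 2 ≤ 0 := h3.trans h1
    exact pow_eq_zero_iff (two_ne_zero) |>.mp (le_antisymm h4 (sq_nonneg _))
  -- the matrix `Z`
  let Z : T → τ → ℤ := fun t e => if h : e ∈ S then J t ⟨e, h⟩ else if t.1 = e then d else 0
  have hZS : ∀ t (s : K), Z t s = J t s := fun t s => dif_pos s.2
  have hZT : ∀ t (t' : T), Z t t' = if t = t' then d else 0 := fun t t' => by
    simp only [Z, dif_neg t'.2]
    by_cases h : t = t'
    · rw [if_pos h, if_pos (congrArg Subtype.val h)]
    · rw [if_neg h, if_neg (fun h' => h (Subtype.ext h'))]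
  have hMZ : ∀ (t : T) (e : τ), ∑ t', MT t t' * Z t' e = d * M t e := by
    intro t e
    by_cases h : e ∈ S
    · have h1 := congrFun (congrFun hMTJ t) ⟨e, h⟩
      rw [Matrix.mul_apply, Matrix.smul_apply, smul_eq_mul] at h1
      calc ∑ t', MT t t' * Z t' e = ∑ t', MT t t' * J t' ⟨e, h⟩ :=
            Finset.sum_congr rfl fun t' _ => by rw [← hZS t' ⟨e, h⟩]
        _ = d * B t ⟨e, h⟩ := h1
        _ = _ := rfl
    · rw [Finset.sum_eq_single ⟨e, h⟩]
      · rw [hZT _ ⟨e, h⟩, if_pos rfl, mul_comm]; rfl
      · intro t' _ ht'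
        rw [hZT _ ⟨e, h⟩, if_neg ht', mul_zero]
      · intro h'; exact absurd (mem_univ _) h'
  let A : τ → τ → ℤ := fun e f => ∑ t, ∑ t', Z t e * MT t t' * Z t' f
  have hA1 : ∀ e f, A e f = ∑ t, Z t e * (d * M t f) := by
    intro e f
    refine Finset.sum_congr rfl fun t _ => ?_
    rw [← hMZ, Finset.mul_sum]
    exact Finset.sum_congr rfl fun t' _ => by ring
  have hAs : ∀ e f, A e f = A f e := by
    intro e f
    simp only [A]
    rw [Finset.sum_comm]
    refine Finset.sum_congr rfl fun t _ => Finset.sum_congr rfl fun t' _ => ?_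
    have : MT t' t = MT t t' := hMs _ _
    rw [this]; ring
  have hAT : ∀ e, e ∉ S → ∀ f, A e f = d * d * M e f := by
    intro e he f
    rw [hA1, Finset.sum_eq_single ⟨e, he⟩]
    · rw [hZT _ ⟨e, he⟩, if_pos rfl]; ring
    · intro t' _ ht'
      rw [hZT _ ⟨e, he⟩, if_neg ht', zero_mul]
    · intro h'; exact absurd (mem_univ _) h'
  -- support of `A`
  have hAsupp : ∀ e f, A e f ≠ 0 → nbr src dst e f := by
    intro e f h
    by_cases he : e ∈ S
    · by_cases hf : f ∈ S
      · have h1 := hS he
        have h2 := hS hf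
        unfold star at h1 h2
        rw [mem_filter] at h1 h2
        unfold nbr
        rcases h1.2 with h1 | h1 <;> rcases h2.2 with h2 | h2
        · exact Or.inl (Or.inl (h1.trans h2.symm))
        · exact Or.inl (Or.inr (h1.trans h2.symm))
        · exact Or.inr (Or.inl (h1.trans h2.symm))
        · exact Or.inr (Or.inr (h1.trans h2.symm))
      · rw [hAs, hAT f hf] at h
        apply hMn
        intro hc
        rw [hMs, hc, mul_zero] at h
        exact h rfl
    · rw [hAT e he] at h
      apply hMn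
      intro hc
      rw [hc, mul_zero] at h
      exact h rfl
  -- quadratic form as a sum over `T`
  have hF : ∀ y : τ → ℤ, ∑ e, ∑ f, A e f * y e * y f =
      ∑ t, ∑ t', (∑ e, Z t e * y e) * MT t t' * (∑ f, Z t' f * y f) := by
    intro y
    have e1 : ∀ e f, A e f * y e * y f = ∑ t, ∑ t', (Z t e * y e) * MT t t' * (Z t' f * y f) := by
      intro e f
      simp only [A, Finset.sum_mul]
      exact Finset.sum_congr rfl fun t _ => Finset.sum_congr rfl fun t' _ => by ring
    simp only [e1]
    have e2 : ∀ t t', (∑ e, Z t e * y e) * MT t t' * (∑ f, Z t' f * y f) =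
        ∑ e, ∑ f, (Z t e * y e) * MT t t' * (Z t' f * y f) := by
      intro t t'
      rw [Finset.sum_mul, Finset.sum_mul]
      refine Finset.sum_congr rfl fun e _ => ?_
      rw [Finset.mul_sum]
    simp only [e2]
    calc ∑ e, ∑ f, ∑ t, ∑ t', Z t e * y e * MT t t' * (Z t' f * y f)
        = ∑ e, ∑ t, ∑ f, ∑ t', Z t e * y e * MT t t' * (Z t' f * y f) :=
          Finset.sum_congr rfl fun e _ => Finset.sum_comm
      _ = ∑ t, ∑ e, ∑ f, ∑ t', Z t e * y e * MT t t' * (Z t' f * y f) := Finset.sum_comm
      _ = ∑ t, ∑ e, ∑ t', ∑ f, Z t e * y e * MT t t' * (Z t' f * y f) :=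
          Finset.sum_congr rfl fun t _ => Finset.sum_congr rfl fun e _ => Finset.sum_comm
      _ = ∑ t, ∑ t', ∑ e, ∑ f, Z t e * y e * MT t t' * (Z t' f * y f) :=
          Finset.sum_congr rfl fun t _ => Finset.sum_comm
  -- linear forms
  let lf : τ → K → ℤ := fun e s => if h : e ∈ S then (if e = s.1 then d else 0) else -J ⟨e, h⟩ s
  have hlfS : ∀ (s : K) (x : K → ℤ), ∑ j, lf s j * x j = d * x s := by
    intro s x
    rw [Finset.sum_eq_single s]
    · simp only [lf, dif_pos s.2, if_true]
    · intro j _ hj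
      simp only [lf, dif_pos s.2]
      rw [if_neg (fun h => hj (Subtype.ext h.symm)), zero_mul]
    · intro h'; exact absurd (mem_univ _) h'
  have hlfT : ∀ (t : T) (x : K → ℤ), ∑ j, lf t j * x j = -∑ j, J t j * x j := by
    intro t x
    rw [← Finset.sum_neg_distrib]
    refine Finset.sum_congr rfl fun j _ => ?_
    simp only [lf, dif_neg t.2]
    ring
  have hZy : ∀ (t : T) (y : τ → ℤ), ∑ e, Z t e * y e = ∑ s : K, J t s * y s + d * y t := by
    intro t y
    rw [sum_split S]
    congr 1
    · exact Finset.sum_congr rfl fun s _ => by rw [hZS]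
    · rw [Finset.sum_eq_single t]
      · rw [hZT, if_pos rfl]
      · intro t' _ ht'
        rw [hZT, if_neg (Ne.symm ht'), zero_mul]
      · intro h'; exact absurd (mem_univ _) h'
  have hZl : ∀ (t : T) (x : K → ℤ), ∑ e, Z t e * (∑ j, lf e j * x j) = 0 := by
    intro t x
    rw [hZy t (fun e => ∑ j, lf e j * x j)]
    simp only [hlfS, hlfT]
    rw [mul_neg, Finset.mul_sum, ← sub_eq_add_neg, sub_eq_zero]
    exact Finset.sum_congr rfl fun s _ => by ring
  -- the common vertex
  have hnu : ∀ e f, ∃ v, nbr src dst e f → (v = src e ∨ v = dst e) ∧ (v = src f ∨ v = dst f) := by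
    intro e f
    by_cases h : nbr src dst e f
    · unfold nbr at h
      rcases h with (h | h) | (h | h)
      · exact ⟨src e, fun _ => ⟨Or.inl rfl, Or.inl h⟩⟩
      · exact ⟨src e, fun _ => ⟨Or.inl rfl, Or.inr h⟩⟩
      · exact ⟨dst e, fun _ => ⟨Or.inr rfl, Or.inl h⟩⟩
      · exact ⟨dst e, fun _ => ⟨Or.inr rfl, Or.inr h⟩⟩
    · exact ⟨v0, fun h' => absurd h' h⟩
  choose nu hnu using hnu
  refine ⟨K, inferInstance, by rw [Fintype.card_coe, hSq], ⟨⟨lf, A, nu, ?_, ?_, ?_, ?_⟩⟩⟩
  · intro e f h
    exact hnu e f (hAsupp e f h)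
  · intro x
    rw [hF (fun e => ∑ j, lf e j * x j)]
    apply Finset.sum_eq_zero
    intro t _
    apply Finset.sum_eq_zero
    intro t' _
    rw [hZl, zero_mul, zero_mul]
  · intro y
    rw [hF]
    refine le_trans ?_ (hpos fun t => ∑ e, Z t e * y e)
    exact Finset.sum_nonneg fun _ _ => sq_nonneg _
  · intro y x hy0 hyx
    rw [hF] at hy0
    have h1 := hpos fun t => ∑ e, Z t e * y e
    rw [hy0] at h1
    have h2 : ∀ t : T, ∑ e, Z t e * y e = 0 := by
      intro t
      have h3 := Finset.single_le_sum (f := fun t => (∑ e, Z t e * y e) ^ 2)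
        (fun _ _ => sq_nonneg _) (mem_univ t)
      exact pow_eq_zero_iff (two_ne_zero) |>.mp (le_antisymm (h3.trans h1) (sq_nonneg _))
    -- `d y = ℓ(y_S)`
    have h3 : ∀ e, d * y e = ∑ j : K, lf e j * y j := by
      intro e
      by_cases h : e ∈ S
      · exact (hlfS ⟨e, h⟩ (fun j => y j)).symm
      · have a := hlfT ⟨e, h⟩ (fun j => y j)
        have b := h2 ⟨e, h⟩
        rw [hZy] at b
        simp only at a b
        rw [a]
        linarith
    -- every `d x_v` equals `y_S`
    have h4 : ∀ v, ∀ j : K, d * x v j = y j := by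
      intro v
      let δ : K → ℤ := fun j => d * x v j - y j
      have hδ : ∀ e, ∑ j, lf e j * δ j = d * (∑ j, lf e j * x v j) - d * y e := by
        intro e
        rw [h3 e, Finset.mul_sum, ← Finset.sum_sub_distrib]
        exact Finset.sum_congr rfl fun j _ => by simp only [δ]; ring
      have hstar : ∀ e ∈ star src dst v, ∑ j, lf e j * δ j = 0 := by
        intro e he
        unfold star at he
        rw [mem_filter] at he
        rw [hδ]
        rcases he.2 with h | h
        · have := (hyx e).1
          rw [h] at this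
          rw [← this]; ring
        · have := (hyx e).2
          rw [h] at this
          rw [← this]; ring
      have hrow : ∀ t ∉ S, ∑ e, M t e * (∑ j, lf e j * δ j) = 0 := by
        intro t ht
        have a1 : d * ∑ e, M t e * (∑ j, lf e j * δ j) =
            ∑ t' : T, MT ⟨t, ht⟩ t' * ∑ e, Z t' e * (∑ j, lf e j * δ j) := by
          calc d * ∑ e, M t e * (∑ j, lf e j * δ j)
              = ∑ e, (∑ t' : T, MT ⟨t, ht⟩ t' * Z t' e) * (∑ j, lf e j * δ j) := by
                rw [Finset.mul_sum]
                refine Finset.sum_congr rfl fun e _ => ?_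
                rw [hMZ ⟨t, ht⟩ e]; ring
            _ = ∑ e, ∑ t' : T, MT ⟨t, ht⟩ t' * (Z t' e * (∑ j, lf e j * δ j)) := by
                refine Finset.sum_congr rfl fun e _ => ?_
                rw [Finset.sum_mul]
                exact Finset.sum_congr rfl fun t' _ => by ring
            _ = ∑ t' : T, ∑ e, MT ⟨t, ht⟩ t' * (Z t' e * (∑ j, lf e j * δ j)) :=
                Finset.sum_comm
            _ = _ := by
                refine Finset.sum_congr rfl fun t' _ => ?_
                rw [Finset.mul_sum]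
        have a2 : ∑ t' : T, MT ⟨t, ht⟩ t' * ∑ e, Z t' e * (∑ j, lf e j * δ j) = 0 := by
          apply Finset.sum_eq_zero
          intro t' _
          rw [hZl, mul_zero]
        rw [a2] at a1
        exact (mul_eq_zero.mp a1).resolve_left hd0
      have hzero := hMr v (fun e => ∑ j, lf e j * δ j) hstar hrow
      intro j
      have a3 := congrFun hzero j.1
      simp only [Pi.zero_apply] at a3
      rw [hlfS j δ] at a3
      have a4 := (mul_eq_zero.mp a3).resolve_left hd0
      simp only [δ] at a4
      linarith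
    intro u v
    funext j
    have a := (h4 u j).trans (h4 v j).symm
    exact mul_left_cancel₀ hd0 a

end Q225.EqG
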