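import Pool.Agent.Q225.EqDefs
import Pool.Agent.Q225.EqScheme

/-! Comparison stage followed by flooding of flags. -/

namespace Q225.EqG

open Finset

variable {V : Type} [DecidableEq V] {G : SimpleGraph V} {n : ℕ}

lemma play_append (x : V → Fin n → Bool) (l m : List (Step G n)) (r : V → List Bool) :
    play x (l ++ m) r = play x m (play x l r) := by
  induction l generalizing r with
  | nil => rfl
  | cons s l ih => rw [List.cons_append]; exact ih _

/-- a comparison: `src` sends `h(x_src)`, to be compared with `h(x_dst)` -/
structure Comp (G : SimpleGraph V) (n : ℕ) where
  src : V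
  dst : V
  adj : G.Adj src dst
  h : (Fin n → Bool) → Bool

def Comp.step (c : Comp G n) : Step G n := ⟨c.src, c.dst, c.adj, fun x _ => c.h x⟩

/-- what `v` expects to receive -/
def expect (l : List (Comp G n)) (v : V) (x : Fin n → Bool) : List Bool :=
  (l.filter fun c => c.dst = v).map fun c => c.h x

def recvd (l : List (Comp G n)) (x : V → Fin n → Bool) (v : V) : List Bool :=
  (l.filter fun c => c.dst = v).map fun c => c.h (x c.src)

lemma play_comp (x : V → Fin n → Bool) (l : List (Comp G n)) (r : V → List Bool) (v : V) :
    play x (l.map Comp.step) r v = r v ++ recvd l x v := by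
  induction l generalizing r with
  | nil => simp [play, recvd]
  | cons c l ih =>
    rw [List.map_cons]
    change play x (l.map Comp.step) _ v = _
    rw [ih]
    unfold recvd
    by_cases h : c.dst = v
    · subst h
      have e : (c.step).dst = c.dst := rfl
      rw [e, Function.update_self]
      simp [Comp.step]
    · have e : (c.step).dst = c.dst := rfl
      rw [e, Function.update_of_ne (Ne.symm h)]
      simp [h]

/-- the flag of `v`: all comparisons succeeded and all received flags are true -/
def flag (l : List (Comp G n)) (v : V) (x : Fin n → Bool) (r : List Bool) : Bool :=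
  decide (r.take (expect l v x).length = expect l v x) && (r.drop (expect l v x).length).all id

def fstep (l : List (Comp G n)) (p : {p : V × V // G.Adj p.1 p.2}) : Step G n :=
  ⟨p.1.1, p.1.2, p.2, flag l p.1.1⟩

lemma length_recvd (l : List (Comp G n)) (x : V → Fin n → Bool) (v : V) (y : Fin n → Bool) :
    (recvd l x v).length = (expect l v y).length := by
  simp [recvd, expect]

lemma flag_append_false (l : List (Comp G n)) (v : V) (x : Fin n → Bool) (r t : List Bool)
    (hr : (expect l v x).length ≤ r.length) (h : flag l v x r = false) :
    flag l v x (r ++ t) = false := by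
  unfold flag at *
  rw [List.take_append_of_le_length hr, List.drop_append_of_le_length hr, List.all_append]
  rw [Bool.and_eq_false_iff] at h ⊢
  rcases h with h | h
  · exact Or.inl h
  · right; rw [h]; rfl

lemma flag_append_one_false (l : List (Comp G n)) (v : V) (x : Fin n → Bool) (r : List Bool)
    (hr : (expect l v x).length ≤ r.length) : flag l v x (r ++ [false]) = false := by
  unfold flag
  rw [List.drop_append_of_le_length hr, List.all_append]
  simp

lemma play_flood_len (x : V → Fin n → Bool) (l : List (Comp G n))
    (m : List {p : V × V // G.Adj p.1 p.2}) (r : V → List Bool)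
    (hr : ∀ v, (expect l v (x v)).length ≤ (r v).length) (v : V) :
    (expect l v (x v)).length ≤ (play x (m.map (fstep l)) r v).length := by
  induction m generalizing r with
  | nil => exact hr v
  | cons p m ih =>
    apply ih
    intro w
    by_cases h : w = (fstep l p).dst
    · subst h
      rw [Function.update_self, List.length_append]
      exact (hr _).trans (Nat.le_add_right _ _)
    · rw [Function.update_of_ne h]; exact hr w

/-- bad vertices stay bad -/
lemma play_flood_bad (x : V → Fin n → Bool) (l : List (Comp G n))
    (m : List {p : V × V // G.Adj p.1 p.2}) (r : V → List Bool)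
    (hr : ∀ v, (expect l v (x v)).length ≤ (r v).length) (v : V)
    (hb : flag l v (x v) (r v) = false) :
    flag l v (x v) (play x (m.map (fstep l)) r v) = false := by
  induction m generalizing r with
  | nil => exact hb
  | cons p m ih =>
    apply ih
    · intro w
      by_cases h : w = (fstep l p).dst
      · subst h
        rw [Function.update_self, List.length_append]
        exact (hr _).trans (Nat.le_add_right _ _)
      · rw [Function.update_of_ne h]; exact hr w
    · by_cases h : v = (fstep l p).dst
      · subst h
        rw [Function.update_self]
        exact flag_append_false l _ _ _ _ (hr _) hb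
      · rw [Function.update_of_ne h]; exact hb

/-- a bad vertex infects its neighbours -/
lemma play_flood_nb (x : V → Fin n → Bool) (l : List (Comp G n))
    (m : List {p : V × V // G.Adj p.1 p.2}) (r : V → List Bool)
    (hr : ∀ v, (expect l v (x v)).length ≤ (r v).length) (u v : V) (huv : G.Adj u v)
    (hm : (⟨(u, v), huv⟩ : {p : V × V // G.Adj p.1 p.2}) ∈ m)
    (hb : flag l u (x u) (r u) = false) :
    flag l v (x v) (play x (m.map (fstep l)) r v) = false := by
  induction m generalizing r with
  | nil => cases hm
  | cons p m ih =>
    have hr' : ∀ w, (expect l w (x w)).length ≤ (Function.update r (fstep l p).dst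
        (r (fstep l p).dst ++ [(fstep l p).msg (x (fstep l p).src) (r (fstep l p).src)]) w).length := by
      intro w
      by_cases h : w = (fstep l p).dst
      · subst h
        rw [Function.update_self, List.length_append]
        exact (hr _).trans (Nat.le_add_right _ _)
      · rw [Function.update_of_ne h]; exact hr w
    rcases List.mem_cons.mp hm with h | h
    · subst h
      apply play_flood_bad x l m _ hr' v
      have e : v = (fstep l (⟨(u, v), huv⟩ : {p : V × V // G.Adj p.1 p.2})).dst := rfl
      rw [← e, Function.update_self]
      have e2 : (fstep l (⟨(u, v), huv⟩ : {p : V × V // G.Adj p.1 p.2})).msg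
          (x (fstep l (⟨(u, v), huv⟩ : {p : V × V // G.Adj p.1 p.2})).src)
          (r (fstep l (⟨(u, v), huv⟩ : {p : V × V // G.Adj p.1 p.2})).src) = false := hb
      rw [e2]
      exact flag_append_one_false l v _ _ (hr v)
    · apply ih _ hr' h
      by_cases h' : u = (fstep l p).dst
      · subst h'
        rw [Function.update_self]
        exact flag_append_false l _ _ _ _ (hr _) hb
      · rw [Function.update_of_ne h']; exact hb

/-- rounds of flooding -/
lemma play_rounds (x : V → Fin n → Bool) (l : List (Comp G n))
    (m : List {p : V × V // G.Adj p.1 p.2}) (hm : ∀ p, p ∈ m) (v0 : V) :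
    ∀ (k : ℕ) (r : V → List Bool), (∀ v, (expect l v (x v)).length ≤ (r v).length) →
      flag l v0 (x v0) (r v0) = false → ∀ v, (∃ w : G.Walk v0 v, w.length ≤ k) →
      flag l v (x v) (play x ((List.replicate k (m.map (fstep l))).flatten) r v) = false := by
  intro k
  induction k with
  | zero =>
    intro r hr hb v ⟨w, hw⟩
    have : v0 = v := SimpleGraph.Walk.eq_of_length_eq_zero (by omega : w.length = 0)
    subst this
    exact hb
  | succ k ih =>
    intro r hr hb v hw
    have hflat : (List.replicate (k + 1) (m.map (fstep l))).flatten =
        (List.replicate k (m.map (fstep l))).flatten ++ m.map (fstep l) := by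
      rw [List.replicate_succ', List.flatten_append]
      simp
    rw [hflat, play_append]
    set r' := play x ((List.replicate k (m.map (fstep l))).flatten) r with hr'
    have hrep : (List.replicate k (m.map (fstep l))).flatten =
        ((List.replicate k m).flatten).map (fstep l) := by
      rw [List.map_flatten, List.map_replicate]
    have hlen : ∀ v, (expect l v (x v)).length ≤ (r' v).length := by
      intro v
      rw [hr', hrep]
      exact play_flood_len x l _ r hr v
    obtain ⟨w, hw⟩ := hw
    by_cases hk : w.length ≤ k
    · exact play_flood_bad x l m r' hlen v (ih r hr hb v ⟨w, hk⟩)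
    · -- the last step of the walk
      have hpos : w.length = k + 1 := by omega
      obtain ⟨u, w', huv, hl⟩ : ∃ (u : V) (w' : G.Walk v0 u), G.Adj u v ∧ w'.length = k := by
        have hrev : w.reverse.length = k + 1 := by rw [SimpleGraph.Walk.length_reverse, hpos]
        cases hw2 : w.reverse with
        | nil => rw [hw2] at hrev; simp at hrev
        | cons h q =>
          rw [hw2] at hrev
          refine ⟨_, q.reverse, h.symm, ?_⟩
          rw [SimpleGraph.Walk.length_reverse]
          simpa using hrev
      exact play_flood_nb x l m r' hlen u v huv (hm _) (ih r hr hb u ⟨w', by omega⟩)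

lemma play_good (x : V → Fin n → Bool) (l : List (Comp G n))
    (m : List {p : V × V // G.Adj p.1 p.2}) (r : V → List Bool)
    (hr : ∀ v, flag l v (x v) (r v) = true)
    (hl : ∀ v, (expect l v (x v)).length ≤ (r v).length) (v : V) :
    flag l v (x v) (play x (m.map (fstep l)) r v) = true := by
  induction m generalizing r with
  | nil => exact hr v
  | cons p m ih =>
    apply ih
    · intro w
      by_cases h : w = (fstep l p).dst
      · subst h
        rw [Function.update_self]
        have e2 : (fstep l p).msg (x (fstep l p).src) (r (fstep l p).src) = true := hr _
        rw [e2]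
        have h1 := hr (fstep l p).dst
        have h2 := hl (fstep l p).dst
        unfold flag at h1 ⊢
        rw [List.take_append_of_le_length h2, List.drop_append_of_le_length h2, List.all_append]
        rw [Bool.and_eq_true] at h1 ⊢
        exact ⟨h1.1, by rw [h1.2]; rfl⟩
      · rw [Function.update_of_ne h]; exact hr w
    · intro w
      by_cases h : w = (fstep l p).dst
      · subst h
        rw [Function.update_self, List.length_append]
        exact (hl _).trans (Nat.le_add_right _ _)
      · rw [Function.update_of_ne h]; exact hl w

/-- **Protocol from comparisons.** There is a constant depending on `G` only. -/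
theorem exists_protocol0 [Fintype V] (hG : G.Connected) :
    ∃ C : ℕ, ∀ (n : ℕ) (l : List (Comp G n)),
      (∀ x : V → Fin n → Bool, (∀ c ∈ l, c.h (x c.src) = c.h (x c.dst)) → ∀ u w, x u = x w) →
      ∃ P : Protocol G n, P.Correct ∧ P.steps.length = l.length + C := by
  classical
  let m : List {p : V × V // G.Adj p.1 p.2} := (univ : Finset {p : V × V // G.Adj p.1 p.2}).toList
  let R : ℕ := (univ : Finset (V × V)).sup fun p => G.dist p.1 p.2
  refine ⟨R * m.length, fun n l hl => ?_⟩
  refine ⟨⟨l.map Comp.step ++ (List.replicate R (m.map (fstep l))).flatten, flag l⟩, ?_, ?_⟩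
  · intro x v
    change flag l v (x v) (play x (l.map Comp.step ++
      (List.replicate R (m.map (fstep l))).flatten) (fun _ => []) v) = true ↔ _
    rw [play_append]
    set r := play x (l.map Comp.step) (fun _ => []) with hr
    have hrv : ∀ v, r v = recvd l x v := by
      intro v
      rw [hr, play_comp]; rfl
    have hlen : ∀ v, (expect l v (x v)).length ≤ (r v).length := by
      intro v
      rw [hrv, length_recvd l x v (x v)]
    have hrep : (List.replicate R (m.map (fstep l))).flatten =
        ((List.replicate R m).flatten).map (fstep l) := by
      rw [List.map_flatten, List.map_replicate]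
    constructor
    · intro h
      apply hl x
      by_contra hc
      push Not at hc
      obtain ⟨c, hc1, hc2⟩ := hc
      -- the flag of `c.dst` is false after the first stage
      have hbad : flag l c.dst (x c.dst) (r c.dst) = false := by
        unfold flag
        rw [Bool.and_eq_false_iff]
        left
        rw [decide_eq_false_iff_not, hrv, ← length_recvd l x c.dst (x c.dst), List.take_length]
        intro he
        unfold recvd expect at he
        rw [List.map_inj_left] at he
        exact hc2 (he c (List.mem_filter.mpr ⟨hc1, by simp⟩))
      obtain ⟨w, hw⟩ := (hG.preconnected c.dst v).exists_walk_length_eq_dist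
      have := play_rounds x l m (fun p => Finset.mem_toList.mpr (mem_univ p)) c.dst R r hlen hbad v
        ⟨w, by
          rw [hw]
          exact Finset.le_sup (f := fun p : V × V => G.dist p.1 p.2) (mem_univ (c.dst, v))⟩
      rw [this] at h
      exact Bool.noConfusion h
    · intro hall
      rw [hrep]
      apply play_good x l _ r _ hlen
      intro w
      unfold flag
      have he : r w = expect l w (x w) := by
        rw [hrv]
        unfold recvd expect
        apply List.map_congr_left
        intro c _
        rw [hall c.src w]
      rw [he]
      simp
  · rw [List.length_append, List.length_map, List.length_flatten, List.map_replicate,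
      List.sum_replicate, List.length_map, smul_eq_mul]

theorem exists_protocol [Fintype V] (hG : G.Connected) :
    ∃ C : ℕ, ∀ (n : ℕ) (l : List (Comp G n)),
      (∀ x : V → Fin n → Bool, (∀ c ∈ l, c.h (x c.src) = c.h (x c.dst)) → ∀ u w, x u = x w) →
      cc G n ≤ l.length + C := by
  obtain ⟨C, hC⟩ := exists_protocol0 (G := G) hG
  exact ⟨C, fun n l hl => Nat.sInf_le (hC n l hl)⟩

end Q225.EqG
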