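import Pool.Agent.Q225.StabCount

/-! Counting sign functions in spans of stabilizer-like functions. -/

namespace Q225.Stab

open Module

lemma card_signs_aux {Y : Type*} [Fintype Y] (r : ℕ) :
    ∀ (W : Submodule ℂ (Y → ℂ)), finrank ℂ W ≤ r → ∀ (A : Finset (Y → ℂ)),
      (∀ f ∈ A, ∀ y, f y = 1 ∨ f y = -1) → (∀ f ∈ A, ∀ g ∈ A, f - g ∈ W) →
      A.card ≤ 2 ^ r := by
  classical
  induction r with
  | zero =>
    intro W hW A _ hA
    rw [pow_zero, Finset.card_le_one]
    intro f hf g hg
    have h0 : W = ⊥ := by
      apply Submodule.finrank_eq_zero.mp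
      omega
    have := hA f hf g hg
    rw [h0, Submodule.mem_bot] at this
    exact sub_eq_zero.mp this
  | succ r ih =>
    intro W hW A hs hA
    by_cases h1 : A.card ≤ 1
    · exact h1.trans Nat.one_le_two_pow
    · push Not at h1
      obtain ⟨f, hf, g, hg, hfg⟩ := Finset.one_lt_card.mp h1
      obtain ⟨y, hy⟩ : ∃ y, f y ≠ g y := by
        by_contra hcon
        push Not at hcon
        exact hfg (funext hcon)
      let W' : Submodule ℂ (Y → ℂ) := W ⊓ LinearMap.ker (LinearMap.proj (R := ℂ) (φ := fun _ : Y => ℂ) y)
      have hlt : W' < W := by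
        refine lt_of_le_of_ne inf_le_left ?_
        intro h
        have h2 : f - g ∈ W' := by rw [h]; exact hA f hf g hg
        have h3 := h2.2
        rw [SetLike.mem_coe, LinearMap.mem_ker, LinearMap.proj_apply, Pi.sub_apply] at h3
        exact hy (sub_eq_zero.mp h3)
      have hW' : finrank ℂ W' ≤ r := by
        have := Submodule.finrank_lt_finrank_of_lt hlt
        omega
      have hsplit : A = A.filter (fun f => f y = 1) ∪ A.filter (fun f => f y = -1) := by
        rw [← Finset.filter_or]
        symm
        apply Finset.filter_true_of_mem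
        intro f hf
        exact hs f hf y
      have hcard : ∀ e : ℂ, (A.filter (fun f => f y = e)).card ≤ 2 ^ r := by
        intro e
        apply ih W' hW'
        · intro f hf
          exact hs f (Finset.mem_filter.mp hf).1
        · intro f hf g hg
          rw [Finset.mem_filter] at hf hg
          refine ⟨hA f hf.1 g hg.1, ?_⟩
          rw [SetLike.mem_coe, LinearMap.mem_ker, LinearMap.proj_apply, Pi.sub_apply, hf.2, hg.2,
            sub_self]
      rw [hsplit]
      refine (Finset.card_union_le _ _).trans ?_
      have a := hcard 1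
      have b := hcard (-1)
      rw [pow_succ]; omega

variable {E : Type*} [AddCommGroup E] [Module (ZMod 2) E]

/-- `φ` is a combination of `r` stabilizer-like functions -/
def Dec (r : ℕ) (φ : E → ℂ) : Prop :=
  ∃ (c : Fin r → ℂ) (ψ : Fin r → E → ℂ), (∀ i, SL (ψ i)) ∧ φ = ∑ i, c i • ψ i

lemma count_bound [Fintype E] {G : Type*} [Fintype G] (φ : G → E → ℂ)
    (hinj : Function.Injective φ) (hpm : ∀ g y, φ g y = 1 ∨ φ g y = -1) {r : ℕ}
    (hdec : ∀ g, Dec r (φ g)) :
    Nat.card G ≤ (Nat.card (Desc E)) ^ r * 2 ^ r := by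
  classical
  have : Finite (Dual (ZMod 2) E) := by
    have : Function.Injective (fun f : Dual (ZMod 2) E => (f : E → ZMod 2)) :=
      DFunLike.coe_injective
    exact Finite.of_injective _ this
  have : Finite (Desc E) := by unfold Desc; infer_instance
  haveI : Fintype (Desc E) := Fintype.ofFinite _
  have h1 : ∀ g, ∃ D : Fin r → Desc E,
      φ g ∈ Submodule.span ℂ (Set.range fun i => rep (D i)) := by
    intro g
    obtain ⟨c, ψ, hψ, he⟩ := hdec g
    choose D d hD using fun i => (hψ i).exists_rep
    refine ⟨D, ?_⟩
    rw [he]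
    apply Submodule.sum_mem
    intro i _
    apply Submodule.smul_mem
    rw [hD i]
    exact Submodule.smul_mem _ _ (Submodule.subset_span ⟨i, rfl⟩)
  choose D hD using h1
  have hfib : ∀ d : Fin r → Desc E, (Finset.univ.filter (fun g => D g = d)).card ≤ 2 ^ r := by
    intro d
    let W := Submodule.span ℂ (Set.range fun i => rep (d i))
    have hW : finrank ℂ W ≤ r := by
      have := finrank_range_le_card (R := ℂ) (fun i => rep (d i))
      rw [Fintype.card_fin] at this
      exact this
    have := card_signs_aux r W hW ((Finset.univ.filter (fun g => D g = d)).image φ) ?_ ?_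
    · rwa [Finset.card_image_of_injective _ hinj] at this
    · intro f hf
      obtain ⟨g, _, rfl⟩ := Finset.mem_image.mp hf
      exact hpm g
    · intro f hf f' hf'
      obtain ⟨g, hg, rfl⟩ := Finset.mem_image.mp hf
      obtain ⟨g', hg', rfl⟩ := Finset.mem_image.mp hf'
      rw [Finset.mem_filter] at hg hg'
      apply Submodule.sub_mem
      · have := hD g
        rwa [hg.2] at this
      · have := hD g'
        rwa [hg'.2] at this
  have h2 := Finset.card_le_mul_card_image_of_maps_to (s := (Finset.univ : Finset G))
    (t := (Finset.univ : Finset (Fin r → Desc E))) (f := D) (fun _ _ => Finset.mem_univ _)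
    (2 ^ r) (fun d _ => hfib d)
  rw [Nat.card_eq_fintype_card, Nat.card_eq_fintype_card, ← Finset.card_univ]
  refine h2.trans ?_
  rw [Finset.card_univ, Fintype.card_fun, Fintype.card_fin, mul_comm]

lemma card_desc [Fintype E] :
    Nat.card (Desc E) =
      2 ^ ((2 * finrank (ZMod 2) E + 2) * (2 * finrank (ZMod 2) E)) := by
  have hD : Finite (Dual (ZMod 2) E) := by
    have : Function.Injective (fun f : Dual (ZMod 2) E => (f : E → ZMod 2)) :=
      DFunLike.coe_injective
    exact Finite.of_injective _ this
  haveI : Fintype (Dual (ZMod 2) E) := Fintype.ofFinite _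
  have e1 : Nat.card E = 2 ^ finrank (ZMod 2) E := by
    rw [Nat.card_eq_fintype_card, Module.card_eq_pow_finrank (K := ZMod 2), ZMod.card]
  have e2 : Nat.card (Dual (ZMod 2) E) = 2 ^ finrank (ZMod 2) E := by
    rw [Nat.card_eq_fintype_card, Module.card_eq_pow_finrank (K := ZMod 2), ZMod.card,
      Subspace.dual_finrank_eq]
  unfold Desc
  rw [Nat.card_fun, Nat.card_prod, Nat.card_prod, e1, e2, Nat.card_eq_fintype_card,
    Nat.card_eq_fintype_card, Fintype.card_fin, Fintype.card_fin]
  have : (4 : ℕ) = 2 ^ 2 := by norm_num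
  rw [this, ← pow_add, ← pow_add, ← pow_mul]
  congr 2
  ring

end Q225.Stab
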