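import Mathlib

/-! Stabilizer-like functions on finite `F₂`-spaces: symmetry space, closure properties. -/

namespace Q225.Stab

open Module

/-- the sign `(-1)^x` -/
noncomputable def sg (x : ZMod 2) : ℂ := if x = 0 then 1 else -1

lemma z2 (x : ZMod 2) : x = 0 ∨ x = 1 := by
  fin_cases x
  · left; rfl
  · right; rfl

lemma sg_zero : sg 0 = 1 := by simp [sg]
lemma sg_one : sg 1 = -1 := by simp [sg]

lemma sg_add (x y : ZMod 2) : sg (x + y) = sg x * sg y := by
  rcases z2 x with h | h <;> rcases z2 y with h' | h' <;> subst h <;> subst h'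
  · simp [sg_zero]
  · simp [sg_zero, sg_one]
  · simp [sg_zero, sg_one]
  · have : (1 : ZMod 2) + 1 = 0 := rfl
    rw [this, sg_zero, sg_one]; norm_num

lemma sg_ne (x : ZMod 2) : sg x ≠ 0 := by
  rcases z2 x with h | h <;> subst h
  · simp [sg_zero]
  · simp [sg_one]

lemma sg_sq (x : ZMod 2) : sg x * sg x = 1 := by
  rcases z2 x with h | h <;> subst h
  · simp [sg_zero]
  · simp [sg_one]

lemma sg_inj {x y : ZMod 2} (h : sg x = sg y) : x = y := by
  rcases z2 x with hx | hx <;> rcases z2 y with hy | hy <;> subst hx <;> subst hy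
  · rfl
  · rw [sg_zero, sg_one] at h; norm_num at h
  · rw [sg_zero, sg_one] at h; norm_num at h
  · rfl

variable {E : Type*} [AddCommGroup E] [Module (ZMod 2) E]

lemma add_self' (a : E) : a + a = 0 := by
  have h : ((1 : ZMod 2) + 1) • a = 0 := by
    have : (1 : ZMod 2) + 1 = 0 := rfl
    rw [this, zero_smul]
  rwa [add_smul, one_smul] at h

/-- the relation `Z^χ X^a ψ = c ψ` -/
def Eig (ψ : E → ℂ) (p : E × Dual (ZMod 2) E) (c : ℂ) : Prop :=
  ∀ x, sg (p.2 x) * ψ (x + p.1) = c * ψ x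

lemma Eig.add {ψ : E → ℂ} {p q : E × Dual (ZMod 2) E} {c d : ℂ} (hp : Eig ψ p c)
    (hq : Eig ψ q d) : Eig ψ (p + q) (c * d * sg (q.2 p.1)) := by
  intro x
  have h1 := hp x
  have h2 := hq (x + p.1)
  rw [map_add, sg_add] at h2
  have e : x + (p + q).1 = x + p.1 + q.1 := by
    rw [Prod.fst_add]; abel
  rw [e, Prod.snd_add, LinearMap.add_apply, sg_add]
  have h3 : sg (q.2 x) * ψ (x + p.1 + q.1) = d * sg (q.2 p.1) * ψ (x + p.1) := by
    calc sg (q.2 x) * ψ (x + p.1 + q.1)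
        = (sg (q.2 p.1) * sg (q.2 p.1)) * (sg (q.2 x) * ψ (x + p.1 + q.1)) := by
          rw [sg_sq, one_mul]
      _ = sg (q.2 p.1) * (sg (q.2 x) * sg (q.2 p.1) * ψ (x + p.1 + q.1)) := by ring
      _ = sg (q.2 p.1) * (d * ψ (x + p.1)) := by rw [h2]
      _ = d * sg (q.2 p.1) * ψ (x + p.1) := by ring
  calc sg (p.2 x) * sg (q.2 x) * ψ (x + p.1 + q.1)
      = sg (p.2 x) * (sg (q.2 x) * ψ (x + p.1 + q.1)) := by ring
    _ = d * sg (q.2 p.1) * (sg (p.2 x) * ψ (x + p.1)) := by rw [h3]; ring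
    _ = c * d * sg (q.2 p.1) * ψ x := by rw [h1]; ring

lemma Eig.zero (ψ : E → ℂ) : Eig ψ 0 1 := by
  intro x
  have e1 : (0 : E × Dual (ZMod 2) E).2 x = 0 := rfl
  have e2 : x + (0 : E × Dual (ZMod 2) E).1 = x := add_zero x
  rw [e1, e2, sg_zero]

/-- the symmetry space of `ψ` -/
def S (ψ : E → ℂ) : Submodule (ZMod 2) (E × Dual (ZMod 2) E) where
  carrier := {p | ∃ c, Eig ψ p c}
  add_mem' := by
    rintro p q ⟨c, hc⟩ ⟨d, hd⟩
    exact ⟨_, hc.add hd⟩
  zero_mem' := ⟨1, Eig.zero ψ⟩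
  smul_mem' := by
    rintro k p ⟨c, hc⟩
    rcases z2 k with h | h
    · subst h; rw [zero_smul]; exact ⟨1, Eig.zero ψ⟩
    · subst h; rw [one_smul]; exact ⟨c, hc⟩

lemma mem_S {ψ : E → ℂ} {p : E × Dual (ZMod 2) E} : p ∈ S ψ ↔ ∃ c, Eig ψ p c := Iff.rfl

lemma Eig.ne_zero {ψ : E → ℂ} (hψ : ψ ≠ 0) {p : E × Dual (ZMod 2) E} {c : ℂ}
    (h : Eig ψ p c) : c ≠ 0 := by
  rintro rfl
  apply hψ
  funext x
  have := h (x - p.1)
  rw [zero_mul, sub_add_cancel] at this
  exact (mul_eq_zero.mp this).resolve_left (sg_ne _)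

lemma Eig.unique {ψ : E → ℂ} (hψ : ψ ≠ 0) {p : E × Dual (ZMod 2) E} {c d : ℂ}
    (h : Eig ψ p c) (h' : Eig ψ p d) : c = d := by
  obtain ⟨x, hx⟩ : ∃ x, ψ x ≠ 0 := by
    by_contra hcon
    push Not at hcon
    exact hψ (funext hcon)
  have := (h x).symm.trans (h' x)
  exact mul_right_cancel₀ hx this

/-- elements of the symmetry space commute -/
lemma S_comm {ψ : E → ℂ} (hψ : ψ ≠ 0) {p q : E × Dual (ZMod 2) E} (hp : p ∈ S ψ)
    (hq : q ∈ S ψ) : q.2 p.1 = p.2 q.1 := by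
  obtain ⟨c, hc⟩ := hp
  obtain ⟨d, hd⟩ := hq
  have h1 := hc.add hd
  have h2 := hd.add hc
  rw [add_comm q p] at h2
  have h3 := Eig.unique hψ h1 h2
  have hc0 := hc.ne_zero hψ
  have hd0 := hd.ne_zero hψ
  apply sg_inj
  have : c * d ≠ 0 := mul_ne_zero hc0 hd0
  apply mul_left_cancel₀ this
  rw [h3]; ring

lemma S_zero : S (0 : E → ℂ) = ⊤ := by
  rw [Submodule.eq_top_iff']
  intro p
  exact ⟨0, fun x => by simp⟩

/-- stabilizer-like functions (including `0`) -/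
def SL (ψ : E → ℂ) : Prop := finrank (ZMod 2) E ≤ finrank (ZMod 2) (S ψ)

lemma SL_zero [FiniteDimensional (ZMod 2) E] : SL (0 : E → ℂ) := by
  unfold SL
  rw [S_zero, finrank_top, Module.finrank_prod]
  omega

/-- quadratic functions -/
def IsQuad (Q : E → ZMod 2) : Prop :=
  ∃ β : E →ₗ[ZMod 2] Dual (ZMod 2) E, ∀ x a, Q (x + a) = Q x + Q a + Q 0 + β a x

/-- affine functionals -/
def IsAff (l : E → ZMod 2) : Prop :=
  ∃ (m : Dual (ZMod 2) E) (c : ZMod 2), ∀ x, l x = m x + c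

lemma two_mul_z2 (x : ZMod 2) : x + x = 0 := by
  rcases z2 x with h | h <;> subst h <;> rfl

lemma IsQuad.add {Q R : E → ZMod 2} (hQ : IsQuad Q) (hR : IsQuad R) :
    IsQuad (fun x => Q x + R x) := by
  obtain ⟨β, hβ⟩ := hQ
  obtain ⟨γ, hγ⟩ := hR
  refine ⟨β + γ, fun x a => ?_⟩
  simp only [hβ, hγ, LinearMap.add_apply]
  ring

lemma IsQuad.const (c : ZMod 2) : IsQuad (fun _ : E => c) := by
  refine ⟨0, fun x a => ?_⟩
  simp only [LinearMap.zero_apply, add_zero]
  rw [add_assoc, two_mul_z2, add_zero]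

lemma IsQuad.sum {ι : Type*} (s : Finset ι) (Q : ι → E → ZMod 2)
    (h : ∀ i ∈ s, IsQuad (Q i)) : IsQuad (fun x => ∑ i ∈ s, Q i x) := by
  classical
  induction s using Finset.induction_on with
  | empty => simpa using IsQuad.const (E := E) 0
  | insert i s hi ih =>
    simp only [Finset.sum_insert hi]
    exact (h i (Finset.mem_insert_self _ _)).add
      (ih fun j hj => h j (Finset.mem_insert_of_mem hj))

lemma IsQuad.mul {l m : E → ZMod 2} (hl : IsAff l) (hm : IsAff m) :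
    IsQuad (fun x => l x * m x) := by
  obtain ⟨l', c, hl⟩ := hl
  obtain ⟨m', d, hm⟩ := hm
  refine ⟨m'.smulRight l' + l'.smulRight m', fun x a => ?_⟩
  simp only [hl, hm, map_add, map_zero, LinearMap.add_apply, LinearMap.smulRight_apply,
    smul_eq_mul, LinearMap.smul_apply, zero_add]
  have h := two_mul_z2 (c * d)
  linear_combination (-1 : ZMod 2) * h

lemma IsAff.quad {l : E → ZMod 2} (hl : IsAff l) : IsQuad l := by
  have h : IsAff (fun _ : E => (1 : ZMod 2)) := ⟨0, 1, fun x => by simp⟩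
  have := IsQuad.mul hl h
  simpa using this

variable {F : Type*} [AddCommGroup F] [Module (ZMod 2) F]

lemma IsQuad.comp {Q : F → ZMod 2} (hQ : IsQuad Q) (A : E →ₗ[ZMod 2] F) :
    IsQuad (fun x => Q (A x)) := by
  obtain ⟨β, hβ⟩ := hQ
  refine ⟨β.compl₁₂ A A, fun x a => ?_⟩
  simp only [map_add, hβ, map_zero, LinearMap.compl₁₂_apply]

lemma IsAff.comp {l : F → ZMod 2} (hl : IsAff l) (A : E →ₗ[ZMod 2] F) :
    IsAff (fun x => l (A x)) := by
  obtain ⟨m, c, h⟩ := hl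
  exact ⟨m ∘ₗ A, c, fun x => h _⟩

lemma IsAff.add {l m : E → ZMod 2} (hl : IsAff l) (hm : IsAff m) :
    IsAff (fun x => l x + m x) := by
  obtain ⟨l', c, hl⟩ := hl
  obtain ⟨m', d, hm⟩ := hm
  refine ⟨l' + m', c + d, fun x => ?_⟩
  simp only [hl, hm, LinearMap.add_apply]; ring

lemma IsAff.const (c : ZMod 2) : IsAff (fun _ : E => c) := ⟨0, c, fun x => by simp⟩

lemma IsAff.lin (l : Dual (ZMod 2) E) : IsAff (fun x : E => l x) := ⟨l, 0, fun x => by simp⟩

lemma IsAff.sum {ι : Type*} (s : Finset ι) (Q : ι → E → ZMod 2)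
    (h : ∀ i ∈ s, IsAff (Q i)) : IsAff (fun x => ∑ i ∈ s, Q i x) := by
  classical
  induction s using Finset.induction_on with
  | empty => simpa using IsAff.const (E := E) 0
  | insert i s hi ih =>
    simp only [Finset.sum_insert hi]
    exact (h i (Finset.mem_insert_self _ _)).add
      (ih fun j hj => h j (Finset.mem_insert_of_mem hj))

lemma IsAff.smul {l : E → ZMod 2} (hl : IsAff l) (k : ZMod 2) : IsAff (fun x => k * l x) := by
  rcases z2 k with h | h <;> subst h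
  · simpa using IsAff.const (E := E) 0
  · simpa using hl

/-- comparison of dimensions through an injective map -/
lemma finrank_S_le {G : Type*} [AddCommGroup G] [Module (ZMod 2) G]
    [FiniteDimensional (ZMod 2) F] (A : Submodule (ZMod 2) G) (φ : F → ℂ)
    (T : G →ₗ[ZMod 2] (F × Dual (ZMod 2) F)) (hT : Function.Injective T)
    (h : ∀ g ∈ A, T g ∈ S φ) : finrank (ZMod 2) A ≤ finrank (ZMod 2) (S φ) := by
  let T' : A →ₗ[ZMod 2] S φ := (T ∘ₗ A.subtype).codRestrict (S φ) (fun g => h g.1 g.2)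
  have hT' : Function.Injective T' := by
    intro x y hxy
    have := congrArg Subtype.val hxy
    exact Subtype.ext (hT this)
  exact LinearMap.finrank_le_finrank_of_injective hT'

/-- multiplication by `(-1)^{Q}` -/
lemma SL.quad [FiniteDimensional (ZMod 2) E] {ψ : E → ℂ} (hψ : SL ψ) {Q : E → ZMod 2}
    (hQ : IsQuad Q) : SL (fun x => sg (Q x) * ψ x) := by
  obtain ⟨β, hβ⟩ := hQ
  unfold SL at *
  refine hψ.trans ?_
  -- the injective linear map (a, χ) ↦ (a, χ + β a)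
  let T : (E × Dual (ZMod 2) E) →ₗ[ZMod 2] (E × Dual (ZMod 2) E) :=
    (LinearMap.fst _ _ _).prod (LinearMap.snd _ _ _ + β ∘ₗ LinearMap.fst _ _ _)
  have hTa : ∀ p, T p = (p.1, p.2 + β p.1) := fun p => rfl
  refine finrank_S_le (S ψ) _ T ?_ ?_
  · intro p q h
    rw [hTa, hTa, Prod.mk.injEq] at h
    obtain ⟨h1, h2⟩ := h
    rw [h1] at h2
    exact Prod.ext h1 (add_right_cancel h2)
  · rintro ⟨a, χ⟩ ⟨c, hc⟩
    rw [hTa]
    refine ⟨sg (Q a + Q 0) * c, fun x => ?_⟩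
    have h1 := hc x
    simp only at h1 ⊢
    rw [hβ, LinearMap.add_apply, sg_add, sg_add (_ + _ + _), sg_add (_ + _), sg_add (Q x),
      sg_add (Q a)]
    calc sg (χ x) * sg ((β a) x) * (sg (Q x) * sg (Q a) * sg (Q 0) * sg ((β a) x) * ψ (x + a))
        = (sg ((β a) x) * sg ((β a) x)) * (sg (Q a) * sg (Q 0) * sg (Q x)) *
          (sg (χ x) * ψ (x + a)) := by ring
      _ = _ := by rw [sg_sq, h1]; ring

/-- tensoring with the constant function -/
lemma SL.ext [FiniteDimensional (ZMod 2) E] [FiniteDimensional (ZMod 2) F] {ψ : F → ℂ}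
    (hψ : SL ψ) : SL (fun x : E × F => ψ x.2) := by
  unfold SL at *
  rw [Module.finrank_prod]
  let T : (E × S ψ) →ₗ[ZMod 2] ((E × F) × Dual (ZMod 2) (E × F)) :=
    (LinearMap.prodMap LinearMap.id ((LinearMap.fst _ _ _) ∘ₗ (S ψ).subtype)).prod
      ((LinearMap.lcomp (ZMod 2) (ZMod 2) (LinearMap.snd (ZMod 2) E F)) ∘ₗ
        (LinearMap.snd _ _ _) ∘ₗ (S ψ).subtype ∘ₗ (LinearMap.snd _ _ _))
  have hTa : ∀ p, T p = ((p.1, p.2.1.1), p.2.1.2 ∘ₗ LinearMap.snd (ZMod 2) E F) := fun p => rfl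
  have h := finrank_S_le (G := E × S ψ) ⊤ (fun x : E × F => ψ x.2) T ?_ ?_
  · refine le_trans ?_ h
    rw [finrank_top, Module.finrank_prod]
    omega
  · rintro ⟨p1, p2⟩ ⟨q1, q2⟩ h
    rw [hTa, hTa, Prod.mk.injEq, Prod.mk.injEq] at h
    obtain ⟨⟨h1, h2⟩, h3⟩ := h
    refine Prod.ext h1 (Subtype.ext (Prod.ext h2 ?_))
    apply LinearMap.ext
    intro y
    have := congrArg (fun f => f (0, y)) h3
    simpa using this
  · rintro ⟨a, ⟨⟨b, χ⟩, ⟨c, hc⟩⟩⟩ -
    rw [hTa]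
    exact ⟨c, fun x => hc x.2⟩

/-- summing over a coordinate block -/
lemma SL.push [FiniteDimensional (ZMod 2) E] [FiniteDimensional (ZMod 2) F] [Fintype F]
    {ψ : E × F → ℂ} (hψ : SL ψ) : SL (fun x : E => ∑ z : F, ψ (x, z)) := by
  by_cases h0 : ψ = 0
  · subst h0
    have : (fun x : E => ∑ z : F, (0 : E × F → ℂ) (x, z)) = 0 := by
      funext x; simp
    rw [this]; exact SL_zero
  unfold SL at *
  rw [Module.finrank_prod] at hψ
  -- restriction to the dual of `F`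
  let ρ : S ψ →ₗ[ZMod 2] Dual (ZMod 2) F :=
    (LinearMap.lcomp (ZMod 2) (ZMod 2) (LinearMap.inr (ZMod 2) E F)) ∘ₗ
      (LinearMap.snd _ _ _) ∘ₗ (S ψ).subtype
  have hρ : ∀ p : S ψ, ρ p = p.1.2 ∘ₗ LinearMap.inr (ZMod 2) E F := fun p => rfl
  let τ : LinearMap.ker ρ →ₗ[ZMod 2] (E × Dual (ZMod 2) E) :=
    ((LinearMap.fst (ZMod 2) E F ∘ₗ LinearMap.fst _ _ _).prod
      ((LinearMap.lcomp (ZMod 2) (ZMod 2) (LinearMap.inl (ZMod 2) E F)) ∘ₗ
        (LinearMap.snd _ _ _))) ∘ₗ (S ψ).subtype ∘ₗ (LinearMap.ker ρ).subtype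
  have hτ : ∀ p : LinearMap.ker ρ, τ p = (p.1.1.1.1, p.1.1.2 ∘ₗ LinearMap.inl (ZMod 2) E F) :=
    fun p => rfl
  let K0 : Submodule (ZMod 2) F :=
    (S ψ).comap ((LinearMap.inl (ZMod 2) (E × F) (Dual (ZMod 2) (E × F))) ∘ₗ
      LinearMap.inr (ZMod 2) E F)
  have hK0 : ∀ z, z ∈ K0 ↔ (((0, z), 0) : (E × F) × Dual (ZMod 2) (E × F)) ∈ S ψ :=
    fun z => Iff.rfl
  have e1 := LinearMap.finrank_range_add_finrank_ker ρ
  have e2 := LinearMap.finrank_range_add_finrank_ker τ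
  have e3 := Subspace.finrank_add_finrank_dualAnnihilator_eq K0
  have h1 : finrank (ZMod 2) (LinearMap.range ρ) ≤ finrank (ZMod 2) K0.dualAnnihilator := by
    apply Submodule.finrank_mono
    rintro _ ⟨p, rfl⟩
    rw [Submodule.mem_dualAnnihilator]
    intro z hz
    have := S_comm h0 ((hK0 z).1 hz) p.2
    rw [hρ]
    simpa using this
  have key : ∀ p : LinearMap.ker τ, (p.1.1.1 : (E × F) × Dual (ZMod 2) (E × F)) =
      ((0, p.1.1.1.1.2), 0) := by
    intro p
    have a1 : p.1.1.1.2 ∘ₗ LinearMap.inr (ZMod 2) E F = 0 := by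
      have := p.1.2
      rw [LinearMap.mem_ker, hρ] at this
      exact this
    have a2 := p.2
    rw [LinearMap.mem_ker, hτ, Prod.mk_eq_zero] at a2
    refine Prod.ext (Prod.ext a2.1 rfl) ?_
    apply LinearMap.ext
    rintro ⟨x, y⟩
    have b1 := congrArg (fun f => f y) a1
    have b2 := congrArg (fun f => f x) a2.2
    simp only [LinearMap.comp_apply, LinearMap.inr_apply, LinearMap.zero_apply,
      LinearMap.inl_apply] at b1 b2
    have : ((x, y) : E × F) = (x, 0) + (0, y) := by simp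
    rw [this, map_add, b1, b2]; simp
  have h2 : finrank (ZMod 2) (LinearMap.ker τ) ≤ finrank (ZMod 2) K0 := by
    let κ : LinearMap.ker τ →ₗ[ZMod 2] K0 :=
      ((LinearMap.snd (ZMod 2) E F ∘ₗ LinearMap.fst _ _ _) ∘ₗ (S ψ).subtype ∘ₗ
        (LinearMap.ker ρ).subtype ∘ₗ (LinearMap.ker τ).subtype).codRestrict K0 (by
          intro p
          rw [hK0]
          have h := key p
          have h5 := p.1.1.2
          rw [h] at h5
          exact h5)
    have hκa : ∀ p, (κ p : F) = p.1.1.1.1.2 := fun p => rfl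
    have hκ : Function.Injective κ := by
      intro p q h
      have h' := congrArg Subtype.val h
      rw [hκa, hκa] at h'
      apply Subtype.ext; apply Subtype.ext; apply Subtype.ext
      rw [key p, key q, h']
    exact LinearMap.finrank_le_finrank_of_injective hκ
  have h3 : finrank (ZMod 2) (LinearMap.range τ) ≤
      finrank (ZMod 2) (S (fun x : E => ∑ z : F, ψ (x, z))) := by
    apply Submodule.finrank_mono
    rintro _ ⟨p, rfl⟩
    rw [hτ]
    obtain ⟨⟨⟨⟨a, b⟩, χ⟩, ⟨c, hc⟩⟩, hp⟩ := p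
    rw [LinearMap.mem_ker, hρ] at hp
    simp only at hp hc ⊢
    refine ⟨c, fun x => ?_⟩
    simp only [LinearMap.comp_apply, LinearMap.inl_apply]
    rw [Finset.mul_sum, Finset.mul_sum, ← Equiv.sum_comp (Equiv.addRight b)]
    refine Finset.sum_congr rfl fun z _ => ?_
    have := hc (x, z)
    have e : χ (x, z) = χ (x, 0) := by
      have e1 : ((x, z) : E × F) = (x, 0) + (0, z) := by simp
      have e2 := congrArg (fun f => f z) hp
      simp only [LinearMap.comp_apply, LinearMap.inr_apply, LinearMap.zero_apply] at e2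
      rw [e1, map_add, e2, add_zero]
    rw [e] at this
    exact this
  omega

end Q225.Stab
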