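import Pool.Agent.Q225.StabCore

/-! Counting stabilizer-like functions up to scalars. -/

namespace Q225.Stab

open Module

variable {E : Type*} [AddCommGroup E] [Module (ZMod 2) E]

/-- eigenvalues are powers of `i` -/
lemma Eig.pow_I {ψ : E → ℂ} (hψ : ψ ≠ 0) {p : E × Dual (ZMod 2) E} {c : ℂ}
    (h : Eig ψ p c) : ∃ k : Fin 4, c = Complex.I ^ (k : ℕ) := by
  have hsq : c * c = sg (p.2 p.1) := by
    have h2 := h.add h
    have e : p + p = 0 := add_self' p
    rw [e] at h2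
    have h3 := Eig.unique hψ h2 (Eig.zero ψ)
    calc c * c = c * c * (sg (p.2 p.1) * sg (p.2 p.1)) := by rw [sg_sq, mul_one]
      _ = (c * c * sg (p.2 p.1)) * sg (p.2 p.1) := by ring
      _ = _ := by rw [h3, one_mul]
  rcases z2 (p.2 p.1) with h0 | h1
  · rw [h0, sg_zero] at hsq
    rcases mul_self_eq_one_iff.mp hsq with h | h
    · exact ⟨0, by simp [h]⟩
    · exact ⟨2, by simp [h]⟩
  · rw [h1, sg_one, ← Complex.I_mul_I] at hsq
    rcases mul_self_eq_mul_self_iff.mp hsq with h | h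
    · exact ⟨1, by simp [h]⟩
    · refine ⟨3, ?_⟩
      have : ((3 : Fin 4) : ℕ) = 3 := rfl
      rw [this, Complex.I_pow_three, h]

/-- description of a symmetry space with eigenvalues -/
abbrev Desc (E : Type*) [AddCommGroup E] [Module (ZMod 2) E] : Type _ :=
  Fin (2 * finrank (ZMod 2) E) → (E × Dual (ZMod 2) E) × Fin 4

def Fits (ψ : E → ℂ) (D : Desc E) : Prop :=
  Submodule.span (ZMod 2) (Set.range fun j => (D j).1) = S ψ ∧
    ∀ j, Eig ψ (D j).1 (Complex.I ^ ((D j).2 : ℕ))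

lemma exists_fits [FiniteDimensional (ZMod 2) E] {ψ : E → ℂ} (hψ : ψ ≠ 0) :
    ∃ D : Desc E, Fits ψ D := by
  classical
  -- a generating family of length `2n`
  have hdim : finrank (ZMod 2) (S ψ) ≤ 2 * finrank (ZMod 2) E := by
    refine (Submodule.finrank_le _).trans ?_
    rw [Module.finrank_prod, Subspace.dual_finrank_eq]; omega
  let b := Module.finBasis (ZMod 2) (S ψ)
  let g : Fin (2 * finrank (ZMod 2) E) → E × Dual (ZMod 2) E := fun j =>
    if h : (j : ℕ) < finrank (ZMod 2) (S ψ) then (b ⟨j, h⟩ : S ψ).1 else 0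
  have hg : ∀ j, g j ∈ S ψ := by
    intro j
    simp only [g]
    split_ifs with h
    · exact (b ⟨j, h⟩).2
    · exact Submodule.zero_mem _
  have hspan : Submodule.span (ZMod 2) (Set.range g) = S ψ := by
    apply le_antisymm
    · rw [Submodule.span_le]
      rintro _ ⟨j, rfl⟩
      exact hg j
    · intro x hx
      have h1 : (⟨x, hx⟩ : S ψ) ∈ Submodule.span (ZMod 2) (Set.range b) := by
        rw [b.span_eq]; trivial
      have h2 := Submodule.mem_map_of_mem (f := (S ψ).subtype) h1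
      rw [Submodule.map_span] at h2
      refine Submodule.span_mono ?_ h2
      rintro _ ⟨_, ⟨i, rfl⟩, rfl⟩
      refine ⟨⟨i, lt_of_lt_of_le i.2 hdim⟩, ?_⟩
      simp only [g, i.2, dif_pos]
      rfl
  have hk : ∀ j, ∃ k : Fin 4, Eig ψ (g j) (Complex.I ^ (k : ℕ)) := by
    intro j
    obtain ⟨c, hc⟩ := hg j
    obtain ⟨k, rfl⟩ := hc.pow_I hψ
    exact ⟨k, hc⟩
  choose k hk using hk
  exact ⟨fun j => (g j, k j), hspan, hk⟩

/-- support translations -/
lemma mem_proj_of_supp [FiniteDimensional (ZMod 2) E] {ψ : E → ℂ} (h0 : ψ ≠ 0) (hψ : SL ψ)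
    {a : E} (ha : ∀ χ : Dual (ZMod 2) E, ((0 : E), χ) ∈ S ψ → χ a = 0) :
    ∃ χ : Dual (ZMod 2) E, (a, χ) ∈ S ψ := by
  let V : Submodule (ZMod 2) E := (S ψ).map (LinearMap.fst _ _ _)
  let S0 : Submodule (ZMod 2) (Dual (ZMod 2) E) := (S ψ).comap (LinearMap.inr _ _ _)
  have hS0 : ∀ χ, χ ∈ S0 ↔ ((0 : E), χ) ∈ S ψ := fun χ => Iff.rfl
  have hVle : V ≤ S0.dualCoannihilator := by
    rintro _ ⟨⟨b, θ⟩, hb, rfl⟩
    rw [Submodule.mem_dualCoannihilator]
    intro χ hχ
    have := S_comm h0 hb ((hS0 χ).1 hχ)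
    simpa using this
  have e1 : finrank (ZMod 2) V + finrank (ZMod 2) S0 = finrank (ZMod 2) (S ψ) := by
    let f : S ψ →ₗ[ZMod 2] E := (LinearMap.fst _ _ _) ∘ₗ (S ψ).subtype
    have e := LinearMap.finrank_range_add_finrank_ker f
    have r1 : LinearMap.range f = V := by
      rw [LinearMap.range_comp, Submodule.range_subtype]
    have r2 : finrank (ZMod 2) (LinearMap.ker f) = finrank (ZMod 2) S0 := by
      apply LinearEquiv.finrank_eq
      refine LinearEquiv.ofBijective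
        (((LinearMap.snd _ _ _) ∘ₗ (S ψ).subtype ∘ₗ (LinearMap.ker f).subtype).codRestrict S0 ?_)
        ⟨?_, ?_⟩
      · rintro ⟨⟨⟨b, θ⟩, hb⟩, hf⟩
        have : b = 0 := hf
        subst this
        exact hb
      · rintro ⟨⟨⟨b, θ⟩, hb⟩, hf⟩ ⟨⟨⟨b', θ'⟩, hb'⟩, hf'⟩ h
        have h1 : b = 0 := hf
        have h2 : b' = 0 := hf'
        subst h1; subst h2
        have h3 : θ = θ' := congrArg Subtype.val h
        subst h3
        rfl
      · rintro ⟨θ, hθ⟩
        exact ⟨⟨⟨(0, θ), hθ⟩, rfl⟩, rfl⟩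
    rw [r1, r2] at e
    exact e
  have e2 : finrank (ZMod 2) S0 + finrank (ZMod 2) S0.dualCoannihilator =
      finrank (ZMod 2) E := Subspace.finrank_add_finrank_dualCoannihilator_eq S0
  have e3 : V = S0.dualCoannihilator := by
    apply Submodule.eq_of_le_of_finrank_le hVle
    unfold SL at hψ
    omega
  have : a ∈ V := by
    rw [e3, Submodule.mem_dualCoannihilator]
    intro χ hχ
    exact ha χ ((hS0 χ).1 hχ)
  obtain ⟨⟨b, θ⟩, hb, rfl⟩ := this
  exact ⟨θ, hb⟩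

lemma fits_smul [FiniteDimensional (ZMod 2) E] {ψ φ : E → ℂ} (hψ0 : ψ ≠ 0) (hφ0 : φ ≠ 0)
    (hψ : SL ψ) (hφ : SL φ) {D : Desc E} (h1 : Fits ψ D) (h2 : Fits φ D) :
    ∃ c : ℂ, φ = c • ψ := by
  -- common eigenvalues
  have hS : S ψ = S φ := h1.1.symm.trans h2.1
  have hc : ∀ p ∈ S ψ, ∃ c, Eig ψ p c ∧ Eig φ p c := by
    intro p hp
    rw [← h1.1] at hp
    induction hp using Submodule.span_induction with
    | mem x hx =>
      obtain ⟨j, rfl⟩ := hx
      exact ⟨_, h1.2 j, h2.2 j⟩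
    | zero => exact ⟨1, Eig.zero _, Eig.zero _⟩
    | add x y _ _ hx hy =>
      obtain ⟨c, hc, hc'⟩ := hx
      obtain ⟨d, hd, hd'⟩ := hy
      exact ⟨_, hc.add hd, hc'.add hd'⟩
    | smul k x _ hx =>
      rcases z2 k with h | h
      · subst h; rw [zero_smul]; exact ⟨1, Eig.zero _, Eig.zero _⟩
      · subst h; rw [one_smul]; exact hx
  obtain ⟨x0, hx0⟩ : ∃ x, ψ x ≠ 0 := by
    by_contra hcon
    push Not at hcon
    exact hψ0 (funext hcon)
  obtain ⟨x1, hx1⟩ : ∃ x, φ x ≠ 0 := by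
    by_contra hcon
    push Not at hcon
    exact hφ0 (funext hcon)
  -- values of characters on the support
  have hval : ∀ χ : Dual (ZMod 2) E, ((0 : E), χ) ∈ S ψ → ∀ x y,
      (ψ x ≠ 0 ∨ φ x ≠ 0) → (ψ y ≠ 0 ∨ φ y ≠ 0) → χ (x + y) = 0 := by
    intro χ hχ x y hx hy
    obtain ⟨c, hc1, hc2⟩ := hc _ hχ
    have hx' : sg (χ x) = c := by
      rcases hx with h | h
      · have := hc1 x
        simp only [add_zero] at this
        exact mul_right_cancel₀ h this
      · have := hc2 x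
        simp only [add_zero] at this
        exact mul_right_cancel₀ h this
    have hy' : sg (χ y) = c := by
      rcases hy with h | h
      · have := hc1 y
        simp only [add_zero] at this
        exact mul_right_cancel₀ h this
      · have := hc2 y
        simp only [add_zero] at this
        exact mul_right_cancel₀ h this
    rw [map_add, sg_inj (hx'.trans hy'.symm), two_mul_z2]
  have htr : ∀ x y, (ψ x ≠ 0 ∨ φ x ≠ 0) → (ψ y ≠ 0 ∨ φ y ≠ 0) →
      ∃ s : ℂ, s ≠ 0 ∧ ψ y = s * ψ x ∧ φ y = s * φ x := by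
    intro x y hx hy
    obtain ⟨χ, hχ⟩ := mem_proj_of_supp hψ0 hψ (a := x + y)
      (fun χ hχ => hval χ hχ x y hx hy)
    obtain ⟨c, hc1, hc2⟩ := hc _ hχ
    have e : x + (x + y) = y := by
      rw [← add_assoc, add_self', zero_add]
    have a1 := hc1 x
    have a2 := hc2 x
    simp only [e] at a1 a2
    refine ⟨sg (χ x) * c, mul_ne_zero (sg_ne _) (hc1.ne_zero hψ0), ?_, ?_⟩
    · calc ψ y = (sg (χ x) * sg (χ x)) * ψ y := by rw [sg_sq, one_mul]
        _ = sg (χ x) * (sg (χ x) * ψ y) := by ring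
        _ = _ := by rw [a1]; ring
    · calc φ y = (sg (χ x) * sg (χ x)) * φ y := by rw [sg_sq, one_mul]
        _ = sg (χ x) * (sg (χ x) * φ y) := by ring
        _ = _ := by rw [a2]; ring
  refine ⟨φ x0 / ψ x0, ?_⟩
  funext y
  rw [Pi.smul_apply, smul_eq_mul]
  by_cases hy : ψ y ≠ 0 ∨ φ y ≠ 0
  · obtain ⟨s, hs, e1, e2⟩ := htr x0 y (Or.inl hx0) hy
    rw [e1, e2]
    field_simp
  · push Not at hy
    rw [hy.1, hy.2, mul_zero]

open Classical in
/-- representative of a description -/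
noncomputable def rep (D : Desc E) : E → ℂ :=
  if h : ∃ ψ : E → ℂ, ψ ≠ 0 ∧ SL ψ ∧ Fits ψ D then h.choose else 0

lemma SL.exists_rep [FiniteDimensional (ZMod 2) E] {ψ : E → ℂ} (hψ : SL ψ) :
    ∃ (D : Desc E) (c : ℂ), ψ = c • rep D := by
  by_cases h0 : ψ = 0
  · exact ⟨fun _ => 0, 0, by rw [h0, zero_smul]⟩
  · obtain ⟨D, hD⟩ := exists_fits h0
    have hex : ∃ ψ : E → ℂ, ψ ≠ 0 ∧ SL ψ ∧ Fits ψ D := ⟨ψ, h0, hψ, hD⟩
    have hr : rep D = hex.choose := by rw [rep, dif_pos hex]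
    obtain ⟨g1, g2, g3⟩ := hex.choose_spec
    obtain ⟨c, hc⟩ := fits_smul g1 h0 g2 hψ g3 hD
    exact ⟨D, c, by rw [hr]; exact hc⟩

end Q225.Stab
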