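import Pool.Agent.Q225.StabObt

/-! One-hot selection and the family of sign functions. -/

namespace Q225.Stab

open Module

variable {M : ℕ}

/-- prefix sums -/
def pre (u : Fin M → ZMod 2) (k : Fin M) : ZMod 2 := ∑ j ∈ Finset.univ.filter (fun j => j < k), u j

noncomputable def oneHot (u : Fin M → ZMod 2) : ℂ :=
  (∏ k, (if pre u k + 1 = 0 ∧ pre u k + u k = 0 then (0 : ℂ) else 1)) *
    (if (∑ k, u k) + 1 = 0 then 1 else 0)

lemma oneHot_single (k : Fin M) : oneHot (Pi.single k 1 : Fin M → ZMod 2) = 1 := by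
  classical
  have hpre : ∀ j, pre (Pi.single k 1 : Fin M → ZMod 2) j = if k < j then 1 else 0 := by
    intro j
    unfold pre
    by_cases h : k < j
    · rw [if_pos h, Finset.sum_eq_single k]
      · exact Pi.single_eq_same _ _
      · intro i _ hi
        exact Pi.single_eq_of_ne hi _
      · intro hc
        exact absurd (Finset.mem_filter.mpr ⟨Finset.mem_univ k, h⟩) hc
    · rw [if_neg h]
      apply Finset.sum_eq_zero
      intro i hi
      rw [Finset.mem_filter] at hi
      apply Pi.single_eq_of_ne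
      rintro rfl
      exact h hi.2
  unfold oneHot
  rw [Finset.prod_eq_one, if_pos, one_mul]
  · rw [Finset.sum_pi_single', if_pos (Finset.mem_univ _)]; rfl
  · intro j _
    rw [if_neg]
    rw [hpre]
    by_cases h : k < j
    · rw [if_pos h, Pi.single_eq_of_ne (ne_of_gt h)]
      rintro ⟨-, h2⟩
      exact absurd h2 (by decide)
    · rw [if_neg h]
      rintro ⟨h1, -⟩
      exact absurd h1 (by decide)

lemma oneHot_ne_zero {u : Fin M → ZMod 2} (h : oneHot u ≠ 0) : ∃ k, u = Pi.single k 1 := by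
  classical
  unfold oneHot at h
  have hA := left_ne_zero_of_mul h
  have hB := right_ne_zero_of_mul h
  rw [Finset.prod_ne_zero_iff] at hA
  have hA' : ∀ k, ¬ (pre u k + 1 = 0 ∧ pre u k + u k = 0) := by
    intro k hk
    have := hA k (Finset.mem_univ _)
    rw [if_pos hk] at this
    exact this rfl
  have hB' : (∑ k, u k) + 1 = 0 := by
    by_contra hc
    rw [if_neg hc] at hB
    exact hB rfl
  have hex : ∃ k, u k ≠ 0 := by
    by_contra hc
    push Not at hc
    rw [Finset.sum_eq_zero (fun k _ => hc k)] at hB'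
    exact absurd hB' (by decide)
  obtain ⟨k, hk, hmin⟩ := WellFounded.has_min (wellFounded_lt (α := Fin M)) {k | u k ≠ 0} hex
  have hlow : ∀ j, j < k → u j = 0 := by
    intro j hj
    by_contra hc
    exact hmin j hc hj
  have hk1 : u k = 1 := (z2 (u k)).resolve_left hk
  have hhigh : ∀ j, k < j → u j = 0 := by
    intro j
    induction j using WellFoundedLT.induction with
    | _ j ih =>
      intro hj
      have hp : pre u j = 1 := by
        unfold pre
        rw [Finset.sum_eq_single k, hk1]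
        · intro i hi hik
          rw [Finset.mem_filter] at hi
          rcases lt_or_gt_of_ne hik with h1 | h1
          · exact hlow i h1
          · exact ih i hi.2 h1
        · intro hc
          exact absurd (Finset.mem_filter.mpr ⟨Finset.mem_univ k, hj⟩) hc
      have := hA' j
      rw [hp] at this
      rcases z2 (u j) with h0 | h1
      · exact h0
      · exfalso
        apply this
        rw [h1]
        exact ⟨rfl, rfl⟩
  refine ⟨k, ?_⟩
  funext j
  rcases lt_trichotomy j k with h1 | h1 | h1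
  · rw [hlow j h1, Pi.single_eq_of_ne (ne_of_lt h1)]
  · rw [h1, hk1, Pi.single_eq_same]
  · rw [hhigh j h1, Pi.single_eq_of_ne (ne_of_gt h1)]

variable {E : Type*} [AddCommGroup E] [Module (ZMod 2) E]

lemma obt_oneHot {A : E →ₗ[ZMod 2] (Fin M → ZMod 2)} : Obt (M * 9) (fun y => oneHot (A y)) := by
  have hu : ∀ k, IsAff (fun y => A y k) := fun k =>
    IsAff.lin (LinearMap.proj k ∘ₗ A)
  have hp : ∀ k, IsAff (fun y => pre (A y) k) := fun k =>
    IsAff.sum _ _ fun j _ => hu j
  have h1 := Obt.prod (Finset.univ : Finset (Fin M)) 9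
    (fun k y => if pre (A y) k + 1 = 0 ∧ pre (A y) k + A y k = 0 then (0 : ℂ) else 1)
    (fun k _ => Obt.nz ((hp k).add (IsAff.const 1)) ((hp k).add (hu k)))
  have h2 := Obt.delta ((IsAff.sum Finset.univ _ fun j _ => hu j).add (IsAff.const 1))
  have h3 := h1.mul h2
  rw [Finset.card_univ, Fintype.card_fin] at h3
  exact h3

variable {m : ℕ}

/-- indicator of `y = Σ_k u_k e(k)` -/
noncomputable def dl (e : Fin M → (Fin m → ZMod 2)) (y : Fin m → ZMod 2) (u : Fin M → ZMod 2) : ℂ :=
  ∏ i, (if y i + ∑ k, e k i * u k = 0 then (1 : ℂ) else 0)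

lemma dl_single (e : Fin M → (Fin m → ZMod 2)) (k : Fin M) :
    dl e (e k) (Pi.single k 1) = 1 := by
  classical
  unfold dl
  apply Finset.prod_eq_one
  intro i _
  rw [if_pos]
  rw [Finset.sum_eq_single k]
  · rw [Pi.single_eq_same, mul_one, two_mul_z2]
  · intro j _ hj
    rw [Pi.single_eq_of_ne hj, mul_zero]
  · intro h; exact absurd (Finset.mem_univ _) h

lemma dl_ne_zero (e : Fin M → (Fin m → ZMod 2)) {y : Fin m → ZMod 2} {k : Fin M}
    (h : dl e y (Pi.single k 1) ≠ 0) : y = e k := by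
  classical
  unfold dl at h
  rw [Finset.prod_ne_zero_iff] at h
  funext i
  have h1 := h i (Finset.mem_univ _)
  have h2 : y i + ∑ j, e j i * (Pi.single k 1 : Fin M → ZMod 2) j = 0 := by
    by_contra hc
    rw [if_neg hc] at h1
    exact h1 rfl
  rw [Finset.sum_eq_single k, Pi.single_eq_same, mul_one] at h2
  · calc y i = y i + (e k i + e k i) := by rw [two_mul_z2, add_zero]
      _ = (y i + e k i) + e k i := by ring
      _ = e k i := by rw [h2, zero_add]
  · intro j _ hj
    rw [Pi.single_eq_of_ne hj, mul_zero]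
  · intro h; exact absurd (Finset.mem_univ _) h

lemma obt_dl (e : Fin M → (Fin m → ZMod 2)) {A : E →ₗ[ZMod 2] (Fin m → ZMod 2)}
    {B : E →ₗ[ZMod 2] (Fin M → ZMod 2)} : Obt 0 (fun y => dl e (A y) (B y)) := by
  have h1 := Obt.prod (Finset.univ : Finset (Fin m)) 0
    (fun i y => if A y i + ∑ k, e k i * B y k = 0 then (1 : ℂ) else 0)
    (fun i _ => Obt.delta ((IsAff.lin (LinearMap.proj i ∘ₗ A)).add
      (IsAff.sum Finset.univ _ fun k _ => (IsAff.lin (LinearMap.proj k ∘ₗ B)).smul (e k i))))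
  rw [mul_zero] at h1
  exact h1

abbrev K (m : ℕ) := Fin m → ZMod 2

/-- every sign matrix on `F₂^m × F₂^m` is obtained from `18·2^m` copies -/
lemma obt_sign (e : Fin M ≃ K m) (G : Fin M → Fin M → ZMod 2) :
    Obt (M * 9 + M * 9) (fun y : K m × K m => sg (G (e.symm y.1) (e.symm y.2))) := by
  classical
  let X := (K m × K m) × ((Fin M → ZMod 2) × (Fin M → ZMod 2))
  let a1 : X →ₗ[ZMod 2] K m := LinearMap.fst _ _ _ ∘ₗ LinearMap.fst _ _ _
  let a2 : X →ₗ[ZMod 2] K m := LinearMap.snd _ _ _ ∘ₗ LinearMap.fst _ _ _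
  let b1 : X →ₗ[ZMod 2] (Fin M → ZMod 2) := LinearMap.fst _ _ _ ∘ₗ LinearMap.snd _ _ _
  let b2 : X →ₗ[ZMod 2] (Fin M → ZMod 2) := LinearMap.snd _ _ _ ∘ₗ LinearMap.snd _ _ _
  have hq : IsQuad (fun x : X => ∑ k, (b1 x k * ∑ j, G k j * b2 x j)) :=
    IsQuad.sum Finset.univ _ fun k _ =>
      IsQuad.mul (IsAff.lin (LinearMap.proj k ∘ₗ b1))
        (IsAff.sum Finset.univ _ fun j _ => (IsAff.lin (LinearMap.proj j ∘ₗ b2)).smul (G k j))
  have h := ((((obt_oneHot (A := b1)).mul (obt_oneHot (A := b2))).mul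
    (obt_dl e (A := a1) (B := b1))).mul (obt_dl e (A := a2) (B := b2))).mul (Obt.sign hq)
  refine Obt.congr (d := M * 9 + M * 9) h.sum fun y => ?_
  rw [Finset.sum_eq_single
    ((Pi.single (e.symm y.1) 1, Pi.single (e.symm y.2) 1) :
      (Fin M → ZMod 2) × (Fin M → ZMod 2))]
  · change oneHot (Pi.single (e.symm y.1) 1) * oneHot (Pi.single (e.symm y.2) 1) *
      dl e y.1 (Pi.single (e.symm y.1) 1) * dl e y.2 (Pi.single (e.symm y.2) 1) *
      sg (∑ k, (Pi.single (e.symm y.1) 1 : Fin M → ZMod 2) k *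
        ∑ j, G k j * (Pi.single (e.symm y.2) 1 : Fin M → ZMod 2) j) = _
    have d1 := dl_single e (e.symm y.1)
    have d2 := dl_single e (e.symm y.2)
    rw [e.apply_symm_apply] at d1 d2
    rw [oneHot_single, oneHot_single, d1, d2, one_mul, one_mul, one_mul, one_mul]
    congr 1
    rw [Finset.sum_eq_single (e.symm y.1), Finset.sum_eq_single (e.symm y.2),
      Pi.single_eq_same, Pi.single_eq_same, one_mul, mul_one]
    · intro j _ hj
      rw [Pi.single_eq_of_ne hj, mul_zero]
    · intro h; exact absurd (Finset.mem_univ _) h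
    · intro j _ hj
      rw [Pi.single_eq_of_ne hj, zero_mul]
    · intro h; exact absurd (Finset.mem_univ _) h
  · rintro ⟨u, w⟩ - hne
    change oneHot u * oneHot w * dl e y.1 u * dl e y.2 w *
      sg (∑ k, u k * ∑ j, G k j * w j) = 0
    by_contra hc
    have c1 := left_ne_zero_of_mul hc
    have c2 := right_ne_zero_of_mul c1
    have c3 := left_ne_zero_of_mul c1
    have c4 := right_ne_zero_of_mul c3
    have c5 := left_ne_zero_of_mul c3
    obtain ⟨k, rfl⟩ := oneHot_ne_zero (left_ne_zero_of_mul c5)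
    obtain ⟨k', rfl⟩ := oneHot_ne_zero (right_ne_zero_of_mul c5)
    have e1 := dl_ne_zero e c4
    have e2 := dl_ne_zero e c2
    apply hne
    rw [e1, e2, e.symm_apply_apply, e.symm_apply_apply]
  · intro h; exact absurd (Finset.mem_univ _) h

/-- the counting inequality -/
theorem main_ineq (m d r : ℕ) (hd : 18 * 2 ^ m ≤ d) (hdec : Dec r (vT d)) :
    4 ^ m ≤ ((4 * m + 2) * (4 * m) + 1) * r := by
  classical
  have hcard : Fintype.card (Fin (2 ^ m)) = Fintype.card (K m) := by
    simp [ZMod.card]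
  let e : Fin (2 ^ m) ≃ K m := Fintype.equivOfCardEq hcard
  let φ : (Fin (2 ^ m) → Fin (2 ^ m) → ZMod 2) → (K m × K m) → ℂ :=
    fun G y => sg (G (e.symm y.1) (e.symm y.2))
  have hφ : Function.Injective φ := by
    intro G G' h
    funext k k'
    have := congrFun h (e k, e k')
    simp only [φ, e.symm_apply_apply] at this
    exact sg_inj this
  have hpm : ∀ g y, φ g y = 1 ∨ φ g y = -1 := by
    intro g y
    simp only [φ, sg]
    split_ifs
    · left; rfl
    · right; rfl
  have hD : ∀ g, Dec r (φ g) := by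
    intro g
    have h := obt_sign e g
    have h2 : Obt d (φ g) := h.mono (by omega)
    exact h2.dec hdec
  have hb := count_bound φ hφ hpm hD
  have hfr : finrank (ZMod 2) (K m × K m) = 2 * m := by
    rw [Module.finrank_prod, Module.finrank_fin_fun]; omega
  rw [card_desc, hfr] at hb
  have hG : Nat.card (Fin (2 ^ m) → Fin (2 ^ m) → ZMod 2) = 2 ^ (4 ^ m) := by
    rw [Nat.card_fun, Nat.card_fun, Nat.card_eq_fintype_card, Nat.card_eq_fintype_card, ZMod.card,
      Fintype.card_fin, ← pow_mul, ← mul_pow]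
    norm_num
  rw [hG, ← pow_mul, ← pow_add] at hb
  have h1 := (Nat.pow_le_pow_iff_right (by norm_num)).mp hb
  calc 4 ^ m ≤ _ := h1
    _ = _ := by ring

end Q225.Stab
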