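import Pool.Agent.Q225.StabBound

/-! Functions obtained from `v^{⊗ d}` by quadratic sums. -/

namespace Q225.Stab

open Module

/-- the vector `v = e₀ + √2 e₁` -/
noncomputable def vq (x : ZMod 2) : ℂ := if x = 0 then 1 else (Real.sqrt 2 : ℝ)

/-- `v^{⊗ d}` -/
noncomputable def vT (d : ℕ) (f : Fin d → ZMod 2) : ℂ := ∏ i, vq (f i)

lemma vq_zero : vq 0 = 1 := by simp [vq]
lemma vq_one : vq 1 = (Real.sqrt 2 : ℝ) := by simp [vq]

lemma sqrt2_mul : ((Real.sqrt 2 : ℝ) : ℂ) * (Real.sqrt 2 : ℝ) = 2 := by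
  rw [← Complex.ofReal_mul, Real.mul_self_sqrt (by norm_num)]; norm_num

lemma sqrt2_ne : ((Real.sqrt 2 : ℝ) : ℂ) ≠ 0 := by
  intro h
  have := sqrt2_mul
  rw [h] at this; norm_num at this

variable {E : Type*} [AddCommGroup E] [Module (ZMod 2) E]
variable {E' : Type*} [AddCommGroup E'] [Module (ZMod 2) E']

/-- `φ(y) = c Σ_{w,f} (-1)^{Q(y,w,f)} v^{⊗ d}(f)` with `Q` quadratic -/
def Obt (d : ℕ) (φ : E → ℂ) : Prop :=
  ∃ (W : Type) (_ : AddCommGroup W) (_ : Module (ZMod 2) W) (_ : Fintype W)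
    (Q : E × W × (Fin d → ZMod 2) → ZMod 2) (c : ℂ), IsQuad Q ∧
    ∀ y, φ y = c * ∑ w : W, ∑ f : Fin d → ZMod 2, sg (Q (y, w, f)) * vT d f

lemma Obt.congr {d : ℕ} {φ ψ : E → ℂ} (h : Obt d φ) (e : ∀ y, φ y = ψ y) : Obt d ψ := by
  have : φ = ψ := funext e
  rwa [← this]

lemma Obt.dec [Fintype E] {d r : ℕ} {φ : E → ℂ} (h : Obt d φ) (hv : Dec r (vT d)) :
    Dec r φ := by
  obtain ⟨W, iW1, iW2, iW3, Q, c, hQ, hφ⟩ := h
  obtain ⟨a, ψ, hψ, he⟩ := hv
  have : FiniteDimensional (ZMod 2) E := inferInstance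
  have : FiniteDimensional (ZMod 2) W := inferInstance
  refine ⟨fun i => c * a i,
    fun i y => ∑ z : W × (Fin d → ZMod 2), sg (Q (y, z)) * ψ i z.2, fun i => ?_, ?_⟩
  · have h1 := (hψ i).ext (E := W)
    have h2 := h1.ext (E := E)
    have h3 := h2.quad hQ
    exact h3.push
  · funext y
    rw [hφ, he]
    simp only [Finset.sum_apply, Pi.smul_apply, smul_eq_mul, Fintype.sum_prod_type,
      Finset.mul_sum]
    rw [Finset.sum_comm' (t' := Finset.univ) (s' := fun _ => Finset.univ)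
      (s := (Finset.univ : Finset (Fin r))) (t := fun _ => (Finset.univ : Finset W)) (by simp)]
    refine Finset.sum_congr rfl fun w _ => ?_
    rw [Finset.sum_comm]
    refine Finset.sum_congr rfl fun i _ => Finset.sum_congr rfl fun f _ => ?_
    ring

lemma Obt.comp {d : ℕ} {φ : E → ℂ} (h : Obt d φ) (A : E' →ₗ[ZMod 2] E) :
    Obt d (fun y => φ (A y)) := by
  obtain ⟨W, iW1, iW2, iW3, Q, c, hQ, hφ⟩ := h
  exact ⟨W, iW1, iW2, iW3, fun x => Q (A x.1, x.2), c,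
    hQ.comp (A.prodMap LinearMap.id), fun y => hφ _⟩

lemma Obt.smul {d : ℕ} {φ : E → ℂ} (h : Obt d φ) (a : ℂ) : Obt d (fun y => a * φ y) := by
  obtain ⟨W, iW1, iW2, iW3, Q, c, hQ, hφ⟩ := h
  exact ⟨W, iW1, iW2, iW3, Q, a * c, hQ, fun y => by simp only [hφ]; ring⟩

lemma Obt.sum {W' : Type} [AddCommGroup W'] [Module (ZMod 2) W'] [Fintype W'] {d : ℕ}
    {φ : E × W' → ℂ} (h : Obt d φ) : Obt d (fun y => ∑ w, φ (y, w)) := by
  obtain ⟨W, iW1, iW2, iW3, Q, c, hQ, hφ⟩ := h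
  let A : E × (W' × W) × (Fin d → ZMod 2) →ₗ[ZMod 2] (E × W') × W × (Fin d → ZMod 2) :=
    ((LinearMap.fst _ _ _).prod (LinearMap.fst _ _ _ ∘ₗ LinearMap.fst _ _ _ ∘ₗ
      LinearMap.snd _ _ _)).prod ((LinearMap.snd _ _ _ ∘ₗ LinearMap.fst _ _ _ ∘ₗ
      LinearMap.snd _ _ _).prod (LinearMap.snd _ _ _ ∘ₗ LinearMap.snd _ _ _))
  refine ⟨W' × W, inferInstance, inferInstance, inferInstance,
    fun x => Q (A x), c, hQ.comp A, fun y => ?_⟩
  simp only [hφ]
  rw [← Finset.mul_sum, Fintype.sum_prod_type]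
  rfl

lemma Obt.mul {d1 d2 : ℕ} {φ1 φ2 : E → ℂ} (h1 : Obt d1 φ1) (h2 : Obt d2 φ2) :
    Obt (d1 + d2) (fun y => φ1 y * φ2 y) := by
  obtain ⟨W, iW1, iW2, iW3, Q, c, hQ, hφ⟩ := h1
  obtain ⟨W', iW1', iW2', iW3', Q', c', hQ', hφ'⟩ := h2
  let A : E × (W × W') × (Fin (d1 + d2) → ZMod 2) →ₗ[ZMod 2] E × W × (Fin d1 → ZMod 2) :=
    (LinearMap.fst _ _ _).prod ((LinearMap.fst _ _ _ ∘ₗ LinearMap.fst _ _ _ ∘ₗ
      LinearMap.snd _ _ _).prod (LinearMap.funLeft (ZMod 2) (ZMod 2) (Fin.castAdd d2) ∘ₗ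
        LinearMap.snd _ _ _ ∘ₗ LinearMap.snd _ _ _))
  let A' : E × (W × W') × (Fin (d1 + d2) → ZMod 2) →ₗ[ZMod 2] E × W' × (Fin d2 → ZMod 2) :=
    (LinearMap.fst _ _ _).prod ((LinearMap.snd _ _ _ ∘ₗ LinearMap.fst _ _ _ ∘ₗ
      LinearMap.snd _ _ _).prod (LinearMap.funLeft (ZMod 2) (ZMod 2) (Fin.natAdd d1) ∘ₗ
        LinearMap.snd _ _ _ ∘ₗ LinearMap.snd _ _ _))
  refine ⟨W × W', inferInstance, inferInstance, inferInstance,
    fun x => Q (A x) + Q' (A' x), c * c', (hQ.comp A).add (hQ'.comp A'), fun y => ?_⟩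
  simp only [hφ, hφ']
  rw [Fintype.sum_prod_type]
  have e : ∀ w w', ∑ f : Fin (d1 + d2) → ZMod 2,
      sg (Q (A (y, (w, w'), f)) + Q' (A' (y, (w, w'), f))) * vT (d1 + d2) f =
      (∑ f : Fin d1 → ZMod 2, sg (Q (y, w, f)) * vT d1 f) *
      (∑ f : Fin d2 → ZMod 2, sg (Q' (y, w', f)) * vT d2 f) := by
    intro w w'
    rw [← Equiv.sum_comp (Fin.appendEquiv d1 d2), Fintype.sum_prod_type, Finset.sum_mul_sum]
    refine Finset.sum_congr rfl fun f _ => Finset.sum_congr rfl fun g _ => ?_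
    have a1 : A (y, (w, w'), Fin.appendEquiv d1 d2 (f, g)) = (y, w, f) := by
      refine Prod.ext rfl (Prod.ext rfl ?_)
      funext i
      exact Fin.append_left f g i
    have a2 : A' (y, (w, w'), Fin.appendEquiv d1 d2 (f, g)) = (y, w', g) := by
      refine Prod.ext rfl (Prod.ext rfl ?_)
      funext i
      exact Fin.append_right f g i
    have a3 : vT (d1 + d2) (Fin.appendEquiv d1 d2 (f, g)) = vT d1 f * vT d2 g := by
      unfold vT
      rw [Fin.prod_univ_add]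
      congr 1
      · refine Finset.prod_congr rfl fun i _ => ?_
        congr 1
        exact Fin.append_left f g i
      · refine Finset.prod_congr rfl fun i _ => ?_
        congr 1
        exact Fin.append_right f g i
    rw [a1, a2, a3, sg_add]; ring
  simp only [e]
  rw [mul_mul_mul_comm, Finset.sum_mul_sum]

lemma Obt.sign {Q : E → ZMod 2} (hQ : IsQuad Q) : Obt 0 (fun y => sg (Q y)) := by
  refine ⟨PUnit, inferInstance, inferInstance, inferInstance, fun x => Q x.1, 1,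
    hQ.comp (LinearMap.fst (ZMod 2) E (PUnit × (Fin 0 → ZMod 2))), fun y => ?_⟩
  simp [vT]

lemma sum_z2 (f : ZMod 2 → ℂ) : ∑ s : ZMod 2, f s = f 0 + f 1 := Fin.sum_univ_two f

lemma Obt.v {l : E → ZMod 2} (hl : IsAff l) : Obt 1 (fun y => vq (l y)) := by
  let π1 : E × ZMod 2 × (Fin 1 → ZMod 2) →ₗ[ZMod 2] E := LinearMap.fst _ _ _
  let π2 : Dual (ZMod 2) (E × ZMod 2 × (Fin 1 → ZMod 2)) :=
    LinearMap.fst _ _ _ ∘ₗ LinearMap.snd _ _ _
  let π3 : Dual (ZMod 2) (E × ZMod 2 × (Fin 1 → ZMod 2)) :=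
    LinearMap.proj 0 ∘ₗ LinearMap.snd _ _ _ ∘ₗ LinearMap.snd _ _ _
  refine ⟨ZMod 2, inferInstance, inferInstance, inferInstance,
    fun x => π2 x * (π3 x + l (π1 x)), 1 / 2,
    IsQuad.mul (IsAff.lin π2) ((IsAff.lin π3).add (hl.comp π1)), fun y => ?_⟩
  have e : ∀ w : ZMod 2, ∀ g : (Fin 1 → ZMod 2) → ℂ, ∑ f : Fin 1 → ZMod 2, g f =
      g (fun _ => 0) + g (fun _ => 1) := by
    intro w g
    rw [← Equiv.sum_comp (Equiv.funUnique (Fin 1) (ZMod 2)).symm, sum_z2]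
    rfl
  rw [sum_z2, e 0, e 0]
  simp only [π1, π2, π3, LinearMap.comp_apply, LinearMap.fst_apply, LinearMap.snd_apply,
    LinearMap.proj_apply, vT, Finset.univ_unique, Finset.prod_const, Finset.card_singleton,
    pow_one, vq_zero, vq_one, zero_mul, one_mul, sg_zero, zero_add]
  have h11 : (1 : ZMod 2) + 1 = 0 := rfl
  rcases z2 (l y) with h | h
  · rw [h, vq_zero, sg_zero, add_zero, sg_one]; ring
  · rw [h, vq_one, sg_one, h11, sg_zero]; ring

lemma Obt.const (d : ℕ) (a : ℂ) : Obt d (fun _ : E => a) := by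
  have h1 : ∀ d : ℕ, Obt d (fun _ : E => (1 : ℂ)) := by
    intro d
    induction d with
    | zero =>
      refine (Obt.sign (IsQuad.const (E := E) 0)).congr fun y => ?_
      rw [sg_zero]
    | succ d ih =>
      refine (ih.mul (Obt.v (IsAff.const (E := E) 0))).congr fun y => ?_
      rw [vq_zero, mul_one]
  refine ((h1 d).smul a).congr fun y => mul_one _

lemma Obt.mono {d d' : ℕ} {φ : E → ℂ} (h : Obt d φ) (hd : d ≤ d') : Obt d' φ := by
  obtain ⟨k, rfl⟩ := Nat.exists_eq_add_of_le hd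
  refine (h.mul (Obt.const (E := E) k 1)).congr fun y => mul_one _

lemma Obt.prod {ι : Type*} (s : Finset ι) (d : ℕ) (φ : ι → E → ℂ)
    (h : ∀ i ∈ s, Obt d (φ i)) : Obt (s.card * d) (fun y => ∏ i ∈ s, φ i y) := by
  classical
  induction s using Finset.induction_on with
  | empty => simpa using Obt.const (E := E) 0 1
  | insert i s hi ih =>
    rw [Finset.card_insert_of_notMem hi, add_mul, one_mul, add_comm]
    refine ((h i (Finset.mem_insert_self _ _)).mul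
      (ih fun j hj => h j (Finset.mem_insert_of_mem hj))).congr fun y => ?_
    rw [Finset.prod_insert hi]

/-- indicator of `l = 0` -/
lemma Obt.delta {l : E → ZMod 2} (hl : IsAff l) :
    Obt 0 (fun y => if l y = 0 then (1 : ℂ) else 0) := by
  have h1 : IsQuad (fun x : E × ZMod 2 => x.2 * l x.1) :=
    IsQuad.mul (IsAff.lin (LinearMap.snd (ZMod 2) E (ZMod 2)))
      (hl.comp (LinearMap.fst (ZMod 2) E (ZMod 2)))
  refine (((Obt.sign h1).sum).smul (1 / 2)).congr fun y => ?_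
  rw [sum_z2]
  simp only [zero_mul, one_mul, sg_zero]
  rcases z2 (l y) with h | h
  · rw [h, sg_zero, if_pos rfl]; norm_num
  · rw [h, sg_one, if_neg (by decide)]; norm_num

/-- indicator of `(l, m) ≠ (0, 0)` from nine copies -/
lemma Obt.nz {l m : E → ZMod 2} (hl : IsAff l) (hm : IsAff m) :
    Obt 9 (fun y => if l y = 0 ∧ m y = 0 then (0 : ℂ) else 1) := by
  let p1 : E × ZMod 2 →ₗ[ZMod 2] E := LinearMap.fst _ _ _
  let p2 : Dual (ZMod 2) (E × ZMod 2) := LinearMap.snd _ _ _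
  have hc : IsAff (fun x : E × ZMod 2 => x.2) := IsAff.lin p2
  have hl' : IsAff (fun x : E × ZMod 2 => l x.1) := hl.comp p1
  have hm' : IsAff (fun x : E × ZMod 2 => m x.1) := hm.comp p1
  have hn := hl'.add hm'
  have h0 := Obt.sign hc.quad
  have hc1 := Obt.v (hc.add (IsAff.const 1))
  have h := ((((((((h0.mul hc1).mul hc1).mul hc1).mul (Obt.v hl')).mul
    (Obt.v (hl'.add hc))).mul (Obt.v hm')).mul (Obt.v (hm'.add hc))).mul (Obt.v hn)).mul
    (Obt.v (hn.add hc))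
  have h2 := (h.sum).smul (1 / (6 * (Real.sqrt 2 : ℝ)))
  refine Obt.congr (d := 9) h2 fun y => ?_
  rw [sum_z2]
  have h11 : (1 : ZMod 2) + 1 = 0 := rfl
  have hs := sqrt2_mul
  have hs0 := sqrt2_ne
  rcases z2 (l y) with h | h <;> rcases z2 (m y) with h' | h' <;>
    simp only [h, h', h11, zero_add, add_zero, vq_zero, vq_one, sg_zero, sg_one, one_mul,
      mul_one, and_self, if_true, and_true, one_ne_zero, if_false, and_false]
  all_goals field_simp
  · ring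
  all_goals linear_combination (((Real.sqrt 2 : ℝ) : ℂ) ^ 4 + 2 * ((Real.sqrt 2 : ℝ) : ℂ) ^ 2 + 3) * hs

end Q225.Stab
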